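import Pool.Agent.R217.NL.Red5

set_option autoImplicit false

open Filter Topology Set MeasureTheory
open scoped ENNReal InnerProductSpace

namespace Pool.Agent.R217.NL

variable {d : ℕ} {u : E d → ℝ} {G : E d → E d} {φ : ℕ → E d → ℝ}

lemma Dat.w_rad (h : Dat d u G φ) :
    IntegrableOn (fun r => r ^ (d + 1) * qm d G r) (Ioo 0 1) := by
  have h1 : IntegrableOn (fun x : E d => qm d G ‖x‖) (Metric.ball 0 1) volume := h.w_int
  rw [integrableOn_fun_norm_addHaar, finrank_euclideanSpace_fin] at h1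
  exact h1

/-- Passing from the weighted to the plain integral. -/
lemma plain {f : ℝ → ℝ≥0∞} {a : ℝ} (ha : a ∈ Ioo (0:ℝ) 1) :
    ∫⁻ r in Ioo a 1, f r ≤ ENNReal.ofReal (a ^ (d + 1))⁻¹ *
      ∫⁻ r in Ioo (0:ℝ) 1, ENNReal.ofReal (r ^ (d + 1)) * f r := by
  rw [← lintegral_const_mul' _ _ ENNReal.ofReal_ne_top]
  have h1 : ∫⁻ r in Ioo a 1, f r ≤ ∫⁻ r in Ioo a 1, ENNReal.ofReal (a ^ (d + 1))⁻¹ *
      (ENNReal.ofReal (r ^ (d + 1)) * f r) := by
    apply setLIntegral_mono' measurableSet_Ioo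
    intro r hr
    rw [← mul_assoc, ← ENNReal.ofReal_mul (by have := ha.1; positivity)]
    have h2 : 1 ≤ (a ^ (d + 1))⁻¹ * r ^ (d + 1) := by
      have := ha.1
      rw [inv_mul_eq_div, one_le_div (by positivity)]
      exact pow_le_pow_left₀ this.le hr.1.le _
    have h3 : (1:ℝ≥0∞) ≤ ENNReal.ofReal ((a ^ (d + 1))⁻¹ * r ^ (d + 1)) := by
      rw [← ENNReal.ofReal_one]; exact ENNReal.ofReal_le_ofReal h2
    calc f r = 1 * f r := (one_mul _).symm
      _ ≤ _ := by gcongr
  exact h1.trans (lintegral_mono_set (Ioo_subset_Ioo_left ha.1.le))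

lemma Dat.w_int2 (h : Dat d u G φ) {a : ℝ} (ha : a ∈ Ioo (0:ℝ) 1) :
    IntegrableOn (qm d G) (Ioo a 1) := by
  have h1 := h.w_rad.mono_set (Ioo_subset_Ioo_left ha.1.le : Ioo a 1 ⊆ Ioo 0 1)
  have hm : Measurable fun r : ℝ => (r ^ (d + 1))⁻¹ := by fun_prop
  have h2 := Integrable.mul_bdd (c := (a ^ (d + 1))⁻¹) h1
    hm.aestronglyMeasurable (by
      filter_upwards [ae_restrict_mem measurableSet_Ioo] with r hr
      have := ha.1
      have hr0 : 0 < r := lt_trans this hr.1
      rw [Real.norm_eq_abs, abs_of_pos (by positivity)]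
      gcongr
      exact hr.1.le)
  refine h2.congr ?_
  filter_upwards [ae_restrict_mem measurableSet_Ioo] with r hr
  have hr0 : 0 < r := lt_trans ha.1 hr.1
  field_simp

lemma Dat.w_ii (h : Dat d u G φ) {a : ℝ} (ha : a ∈ Ioo (0:ℝ) 1) :
    IntervalIntegrable (qm d G) volume a 1 := by
  rw [intervalIntegrable_iff_integrableOn_Ioo_of_le ha.2.le]
  exact h.w_int2 ha

/-- Pointwise convergence of the spherical means. -/
lemma Dat.pm_lim (h : Dat d u G φ) {a : ℝ} (ha : a ∈ Ioo (0:ℝ) 1) :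
    Tendsto (fun j => pm d (φ j) a) atTop (𝓝 (-∫ t in a..1, qm d G t)) := by
  have h0 : Tendsto (fun j => ∫⁻ r in Ioo a 1, ‖qm d (gradient (φ j)) r - qm d G r‖ₑ) atTop
      (𝓝 0) := by
    have h3 := ENNReal.Tendsto.const_mul (a := ENNReal.ofReal (a ^ (d + 1))⁻¹) h.b2
      (Or.inr ENNReal.ofReal_ne_top)
    rw [mul_zero] at h3
    exact tendsto_of_tendsto_of_tendsto_of_le_of_le tendsto_const_nhds h3 (fun _ => zero_le)
      (fun j => plain ha)
  have h1 : Tendsto (fun j => ∫ t in Ioo a 1, qm d (gradient (φ j)) t) atTop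
      (𝓝 (∫ t in Ioo a 1, qm d G t)) := by
    apply tendsto_integral_of_L1 _ (qm_meas h.meas).aestronglyMeasurable _ h0
    refine Eventually.of_forall fun j => ?_
    have : IntegrableOn (qm d (gradient (φ j))) (Icc a 1) :=
      (qm_cont (h.test j)).continuousOn.integrableOn_compact isCompact_Icc
    exact this.mono_set Ioo_subset_Icc_self
  have e : ∀ f : ℝ → ℝ, ∫ t in Ioo a 1, f t = ∫ t in a..1, f t := by
    intro f
    rw [intervalIntegral.integral_of_le ha.2.le, integral_Ioc_eq_integral_Ioo]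
  simp_rw [e] at h1
  refine h1.neg.congr fun j => ?_
  rw [pm_val (h.test j)]

lemma Dat.U_eq (h : Dat d u G φ) {r : ℝ} (hr : r ∈ Ioo (0:ℝ) 1) :
    UU d u r = -∫ t in r..1, qm d G t := by
  obtain ⟨a, ha0, har⟩ := exists_between hr.1
  have ha : a ∈ Ioo (0:ℝ) 1 := ⟨ha0, har.trans hr.2⟩
  -- a.e. equality on (a,1)
  have hae : Ut d u =ᵐ[volume.restrict (Ioo a 1)] fun r => -∫ t in r..1, qm d G t := by
    have h0 : Tendsto (fun j => ∫⁻ r in Ioo a 1, ‖pm d (φ j) r - Ut d u r‖ₑ) atTop (𝓝 0) := by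
      have h3 := ENNReal.Tendsto.const_mul (a := ENNReal.ofReal (a ^ (d + 1))⁻¹) h.b1
        (Or.inr ENNReal.ofReal_ne_top)
      rw [mul_zero] at h3
      exact tendsto_of_tendsto_of_tendsto_of_le_of_le tendsto_const_nhds h3 (fun _ => zero_le)
        (fun j => plain ha)
    have h1 : TendstoInMeasure (volume.restrict (Ioo a 1)) (fun j => pm d (φ j)) atTop
        (Ut d u) := by
      apply tendstoInMeasure_of_tendsto_eLpNorm one_ne_zero
        (fun j => (pm_cont (h.test j)).aestronglyMeasurable)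
        (Ut_meas h.cont).aestronglyMeasurable
      refine h0.congr fun j => ?_
      rw [eLpNorm_one_eq_lintegral_enorm]
      rfl
    obtain ⟨ns, hns, hns2⟩ := h1.exists_seq_tendsto_ae
    filter_upwards [hns2, ae_restrict_mem measurableSet_Ioo] with t ht ht2
    exact tendsto_nhds_unique ht
      ((h.pm_lim ⟨lt_trans ha0 ht2.1, ht2.2⟩).comp hns.tendsto_atTop)
  have hsub : Ioo a 1 ⊆ Ioo (-1:ℝ) 1 := fun x hx => ⟨by linarith [hx.1], hx.2⟩
  have hae2 : UU d u =ᵐ[volume.restrict (Ioo a 1)] fun r => -∫ t in r..1, qm d G t := by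
    filter_upwards [hae, ae_restrict_mem measurableSet_Ioo] with t ht ht2
    rw [← ht, Ut, indicator_of_mem (hsub ht2)]
  have hc : ContinuousOn (fun r => -∫ t in r..1, qm d G t) (Ioo a 1) := by
    have h1 := intervalIntegral.continuousOn_primitive_interval' (h.w_ii ha)
      (right_mem_uIcc (a := a) (b := 1))
    have h2 : (fun r => -∫ t in r..1, qm d G t) = fun r => ∫ t in (1:ℝ)..r, qm d G t := by
      funext r
      rw [intervalIntegral.integral_symm, neg_neg]
    rw [h2]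
    apply h1.mono
    rw [uIcc_of_le ha.2.le]
    exact Ioo_subset_Icc_self
  exact Measure.eqOn_open_of_ae_eq hae2 isOpen_Ioo ((UU_cont h.cont).mono hsub) hc ⟨har, hr.2⟩

/-- The data from a solution. -/
lemma exists_dat {lam : ℝ} (h : IsSol d lam u G) : ∃ G' : E d → E d, G =ᵐ[mB d] G' ∧
    (∃ φ, Dat d u G' φ) ∧ MemLp G' (d + 2 : ℕ) (mB d) := by
  obtain ⟨φ, hT, h1, h2⟩ := h.mem
  have hG := h.meas
  have hval : ∀ x ∈ BB d, u x = Ut d u ‖x‖ := by
    intro x hx
    rw [UU_eq h hx, Ut, indicator_of_mem]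
    rw [BB, mem_ball_zero_iff] at hx
    exact ⟨by linarith [norm_nonneg x], hx⟩
  have hum : AEStronglyMeasurable u (mB d) :=
    h.cont.aestronglyMeasurable (show MeasurableSet (BB d) from measurableSet_ball)
  refine ⟨hG.mk G, hG.ae_eq_mk, ⟨φ, h.cont, hval, hG.stronglyMeasurable_mk, hT, ?_, ?_⟩, ?_⟩
  · have h3 := L1_of_Ln (fun j => ((hT j).1.continuous.aestronglyMeasurable).sub hum) h1
    refine h3.congr fun j => ?_
    apply setLIntegral_congr_fun (show MeasurableSet (BB d) from measurableSet_ball)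
    intro x hx
    simp only [Pi.sub_apply]
    rw [← hval x hx]
  · have h3 := L1_of_Ln (fun j => ((grad_cont (hT j)).aestronglyMeasurable).sub hG) h2
    refine h3.congr fun j => ?_
    apply lintegral_congr_ae
    filter_upwards [hG.ae_eq_mk] with x hx
    simp only [Pi.sub_apply]
    rw [hx]
  · have hlt := (h2.eventually (gt_mem_nhds one_pos)).exists
    obtain ⟨j, hj⟩ := hlt
    have m1 : MemLp (fun x => gradient (φ j) x - G x) (d + 2 : ℕ) (mB d) :=
      ⟨((grad_cont (hT j)).aestronglyMeasurable).sub hG, lt_trans hj ENNReal.one_lt_top⟩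
    obtain ⟨C, hC⟩ := grad_bound (hT j)
    have m2 : MemLp (gradient (φ j)) (d + 2 : ℕ) (mB d) :=
      MemLp.of_bound (grad_cont (hT j)).aestronglyMeasurable C (ae_of_all _ hC)
    have m3 : MemLp G (d + 2 : ℕ) (mB d) := by
      refine (m2.sub m1).ae_eq (ae_of_all _ fun x => ?_)
      simp
    exact m3.ae_eq hG.ae_eq_mk

theorem exists_prof {lam : ℝ} (h : IsSol d lam u G) : ∃ w, Prof d u G w := by
  obtain ⟨G', hGG, ⟨φ, hD⟩, hLn⟩ := exists_dat h
  refine ⟨qm d G', qm_meas hD.meas, ?_, fun r hr => hD.w_ii hr, ?_, ?_⟩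
  · filter_upwards [hD.G_eq, hGG] with x hx hx2
    rw [hx2, hx]
  · intro x hx hx0
    have hn : 0 < ‖x‖ := norm_pos_iff.2 hx0
    have hx1 : ‖x‖ < 1 := by rwa [BB, mem_ball_zero_iff] at hx
    rw [UU_eq h hx, hD.U_eq ⟨hn, hx1⟩]
  · have h1 : IntegrableOn (fun x : E d => |qm d G' ‖x‖| ^ (d + 2)) (Metric.ball 0 1) volume := by
      have h2 := hLn.integrable_norm_pow (by omega)
      refine Integrable.congr h2 ?_
      have h0 : ∀ᵐ x : E d ∂(mB d), x ≠ 0 := by
        apply ae_restrict_of_ae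
        exact compl_mem_ae_iff.2 (measure_singleton 0)
      filter_upwards [hD.G_eq, h0] with x hx hx0
      have hn : 0 < ‖x‖ := norm_pos_iff.2 hx0
      rw [hx, norm_smul, Real.norm_eq_abs, abs_div, abs_of_pos hn]
      congr 1
      field_simp
    rw [integrableOn_fun_norm_addHaar volume (f := fun r : ℝ => |qm d G' r| ^ (d + 2)),
      finrank_euclideanSpace_fin] at h1
    exact h1

/-- The blow-up of the values at the origin. -/
lemma blow_zero {lam : ℕ → ℝ} {v : ℕ → E d → ℝ} {H : ℕ → E d → E d}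
    (hs : ∀ k, IsSol d (lam k) (v k) (H k)) (hb : Blowup d v) :
    Tendsto (fun k => v k 0) atTop atTop := by
  rw [tendsto_atTop]
  intro M
  filter_upwards [hb M] with k hk
  obtain ⟨x, hx, hM⟩ := hk
  obtain ⟨w, hw⟩ := exists_prof (hs k)
  have hS := to_Sol (hs k) hw
  refine hM.le.trans ?_
  by_cases hx0 : x = 0
  · rw [hx0]
  · have hn : 0 < ‖x‖ := norm_pos_iff.2 hx0
    have hx1 : ‖x‖ < 1 := by rwa [BB, mem_ball_zero_iff] at hx
    have h1 := hS.u_le (s := Real.log ‖x‖) (Real.log_neg hn hx1)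
    simp only [Real.exp_log hn] at h1
    rw [UU_eq (hs k) hx]
    exact h1

/-- Energy quantization and its sign. -/
theorem main (hd : 1 ≤ d) {lam : ℕ → ℝ} {v : ℕ → E d → ℝ} {H : ℕ → E d → E d}
    (hs : ∀ k, IsSol d (lam k) (v k) (H k)) (hb : Blowup d v) :
    Tendsto (fun k => energy d (H k)) atTop (𝓝 (threshold d)) ∧
      ∀ᶠ k in atTop, energy d (H k) < threshold d := by
  have h0 := blow_zero hs hb
  have hsp := sph_pos (d := d)
  have hlt : ∀ᶠ k in atTop, energy d (H k) < threshold d := by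
    filter_upwards [h0.eventually (eventually_lt d hd)] with k hk
    obtain ⟨w, hw⟩ := exists_prof (hs k)
    have h1 := hk _ _ _ _ _ (to_Sol (hs k) hw)
    rw [energy_eq (hs k) hw]
    unfold threshold
    rw [mul_comm]
    exact mul_lt_mul_of_pos_right h1 hsp
  refine ⟨?_, hlt⟩
  rw [Metric.tendsto_atTop']
  intro ε hε
  have h2 := h0.eventually (eventually_gt d hd (ε := ε / sph d) (by positivity))
  obtain ⟨N, hN⟩ := eventually_atTop.1 (h2.and hlt)
  refine ⟨N, fun k hk => ?_⟩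
  obtain ⟨h3, h4⟩ := hN k hk.le
  obtain ⟨w, hw⟩ := exists_prof (hs k)
  have h5 := h3 _ _ _ _ _ (to_Sol (hs k) hw)
  have h6 := mul_lt_mul_of_pos_right h5 hsp
  have e1 : energy d (H k) = (∫ t in (0:ℝ)..1, ee d (lam k) (v k) t) * sph d := by
    rw [energy_eq (hs k) hw]; ring
  rw [← e1] at h6
  have e2 : threshold d = ((d:ℝ) + 2) ^ (d + 1) * sph d := rfl
  have e3 : (((d:ℝ) + 2) ^ (d + 1) - ε / sph d) * sph d = threshold d - ε := by
    rw [e2]; field_simp
  rw [e3] at h6
  rw [Real.dist_eq, abs_lt]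
  constructor <;> linarith

end Pool.Agent.R217.NL
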