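import Mathlib

set_option autoImplicit false

open Filter Topology Set MeasureTheory
open scoped ENNReal InnerProductSpace

namespace Pool.Agent.R217.NL

/-- Euclidean `n`-space, `n = d + 2`. -/
abbrev E (d : ℕ) := EuclideanSpace ℝ (Fin (d + 2))

/-- The open unit ball. -/
def BB (d : ℕ) : Set (E d) := Metric.ball 0 1

/-- Test functions of the unit ball. -/
def IsTest (d : ℕ) (φ : E d → ℝ) : Prop :=
  ContDiff ℝ (⊤ : ℕ∞) φ ∧ HasCompactSupport φ ∧ tsupport φ ⊆ BB d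

/-- The `Lⁿ` norm on the unit ball. -/
noncomputable def LnB (d : ℕ) {F : Type*} [NormedAddCommGroup F] (f : E d → F) : ℝ≥0∞ :=
  eLpNorm f (d + 2 : ℕ) (volume.restrict (BB d))

/-- `u` lies in `W₀^{1,n}(B₁)` (the closure of the test functions) and `G` is its weak gradient. -/
def W0 (d : ℕ) (u : E d → ℝ) (G : E d → E d) : Prop :=
  ∃ φ : ℕ → E d → ℝ, (∀ j, IsTest d (φ j)) ∧
    Tendsto (fun j => LnB d (fun x => φ j x - u x)) atTop (𝓝 0) ∧
    Tendsto (fun j => LnB d (fun x => gradient (φ j) x - G x)) atTop (𝓝 0)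

/-- The nonlinearity `t^{n-1} exp(t^{n/(n-1)})`. -/
noncomputable def rhs (d : ℕ) (t : ℝ) : ℝ :=
  t ^ (d + 1) * Real.exp (t ^ (((d:ℝ) + 2) / ((d:ℝ) + 1)))

/-- The weak form of the equation `Δ_n u + λ u^{n-1} exp(u^{n/(n-1)}) = 0`. -/
def WeakEq (d : ℕ) (lam : ℝ) (u : E d → ℝ) (G : E d → E d) : Prop :=
  ∀ φ, IsTest d φ → ∫ x in BB d, ‖G x‖ ^ d * ⟪G x, gradient φ x⟫_ℝ =
    lam * ∫ x in BB d, rhs d (u x) * φ x

/-- Positive radially symmetric solutions. -/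
structure IsSol (d : ℕ) (lam : ℝ) (u : E d → ℝ) (G : E d → E d) : Prop where
  lam_pos : 0 < lam
  meas : AEStronglyMeasurable G (volume.restrict (BB d))
  cont : ContinuousOn u (BB d)
  mem : W0 d u G
  pos : ∀ x ∈ BB d, 0 < u x
  radial : ∀ x ∈ BB d, ∀ y ∈ BB d, ‖x‖ = ‖y‖ → u x = u y
  weak : WeakEq d lam u G

/-- The energy `∫ |∇u|^n`. -/
noncomputable def energy (d : ℕ) (G : E d → E d) : ℝ := ∫ x in BB d, ‖G x‖ ^ (d + 2)

/-- The threshold `n^{n-1} ω_{n-1}`. -/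
noncomputable def threshold (d : ℕ) : ℝ :=
  ((d:ℝ) + 2) ^ (d + 1) * (volume : Measure (E d)).toSphere.real univ

/-- Blow-up: `sup u_k → ∞`. -/
def Blowup (d : ℕ) (u : ℕ → E d → ℝ) : Prop :=
  ∀ M : ℝ, ∀ᶠ k in atTop, ∃ x ∈ BB d, M < u k x

end Pool.Agent.R217.NL
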