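import Mathlib

set_option autoImplicit false

open Filter Topology Set

namespace Pool.Agent.R217.NL

/-- `n' = n/(n-1)`, `n = d + 2`. -/
noncomputable def np (d : ℕ) : ℝ := ((d:ℝ) + 2) / ((d:ℝ) + 1)

/-- `q = n' - 1 = 1/(n-1)`. -/
noncomputable def qq (d : ℕ) : ℝ := 1 / ((d:ℝ) + 1)

/-- The density `λ e^{ns} u^{n-1} e^{u^{n'}}`. -/
noncomputable def PP (d : ℕ) (lam : ℝ) (u : ℝ → ℝ) (s : ℝ) : ℝ :=
  lam * Real.exp (((d:ℝ) + 2) * s) * u s ^ (d + 1) * Real.exp (u s ^ np d)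

/-- The approximate quotient `F/f`. -/
noncomputable def gg (d : ℕ) (x : ℝ) : ℝ := 1 / np d * x ^ (-qq d) * (1 - d * x ^ (-np d))

/-- The radial solution in the variable `s = log r`. -/
structure Sol (d : ℕ) (lam μ En : ℝ) (u m e : ℝ → ℝ) : Prop where
  hlam : 0 < lam
  upos : ∀ s < 0, 0 < u s
  mpos : ∀ s < 0, 0 < m s
  du : ∀ s < 0, HasDerivAt u (-(m s)) s
  dN : ∀ s < 0, HasDerivAt (fun s => m s ^ (d + 1)) (PP d lam u s) s
  de : ∀ s < 0, HasDerivAt e (m s ^ (d + 2)) s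
  lu : Tendsto u atBot (𝓝 μ)
  lm : Tendsto m atBot (𝓝 0)
  le : Tendsto e atBot (𝓝 0)
  ru : Tendsto u (𝓝[<] 0) (𝓝 0)
  re : Tendsto e (𝓝[<] 0) (𝓝 En)

lemma np_pos (d : ℕ) : 0 < np d := by unfold np; positivity

lemma qq_pos (d : ℕ) : 0 < qq d := by unfold qq; positivity

lemma np_eq (d : ℕ) : np d = 1 + qq d := by unfold np qq; field_simp; ring

lemma qq_le (d : ℕ) (hd : 1 ≤ d) : qq d ≤ 1 / 2 := by
  unfold qq
  have : (1:ℝ) ≤ d := by exact_mod_cast hd
  apply one_div_le_one_div_of_le (by norm_num)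
  linarith

lemma qq_mul (d : ℕ) : qq d * ((d:ℝ) + 1) = 1 := by unfold qq; field_simp

lemma np_mul (d : ℕ) : np d * ((d:ℝ) + 1) = d + 2 := by unfold np; field_simp

lemma mono_lim {F F' : ℝ → ℝ} {s1 L : ℝ} (hd : ∀ s ≤ s1, HasDerivAt F (F' s) s)
    (h0 : ∀ s ≤ s1, 0 ≤ F' s) (hl : Tendsto F atBot (𝓝 L)) : L ≤ F s1 := by
  have hm : MonotoneOn F (Iic s1) := by
    apply monotoneOn_of_deriv_nonneg (convex_Iic s1)
      (fun s hs => (hd s hs).continuousAt.continuousWithinAt)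
    · intro s hs
      rw [interior_Iic] at hs
      exact (hd s hs.le).differentiableAt.differentiableWithinAt
    · intro s hs
      rw [interior_Iic] at hs
      rw [(hd s hs.le).deriv]
      exact h0 s hs.le
  refine le_of_tendsto hl ?_
  filter_upwards [eventually_le_atBot s1] with s hs
  exact hm hs (mem_Iic.2 le_rfl) hs

/-- Comparison on the right part. -/
lemma mono_right {F F' : ℝ → ℝ} {s1 L : ℝ} (hs1 : s1 < 0)
    (hd : ∀ s, s1 ≤ s → s < 0 → HasDerivAt F (F' s) s)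
    (h0 : ∀ s, s1 ≤ s → s < 0 → 0 ≤ F' s) (hl : Tendsto F (𝓝[<] 0) (𝓝 L)) : F s1 ≤ L := by
  have hm : MonotoneOn F (Ico s1 0) := by
    apply monotoneOn_of_deriv_nonneg (convex_Ico s1 0)
      (fun s hs => (hd s hs.1 hs.2).continuousAt.continuousWithinAt)
    · intro s hs
      rw [interior_Ico] at hs
      exact (hd s hs.1.le hs.2).differentiableAt.differentiableWithinAt
    · intro s hs
      rw [interior_Ico] at hs
      rw [(hd s hs.1.le hs.2).deriv]
      exact h0 s hs.1.le hs.2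
  refine ge_of_tendsto hl ?_
  filter_upwards [Ico_mem_nhdsLT hs1] with s hs
  exact hm ⟨le_rfl, hs1⟩ hs hs.1

section

variable {d : ℕ} {lam μ En : ℝ} {u m e : ℝ → ℝ}

lemma Sol.PP_pos (h : Sol d lam μ En u m e) {s : ℝ} (hs : s < 0) : 0 < PP d lam u s := by
  unfold PP
  have := h.hlam
  have := h.upos s hs
  positivity

lemma Sol.dm (h : Sol d lam μ En u m e) {s : ℝ} (hs : s < 0) :
    HasDerivAt m (PP d lam u s / (((d:ℝ) + 1) * m s ^ d)) s := by
  have hm := h.mpos s hs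
  have h1 := (h.dN s hs).rpow_const (p := qq d) (Or.inl (by positivity))
  have h2 : (fun s => (m s ^ (d + 1)) ^ qq d) =ᶠ[𝓝 s] m := by
    filter_upwards [gt_mem_nhds hs] with t ht
    have hmt := h.mpos t ht
    rw [← Real.rpow_natCast, ← Real.rpow_mul hmt.le]
    push_cast
    rw [mul_comm, qq_mul, Real.rpow_one]
  have h3 := h1.congr_of_eventuallyEq h2.symm
  refine h3.congr_deriv ?_
  have h4 : (m s ^ (d + 1)) ^ (qq d - 1) = (m s ^ d)⁻¹ := by
    rw [← Real.rpow_natCast, ← Real.rpow_mul hm.le, ← Real.rpow_natCast (m s) d,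
      ← Real.rpow_neg hm.le]
    congr 1
    push_cast
    have := qq_mul d
    linarith
  rw [h4]
  unfold qq
  field_simp

lemma Sol.dmn (h : Sol d lam μ En u m e) {s : ℝ} (hs : s < 0) :
    HasDerivAt (fun s => m s ^ (d + 2)) (np d * m s * PP d lam u s) s := by
  have hm := h.mpos s hs
  refine ((h.dm hs).pow (d + 2)).congr_deriv ?_
  unfold np
  have : d + 2 - 1 = d + 1 := by omega
  rw [this]
  push_cast
  field_simp
  ring

lemma gg_deriv {x : ℝ} (hx : 0 < x) : HasDerivAt (gg d)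
    (1 / np d * (-qq d * x ^ (-np d) * (1 - d * x ^ (-np d)) + d * np d * (x ^ (-np d)) ^ 2)) x := by
  have h1 : HasDerivAt (fun x : ℝ => x ^ (-qq d)) (-qq d * x ^ (-qq d - 1)) x :=
    Real.hasDerivAt_rpow_const (Or.inl hx.ne')
  have h2 : HasDerivAt (fun x : ℝ => x ^ (-np d)) (-np d * x ^ (-np d - 1)) x :=
    Real.hasDerivAt_rpow_const (Or.inl hx.ne')
  have h3 := ((h1.const_mul (1 / np d)).mul ((h2.const_mul (d:ℝ)).const_sub 1))
  have e : gg d = (fun y : ℝ => 1 / np d * y ^ (-qq d)) * fun x : ℝ => 1 - (d:ℝ) * x ^ (-np d) := by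
    funext x; rfl
  rw [e]
  refine h3.congr_deriv ?_
  have e1 : x ^ (-qq d - 1) = x ^ (-np d) := by
    congr 1; rw [np_eq]; ring
  have e2 : x ^ (-qq d) * x ^ (-np d - 1) = (x ^ (-np d)) ^ 2 := by
    rw [← Real.rpow_add hx, ← Real.rpow_natCast, ← Real.rpow_mul hx.le]
    congr 1
    rw [np_eq]; push_cast; ring
  rw [e1]
  calc _ = 1 / np d * (-qq d * x ^ (-np d) * (1 - d * x ^ (-np d)) +
        d * np d * (x ^ (-qq d) * x ^ (-np d - 1))) := by ring
    _ = _ := by rw [e2]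

lemma Sol.dP (h : Sol d lam μ En u m e) {s : ℝ} (hs : s < 0) :
    HasDerivAt (PP d lam u) (PP d lam u s *
      (((d:ℝ) + 2) - m s * (((d:ℝ) + 1) / u s + np d * u s ^ qq d))) s := by
  have hu := h.upos s hs
  have h1 : HasDerivAt (fun s : ℝ => Real.exp (((d:ℝ) + 2) * s))
      (Real.exp (((d:ℝ) + 2) * s) * ((d:ℝ) + 2)) s := by
    have := ((hasDerivAt_id s).const_mul ((d:ℝ) + 2)).exp
    simpa using this
  have h2 := (h.du s hs).pow (d + 1)
  have h3 := ((h.du s hs).rpow_const (p := np d) (Or.inl hu.ne')).exp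
  have h4 := ((h1.const_mul lam).mul h2).mul h3
  have e : PP d lam u = (fun s : ℝ => lam * Real.exp (((d:ℝ) + 2) * s)) * (fun s => u s ^ (d + 1)) *
      fun s => Real.exp (u s ^ np d) := by
    funext s; rfl
  rw [e]
  refine h4.congr_deriv ?_
  have e1 : u s ^ (np d - 1) = u s ^ qq d := by congr 1; rw [np_eq]; ring
  rw [e1]
  simp only [Pi.mul_apply, Pi.pow_apply]
  have e2 : d + 1 - 1 = d := by omega
  rw [e2]
  push_cast
  have e3 : u s ^ (d + 1) = u s ^ d * u s := pow_succ _ _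
  rw [e3]
  field_simp
  ring

/-- The Pohozaev type quantity. -/
noncomputable def JJ (d : ℕ) (lam : ℝ) (u m : ℝ → ℝ) (s : ℝ) : ℝ :=
  1 / np d * m s ^ (d + 2) + gg d (u s) * PP d lam u s

lemma Sol.dJ (h : Sol d lam μ En u m e) {s : ℝ} (hs : s < 0) :
    HasDerivAt (JJ d lam u m) (PP d lam u s *
      (((d:ℝ) + 2) * gg d (u s) + (d:ℝ) * ((d:ℝ) - 1) * m s * (u s ^ (-np d)) ^ 2)) s := by
  have hu := h.upos s hs
  have hnp := np_pos d
  have h1 := (h.dmn hs).const_mul (1 / np d)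
  have h2 := ((gg_deriv (d := d) hu).comp s (h.du s hs)).mul (h.dP hs)
  have h3 := h1.add h2
  have e : JJ d lam u m = (fun s => 1 / np d * m s ^ (d + 2)) + (gg d ∘ u) * PP d lam u := by
    funext s; rfl
  rw [e]
  refine h3.congr_deriv ?_
  simp only [Function.comp_apply]
  obtain ⟨y, hy⟩ : ∃ y, y = u s ^ (-np d) := ⟨_, rfl⟩
  obtain ⟨P, hP⟩ : ∃ P, P = PP d lam u s := ⟨_, rfl⟩
  have e1 : u s ^ (-qq d) = y * u s := by
    rw [hy, ← Real.rpow_add_one hu.ne']
    congr 1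
    rw [np_eq]; ring
  have e2 : y * u s * u s ^ qq d = 1 := by
    rw [← e1, ← Real.rpow_add hu]; simp
  have e3 : gg d (u s) * (((d:ℝ) + 1) / u s + np d * u s ^ qq d) =
      1 / np d * (1 - d * y) * (((d:ℝ) + 1) * y + np d) := by
    unfold gg
    rw [← hy, e1]
    calc 1 / np d * (y * u s) * (1 - ↑d * y) * ((↑d + 1) / u s + np d * u s ^ qq d)
        = 1 / np d * (1 - ↑d * y) * ((↑d + 1) * y * (u s / u s) + np d * (y * u s * u s ^ qq d)) := by
          ring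
      _ = _ := by rw [e2, div_self hu.ne']; ring
  have e4 : (1 / np d * (-qq d * y * (1 - d * y) + d * np d * y ^ 2)) +
      1 / np d * (1 - d * y) * (((d:ℝ) + 1) * y + np d) = 1 - (d:ℝ) * ((d:ℝ) - 1) * y ^ 2 := by
    unfold qq np
    have hd1 : (d:ℝ) + 1 ≠ 0 := by positivity
    have hd2 : (d:ℝ) + 2 ≠ 0 := by positivity
    field_simp
    ring
  rw [← hy, ← hP]
  have e5 : 1 / np d * (np d * m s * P) = m s * P := by field_simp
  rw [e5]
  have e6 : gg d (u s) * (P * ((d:ℝ) + 2 - m s * (((d:ℝ) + 1) / u s + np d * u s ^ qq d))) =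
      P * (((d:ℝ) + 2) * gg d (u s)) -
        P * m s * (gg d (u s) * (((d:ℝ) + 1) / u s + np d * u s ^ qq d)) := by ring
  rw [e6, e3]
  linear_combination (-P * m s) * e4

end

end Pool.Agent.R217.NL
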