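import Pool.Agent.R217.NL.Ode1

set_option autoImplicit false

open Filter Topology Set

namespace Pool.Agent.R217.NL

section

variable {d : ℕ} {lam μ En : ℝ} {u m e : ℝ → ℝ}

lemma Sol.u_anti (h : Sol d lam μ En u m e) {s t : ℝ} (hst : s ≤ t) (ht : t < 0) : u t ≤ u s := by
  have hm : AntitoneOn u (Iic t) := by
    apply antitoneOn_of_deriv_nonpos (convex_Iic t)
      (fun r hr => (h.du r (lt_of_le_of_lt hr ht)).continuousAt.continuousWithinAt)
    · intro r hr
      rw [interior_Iic] at hr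
      exact (h.du r (lt_trans hr ht)).differentiableAt.differentiableWithinAt
    · intro r hr
      rw [interior_Iic] at hr
      rw [(h.du r (lt_trans hr ht)).deriv]
      have := h.mpos r (lt_trans hr ht)
      linarith
  exact hm (mem_Iic.2 hst) (mem_Iic.2 le_rfl) hst

lemma Sol.m_mono (h : Sol d lam μ En u m e) {s t : ℝ} (hst : s ≤ t) (ht : t < 0) : m s ≤ m t := by
  have hm : MonotoneOn m (Iic t) := by
    apply monotoneOn_of_deriv_nonneg (convex_Iic t)
      (fun r hr => (h.dm (lt_of_le_of_lt hr ht)).continuousAt.continuousWithinAt)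
    · intro r hr
      rw [interior_Iic] at hr
      exact (h.dm (lt_trans hr ht)).differentiableAt.differentiableWithinAt
    · intro r hr
      rw [interior_Iic] at hr
      rw [(h.dm (lt_trans hr ht)).deriv]
      have := h.mpos r (lt_trans hr ht)
      have := h.PP_pos (lt_trans hr ht)
      positivity
  exact hm (mem_Iic.2 hst) (mem_Iic.2 le_rfl) hst

lemma Sol.u_le (h : Sol d lam μ En u m e) {s : ℝ} (hs : s < 0) : u s ≤ μ := by
  refine ge_of_tendsto h.lu ?_
  filter_upwards [eventually_le_atBot s] with r hr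
  exact h.u_anti hr hs

lemma Sol.μpos (h : Sol d lam μ En u m e) : 0 < μ :=
  lt_of_lt_of_le (h.upos (-1) (by norm_num)) (h.u_le (by norm_num))

lemma Sol.e_nonneg (h : Sol d lam μ En u m e) {s : ℝ} (hs : s < 0) : 0 ≤ e s := by
  refine mono_lim (F := e) (F' := fun s => m s ^ (d + 2)) (fun r hr => h.de r (lt_of_le_of_lt hr hs))
    (fun r hr => ?_) h.le
  have := h.mpos r (lt_of_le_of_lt hr hs)
  positivity

/-- Every intermediate value is attained. -/
lemma Sol.exists_val (h : Sol d lam μ En u m e) {x : ℝ} (hx : 0 < x) (hx2 : x < μ) :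
    ∃ s < 0, u s = x := by
  have e1 : ∀ᶠ s in atBot, x < u s := h.lu.eventually (lt_mem_nhds hx2)
  have e2 : ∀ᶠ s in 𝓝[<] (0:ℝ), u s < x := h.ru.eventually (gt_mem_nhds hx)
  obtain ⟨s1, hs1, hs1'⟩ := (e1.and (eventually_lt_atBot (0:ℝ))).exists
  obtain ⟨s2, hs2, hs2'⟩ := (e2.and (Ioo_mem_nhdsLT (show (s1:ℝ) < 0 from hs1'))).exists
  have hc : ContinuousOn u (Icc s1 s2) := fun r hr =>
    (h.du r (lt_of_le_of_lt hr.2 hs2'.2)).continuousAt.continuousWithinAt
  obtain ⟨r, hr, hr2⟩ := intermediate_value_Icc' hs2'.1.le hc ⟨hs2.le, hs1.le⟩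
  exact ⟨r, lt_of_le_of_lt hr.2 hs2'.2, hr2⟩

lemma Sol.PP_lim (h : Sol d lam μ En u m e) : Tendsto (PP d lam u) atBot (𝓝 0) := by
  have hμ := h.μpos
  have h1 : Tendsto (fun s : ℝ => Real.exp (((d:ℝ) + 2) * s)) atBot (𝓝 0) := by
    apply Real.tendsto_exp_atBot.comp
    exact tendsto_id.const_mul_atBot (by positivity)
  have h2 := ((h1.const_mul lam).mul (h.lu.pow (d + 1))).mul
    (Real.continuous_exp.tendsto _ |>.comp (h.lu.rpow_const (p := np d) (Or.inl hμ.ne')))
  simp only [mul_zero, zero_mul] at h2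
  exact h2

lemma Sol.N_lim (h : Sol d lam μ En u m e) : Tendsto (fun s => m s ^ (d + 1)) atBot (𝓝 0) := by
  simpa using h.lm.pow (d + 1)

lemma Sol.J_lim (h : Sol d lam μ En u m e) : Tendsto (JJ d lam u m) atBot (𝓝 0) := by
  have hμ := h.μpos
  have h1 : Tendsto (fun s => m s ^ (d + 2)) atBot (𝓝 0) := by simpa using h.lm.pow (d + 2)
  have h2 : Tendsto (fun s => gg d (u s)) atBot (𝓝 (gg d μ)) :=
    ((gg_deriv (d := d) hμ).continuousAt.tendsto).comp h.lu
  have h3 := (h1.const_mul (1 / np d)).add (h2.mul h.PP_lim)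
  simp only [mul_zero, add_zero] at h3
  exact h3

lemma Sol.W_lim (h : Sol d lam μ En u m e) :
    Tendsto (fun s => u s * m s ^ (d + 1) + e s) atBot (𝓝 0) := by
  have := (h.lu.mul h.N_lim).add h.le
  simpa using this

lemma Sol.dW (h : Sol d lam μ En u m e) {s : ℝ} (hs : s < 0) :
    HasDerivAt (fun s => u s * m s ^ (d + 1) + e s) (u s * PP d lam u s) s := by
  refine (((h.du s hs).mul (h.dN s hs)).add (h.de s hs)).congr_deriv ?_
  ring

lemma y_anti {x x' : ℝ} (hx : 0 < x) (hxx : x ≤ x') : x' ^ (-np d) ≤ x ^ (-np d) :=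
  Real.rpow_le_rpow_of_nonpos hx hxx (by have := np_pos d; linarith)

lemma gg_anti {x x' : ℝ} (hx : 0 < x) (hy : (d:ℝ) * (d + 3) * x ^ (-np d) ≤ 1) (hxx : x ≤ x') :
    gg d x' ≤ gg d x := by
  have hm : AntitoneOn (gg d) (Ici x) := by
    apply antitoneOn_of_deriv_nonpos (convex_Ici x)
      (fun r hr => (gg_deriv (d := d) (lt_of_lt_of_le hx hr)).continuousAt.continuousWithinAt)
    · intro r hr
      rw [interior_Ici] at hr
      exact (gg_deriv (d := d) (lt_trans hx hr)).differentiableAt.differentiableWithinAt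
    · intro r hr
      rw [interior_Ici] at hr
      have hr0 : 0 < r := lt_trans hx hr
      rw [(gg_deriv (d := d) hr0).deriv]
      have h1 : r ^ (-np d) ≤ x ^ (-np d) := y_anti hx (le_of_lt hr)
      have h2 : 0 < r ^ (-np d) := by positivity
      have h3 : (d:ℝ) * (d + 3) * r ^ (-np d) ≤ 1 := by
        refine le_trans ?_ hy
        gcongr
      have hnp := np_pos d
      have e : 1 / np d * (-qq d * r ^ (-np d) * (1 - d * r ^ (-np d)) +
          d * np d * (r ^ (-np d)) ^ 2) = 1 / np d * r ^ (-np d) * qq d *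
            ((d:ℝ) * (d + 3) * r ^ (-np d) - 1) := by
        unfold np qq
        field_simp
        ring
      rw [e]
      apply mul_nonpos_of_nonneg_of_nonpos
      · have := qq_pos d
        positivity
      · linarith
  exact hm (mem_Ici.2 le_rfl) (mem_Ici.2 hxx) hxx

lemma gg_pos (hd : 1 ≤ d) {x : ℝ} (hx : 0 < x) (hy : (d:ℝ) * (d + 3) * x ^ (-np d) ≤ 1) :
    0 < gg d x := by
  have hd' : (1:ℝ) ≤ d := by exact_mod_cast hd
  unfold gg
  have h2 : 0 < x ^ (-np d) := by positivity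
  have h3 : (d:ℝ) * x ^ (-np d) * 4 ≤ (d:ℝ) * (d + 3) * x ^ (-np d) := by
    nlinarith [mul_pos (show (0:ℝ) < d by linarith) h2]
  have h4 : 0 < 1 - (d:ℝ) * x ^ (-np d) := by linarith
  have := np_pos d
  positivity

lemma gg_le {x : ℝ} (hx : 0 < x) : gg d x ≤ 1 / np d * x ^ (-qq d) := by
  unfold gg
  have h2 : 0 < x ^ (-np d) := by positivity
  have h3 : 0 < x ^ (-qq d) := by positivity
  have := np_pos d
  have h4 : 1 - (d:ℝ) * x ^ (-np d) ≤ 1 := by
    have : 0 ≤ (d:ℝ) * x ^ (-np d) := by positivity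
    linarith
  calc _ ≤ 1 / np d * x ^ (-qq d) * 1 := by gcongr
    _ = _ := by ring

/-- Upper bound for the Pohozaev quantity. -/
lemma Sol.J_le (h : Sol d lam μ En u m e) (hd : 1 ≤ d) {s : ℝ} (hs : s < 0)
    (hy : (d:ℝ) * (d + 3) * u s ^ (-np d) ≤ 1) :
    JJ d lam u m s ≤ (((d:ℝ) + 2) * gg d (u s) +
      (d:ℝ) * ((d:ℝ) - 1) * m s * (u s ^ (-np d)) ^ 2) * m s ^ (d + 1) := by
  have hd' : (1:ℝ) ≤ d := by exact_mod_cast hd
  obtain ⟨c, hc⟩ : ∃ c, c = ((d:ℝ) + 2) * gg d (u s) +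
      (d:ℝ) * ((d:ℝ) - 1) * m s * (u s ^ (-np d)) ^ 2 := ⟨_, rfl⟩
  rw [← hc]
  have h1 := mono_lim (F := fun r => c * m r ^ (d + 1) - JJ d lam u m r)
    (F' := fun r => c * PP d lam u r - PP d lam u r * (((d:ℝ) + 2) * gg d (u r) +
      (d:ℝ) * ((d:ℝ) - 1) * m r * (u r ^ (-np d)) ^ 2)) (s1 := s)
    (fun r hr => ((h.dN r (lt_of_le_of_lt hr hs)).const_mul c).sub
      (h.dJ (lt_of_le_of_lt hr hs))) (fun r hr => ?_)
    ((h.N_lim.const_mul c).sub h.J_lim)
  · simp only [mul_zero, sub_zero] at h1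
    linarith
  · have hr0 := lt_of_le_of_lt hr hs
    have hP := h.PP_pos hr0
    have hu := h.upos s hs
    have hur := h.upos r hr0
    have hmr := h.mpos r hr0
    have hms := h.mpos s hs
    have k1 := gg_anti (d := d) hu hy (h.u_anti hr hs)
    have k2 := h.m_mono hr hs
    have k3 : u r ^ (-np d) ≤ u s ^ (-np d) := y_anti hu (h.u_anti hr hs)
    have k4 : 0 < u r ^ (-np d) := by positivity
    have k5 : ((d:ℝ) + 2) * gg d (u r) + (d:ℝ) * ((d:ℝ) - 1) * m r * (u r ^ (-np d)) ^ 2 ≤ c := by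
      rw [hc]
      have : 0 ≤ (d:ℝ) - 1 := by linarith
      gcongr
    have := mul_le_mul_of_nonneg_left k5 hP.le
    linarith

/-- Lower bound for the Pohozaev quantity. -/
lemma Sol.J_ge (h : Sol d lam μ En u m e) (hd : 1 ≤ d) {s : ℝ} (hs : s < 0)
    (hy : (d:ℝ) * (d + 3) * u s ^ (-np d) ≤ 1) :
    ((d:ℝ) + 2) * gg d μ * m s ^ (d + 1) ≤ JJ d lam u m s := by
  have hd' : (1:ℝ) ≤ d := by exact_mod_cast hd
  have h1 := mono_lim (F := fun r => JJ d lam u m r - ((d:ℝ) + 2) * gg d μ * m r ^ (d + 1))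
    (F' := fun r => PP d lam u r * (((d:ℝ) + 2) * gg d (u r) +
      (d:ℝ) * ((d:ℝ) - 1) * m r * (u r ^ (-np d)) ^ 2) -
        ((d:ℝ) + 2) * gg d μ * PP d lam u r) (s1 := s)
    (fun r hr => (h.dJ (lt_of_le_of_lt hr hs)).sub
      ((h.dN r (lt_of_le_of_lt hr hs)).const_mul _)) (fun r hr => ?_)
    (h.J_lim.sub (h.N_lim.const_mul _))
  · simp only [mul_zero, sub_zero] at h1
    linarith
  · have hr0 := lt_of_le_of_lt hr hs
    have hP := h.PP_pos hr0
    have hu := h.upos s hs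
    have hur := h.upos r hr0
    have hmr := h.mpos r hr0
    have hyr : (d:ℝ) * (d + 3) * u r ^ (-np d) ≤ 1 := by
      refine le_trans ?_ hy
      have : u r ^ (-np d) ≤ u s ^ (-np d) := y_anti hu (h.u_anti hr hs)
      gcongr
    have k1 := gg_anti (d := d) hur hyr (h.u_le hr0)
    have k4 : 0 ≤ (d:ℝ) * ((d:ℝ) - 1) * m r * (u r ^ (-np d)) ^ 2 := by
      have : 0 ≤ (d:ℝ) - 1 := by linarith
      positivity
    have k5 : ((d:ℝ) + 2) * gg d μ ≤ ((d:ℝ) + 2) * gg d (u r) +
        (d:ℝ) * ((d:ℝ) - 1) * m r * (u r ^ (-np d)) ^ 2 := by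
      have : ((d:ℝ) + 2) * gg d μ ≤ ((d:ℝ) + 2) * gg d (u r) := by gcongr
      linarith
    have := mul_le_mul_of_nonneg_left k5 hP.le
    linarith

/-- The number `m*`. -/
noncomputable def mst (d : ℕ) (μ : ℝ) : ℝ := np d * (((d:ℝ) + 2) * gg d μ)

lemma small_coef (hd : 1 ≤ d) {y : ℝ} (hy0 : 0 ≤ y) (hy : (d:ℝ) * (d + 3) * y ≤ 1) :
    (d:ℝ) * ((d:ℝ) - 1) * y ^ 2 ≤ 1 / 16 := by
  have hd' : (1:ℝ) ≤ d := by exact_mod_cast hd
  have h1 : ((d:ℝ) * (d + 3) * y) ^ 2 ≤ 1 := by
    have : 0 ≤ (d:ℝ) * (d + 3) * y := by positivity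
    nlinarith
  have h2 : 16 * ((d:ℝ) * ((d:ℝ) - 1)) ≤ ((d:ℝ) * (d + 3)) ^ 2 := by nlinarith [sq_nonneg ((d:ℝ))]
  have h3 : 16 * ((d:ℝ) * ((d:ℝ) - 1)) * y ^ 2 ≤ ((d:ℝ) * (d + 3)) ^ 2 * y ^ 2 := by gcongr
  nlinarith

/-- Crude bounds. -/
lemma Sol.crude (h : Sol d lam μ En u m e) (hd : 1 ≤ d) {s : ℝ} (hs : s < 0)
    (hy : (d:ℝ) * (d + 3) * u s ^ (-np d) ≤ 1) :
    m s ≤ 2 * (d + 2) * gg d (u s) ∧ PP d lam u s ≤ 2 * (d + 2) * m s ^ (d + 1) := by
  have hd' : (1:ℝ) ≤ d := by exact_mod_cast hd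
  have hu := h.upos s hs
  have hm := h.mpos s hs
  have hP := h.PP_pos hs
  have hg := gg_pos hd hu hy
  have hJ := h.J_le hd hs hy
  have hc := small_coef hd (show 0 ≤ u s ^ (-np d) by positivity) hy
  obtain ⟨κ, hκ⟩ : ∃ κ, κ = (d:ℝ) * ((d:ℝ) - 1) * (u s ^ (-np d)) ^ 2 := ⟨_, rfl⟩
  rw [← hκ] at hc
  have e1 : (d:ℝ) * ((d:ℝ) - 1) * m s * (u s ^ (-np d)) ^ 2 = κ * m s := by rw [hκ]; ring
  rw [e1] at hJ
  unfold JJ at hJ
  have hN : 0 < m s ^ (d + 1) := by positivity
  have e2 : m s ^ (d + 2) = m s * m s ^ (d + 1) := by ring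
  rw [e2] at hJ
  have hnp : 2 / 3 ≤ 1 / np d := by
    unfold np
    rw [one_div_div, div_le_div_iff₀ (by norm_num) (by positivity)]
    linarith
  have h1 : (1 / np d * m s) * m s ^ (d + 1) ≤
      (((d:ℝ) + 2) * gg d (u s) + κ * m s) * m s ^ (d + 1) := by
    have : 0 < gg d (u s) * PP d lam u s := mul_pos hg hP
    linarith
  have h2 := le_of_mul_le_mul_right h1 hN
  have h3 : 2 / 3 * m s ≤ 1 / np d * m s := by gcongr
  have h4 : κ * m s ≤ 1 / 16 * m s := by gcongr
  have h5 : m s ≤ 2 * (d + 2) * gg d (u s) := by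
    have : 0 < ((d:ℝ) + 2) * gg d (u s) := by positivity
    linarith
  refine ⟨h5, ?_⟩
  have h6 : gg d (u s) * PP d lam u s ≤ gg d (u s) * (2 * (d + 2) * m s ^ (d + 1)) := by
    have h7 : 0 ≤ 1 / np d * (m s * m s ^ (d + 1)) := by
      have := np_pos d
      positivity
    have h8 : κ * m s ≤ 1 / 8 * (((d:ℝ) + 2) * gg d (u s)) := by linarith
    have h9 : (((d:ℝ) + 2) * gg d (u s) + κ * m s) * m s ^ (d + 1) ≤
        (2 * (((d:ℝ) + 2) * gg d (u s))) * m s ^ (d + 1) := by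
      gcongr
      have : 0 < ((d:ℝ) + 2) * gg d (u s) := by positivity
      linarith
    linarith
  exact le_of_mul_le_mul_left h6 hg

/-- Lower bound for `m`. -/
lemma Sol.m_lower (h : Sol d lam μ En u m e) (hd : 1 ≤ d) {s : ℝ} (hs : s < 0)
    (hy : (d:ℝ) * (d + 3) * u s ^ (-np d) ≤ 1) :
    mst d μ * (1 - Real.exp (-((μ ^ np d - u s ^ np d) / (d + 2)))) ≤ m s := by
  have hd' : (1:ℝ) ≤ d := by exact_mod_cast hd
  have hμ := h.μpos
  have hnp := np_pos d
  obtain ⟨H, hH⟩ : ∃ H : ℝ → ℝ, ∀ r, H r = (μ ^ np d - u r ^ np d) / (d + 2) := ⟨_, fun r => rfl⟩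
  have hHd : ∀ r < 0, HasDerivAt H (np d * u r ^ qq d * m r / (d + 2)) r := by
    intro r hr
    have hur := h.upos r hr
    have h1 := (((h.du r hr).rpow_const (p := np d) (Or.inl hur.ne')).const_sub
      (μ ^ np d)).div_const ((d:ℝ) + 2)
    have e : H = fun r => (μ ^ np d - u r ^ np d) / (d + 2) := by funext r; exact hH r
    rw [e]
    refine h1.congr_deriv ?_
    have e1 : u r ^ (np d - 1) = u r ^ qq d := by congr 1; rw [np_eq]; ring
    rw [e1]
    ring
  have h1 := mono_lim (F := fun r => -((mst d μ - m r) * Real.exp (H r)))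
    (F' := fun r => -(-(PP d lam u r / (((d:ℝ) + 1) * m r ^ d)) * Real.exp (H r) +
      (mst d μ - m r) * (Real.exp (H r) * (np d * u r ^ qq d * m r / (d + 2))))) (s1 := s)
    (L := -(mst d μ))
    (fun r hr => ?_) (fun r hr => ?_) ?_
  · rw [hH] at h1
    rw [Real.exp_neg]
    have hE : 0 < Real.exp ((μ ^ np d - u s ^ np d) / (d + 2)) := Real.exp_pos _
    have h2 : (mst d μ - m s) * Real.exp ((μ ^ np d - u s ^ np d) / (d + 2)) ≤ mst d μ := by
      linarith
    have h3 : mst d μ - m s ≤ mst d μ * (Real.exp ((μ ^ np d - u s ^ np d) / (d + 2)))⁻¹ := by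
      rw [← div_eq_mul_inv, le_div_iff₀ hE]
      exact h2
    linarith
  · have hr0 := lt_of_le_of_lt hr hs
    have k1 : HasDerivAt (fun r => mst d μ - m r) (-(PP d lam u r / (((d:ℝ) + 1) * m r ^ d))) r :=
      (h.dm hr0).const_sub _
    exact (k1.mul (hHd r hr0).exp).neg
  · have hr0 := lt_of_le_of_lt hr hs
    have hP := h.PP_pos hr0
    have hu := h.upos s hs
    have hur := h.upos r hr0
    have hmr := h.mpos r hr0
    have hyr : (d:ℝ) * (d + 3) * u r ^ (-np d) ≤ 1 := by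
      refine le_trans ?_ hy
      have : u r ^ (-np d) ≤ u s ^ (-np d) := y_anti hu (h.u_anti hr hs)
      gcongr
    have hE : 0 < Real.exp (H r) := Real.exp_pos _
    have hq : 0 < u r ^ qq d := by positivity
    have key : (mst d μ - m r) * (np d * u r ^ qq d * m r / (d + 2)) ≤
        PP d lam u r / (((d:ℝ) + 1) * m r ^ d) := by
      rcases le_or_gt (mst d μ) (m r) with hc | hc
      · have k1 : (mst d μ - m r) * (np d * u r ^ qq d * m r / (d + 2)) ≤ 0 := by
          apply mul_nonpos_of_nonpos_of_nonneg (by linarith)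
          positivity
        have k2 : 0 ≤ PP d lam u r / (((d:ℝ) + 1) * m r ^ d) := by positivity
        linarith
      · have k1 := h.J_ge hd hr0 hyr
        have hg := gg_pos hd hur hyr
        have k2 : m r ^ (d + 1) * (mst d μ - m r) ≤ np d * (gg d (u r) * PP d lam u r) := by
          unfold JJ at k1
          have k3 := mul_le_mul_of_nonneg_left k1 hnp.le
          have k4 : np d * (1 / np d * m r ^ (d + 2) + gg d (u r) * PP d lam u r) =
              m r ^ (d + 2) + np d * (gg d (u r) * PP d lam u r) := by field_simp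
          rw [k4] at k3
          unfold mst
          have k5 : m r ^ (d + 2) = m r ^ (d + 1) * m r := by ring
          rw [k5] at k3
          linarith
        have k3 := gg_le (d := d) hur
        have k4 : u r ^ (-qq d) * u r ^ qq d = 1 := by
          rw [← Real.rpow_add hur]; simp
        have k5 : gg d (u r) * u r ^ qq d * np d ≤ 1 := by
          calc gg d (u r) * u r ^ qq d * np d ≤ (1 / np d * u r ^ (-qq d)) * u r ^ qq d * np d := by
                gcongr
            _ = (u r ^ (-qq d) * u r ^ qq d) * (1 / np d * np d) := by ring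
            _ = 1 := by rw [k4, one_div_mul_cancel hnp.ne', one_mul]
        rw [le_div_iff₀ (by positivity)]
        have k6 : np d * ((d:ℝ) + 1) = d + 2 := np_mul d
        have k7 : (mst d μ - m r) * (np d * u r ^ qq d * m r / (d + 2)) * (((d:ℝ) + 1) * m r ^ d) =
            u r ^ qq d * (m r ^ (d + 1) * (mst d μ - m r)) * (np d * ((d:ℝ) + 1) / (d + 2)) := by
          ring
        rw [k7, k6, div_self (by positivity), mul_one]
        calc u r ^ qq d * (m r ^ (d + 1) * (mst d μ - m r))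
            ≤ u r ^ qq d * (np d * (gg d (u r) * PP d lam u r)) := by gcongr
          _ = (gg d (u r) * u r ^ qq d * np d) * PP d lam u r := by ring
          _ ≤ 1 * PP d lam u r := by gcongr
          _ = _ := one_mul _
    have := mul_le_mul_of_nonneg_left key hE.le
    linarith
  · have k1 : Tendsto H atBot (𝓝 0) := by
      have e : H = fun r => (μ ^ np d - u r ^ np d) / (d + 2) := by funext r; exact hH r
      rw [e]
      have := ((h.lu.rpow_const (p := np d) (Or.inl hμ.ne')).const_sub (μ ^ np d)).div_const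
        ((d:ℝ) + 2)
      simpa using this
    have k2 : Tendsto (fun r => Real.exp (H r)) atBot (𝓝 1) := by
      have := (Real.continuous_exp.tendsto 0).comp k1
      rw [Real.exp_zero] at this
      exact this
    have k3 := ((h.lm.const_sub (mst d μ)).mul k2).neg
    simpa using k3

end

end Pool.Agent.R217.NL
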