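import Pool.Agent.R217.NL.Ode2

set_option autoImplicit false

open Filter Topology Set

namespace Pool.Agent.R217.NL

section

variable {d : ℕ} {lam μ En : ℝ} {u m e : ℝ → ℝ}

lemma gg_tangent (hd : 1 ≤ d) {x μ : ℝ} (hx : 0 < x) (hxμ : x ≤ μ) (hμ2 : μ / 2 ≤ x)
    (hy : (d:ℝ) * (d + 3) * μ ^ (-np d) ≤ 1) {a : ℝ} (ha : μ - x ≤ a) :
    gg d x ≤ gg d μ * (1 + 2 * qq d * (a / μ) ^ 2) + gg d μ * (qq d / μ) * (μ - x) := by
  have hμ : 0 < μ := lt_of_lt_of_le hx hxμ
  have hq := qq_pos d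
  have hq1 := qq_le d hd
  have hnp := np_pos d
  have hg := gg_pos hd hμ hy
  have h1 : gg d x ≤ gg d μ * (μ / x) ^ qq d := by
    have e1 : gg d μ * (μ / x) ^ qq d = 1 / np d * x ^ (-qq d) * (1 - d * μ ^ (-np d)) := by
      unfold gg
      rw [Real.div_rpow hμ.le hx.le, Real.rpow_neg hμ.le, Real.rpow_neg hx.le]
      have : 0 < μ ^ qq d := by positivity
      field_simp
    rw [e1]
    unfold gg
    have k1 : μ ^ (-np d) ≤ x ^ (-np d) := y_anti hx hxμ
    have k2 : 0 < x ^ (-qq d) := by positivity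
    gcongr
  have h2 : (μ / x) ^ qq d ≤ 1 + qq d * ((μ - x) / x) := by
    have e1 : μ / x = 1 + (μ - x) / x := by field_simp; ring
    rw [e1]
    apply rpow_one_add_le_one_add_mul_self _ hq.le (by linarith)
    have : 0 ≤ (μ - x) / x := div_nonneg (by linarith) hx.le
    linarith
  have h3 : (μ - x) / x ≤ (μ - x) / μ + 2 * (a / μ) ^ 2 := by
    have e1 : (μ - x) / x = (μ - x) / μ + (μ - x) ^ 2 / (μ * x) := by field_simp; ring
    rw [e1]
    have k1 : (μ - x) ^ 2 / (μ * x) ≤ 2 * (a / μ) ^ 2 := by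
      have k2 : (μ - x) ^ 2 ≤ a ^ 2 := pow_le_pow_left₀ (by linarith) ha 2
      have k3 : 2 * (a / μ) ^ 2 = a ^ 2 / (μ * (μ / 2)) := by field_simp
      rw [k3]
      apply div_le_div₀ (by positivity) k2 (by positivity)
      gcongr
    linarith
  calc gg d x ≤ gg d μ * (μ / x) ^ qq d := h1
    _ ≤ gg d μ * (1 + qq d * ((μ - x) / x)) := by gcongr
    _ ≤ gg d μ * (1 + qq d * ((μ - x) / μ + 2 * (a / μ) ^ 2)) := by gcongr
    _ = _ := by ring

/-- The inner estimate. -/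
lemma Sol.W_le (h : Sol d lam μ En u m e) (hd : 1 ≤ d) {s : ℝ} (hs : s < 0)
    (hy : (d:ℝ) * (d + 3) * u s ^ (-np d) ≤ 1) (hμ2 : μ / 2 ≤ u s) :
    u s * m s ^ (d + 1) + e s ≤ mst d μ ^ (d + 1) * μ *
      Real.exp (2 * ((μ - u s) / μ) ^ 2 +
        2 * (d + 1) * (np d * ((d:ℝ) * ((d:ℝ) - 1) * (u s ^ (-np d)) ^ 2))) := by
  have hd' : (1:ℝ) ≤ d := by exact_mod_cast hd
  have hμ := h.μpos
  have hnp := np_pos d
  have hq := qq_pos d
  have hu := h.upos s hs
  have hm := h.mpos s hs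
  have hP := h.PP_pos hs
  have hyμ : (d:ℝ) * (d + 3) * μ ^ (-np d) ≤ 1 := by
    refine le_trans ?_ hy
    have : μ ^ (-np d) ≤ u s ^ (-np d) := y_anti hu (h.u_le hs)
    gcongr
  have hgμ := gg_pos hd hμ hyμ
  obtain ⟨τ, hτ⟩ : ∃ τ, τ = (μ - u s) / μ := ⟨_, rfl⟩
  obtain ⟨K1, hK1⟩ : ∃ K1, K1 = ((d:ℝ) + 2) * (gg d μ * (1 + 2 * qq d * τ ^ 2)) +
    (d:ℝ) * ((d:ℝ) - 1) * m s * (u s ^ (-np d)) ^ 2 := ⟨_, rfl⟩
  obtain ⟨K2, hK2⟩ : ∃ K2, K2 = ((d:ℝ) + 2) * (gg d μ * (qq d / μ)) := ⟨_, rfl⟩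
  have h1 := mono_lim (F := fun r => K1 * m r ^ (d + 1) +
      K2 * (μ * m r ^ (d + 1) - (u r * m r ^ (d + 1) + e r)) - JJ d lam u m r)
    (F' := fun r => K1 * PP d lam u r + K2 * (μ * PP d lam u r - u r * PP d lam u r) -
      PP d lam u r * (((d:ℝ) + 2) * gg d (u r) +
      (d:ℝ) * ((d:ℝ) - 1) * m r * (u r ^ (-np d)) ^ 2)) (s1 := s)
    (fun r hr => ?_) (fun r hr => ?_)
    (((h.N_lim.const_mul K1).add (((h.N_lim.const_mul μ).sub h.W_lim).const_mul K2)).sub h.J_lim)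
  rotate_left
  · have hr0 := lt_of_le_of_lt hr hs
    exact (((h.dN r hr0).const_mul K1).add ((((h.dN r hr0).const_mul μ).sub (h.dW hr0)).const_mul
      K2)).sub (h.dJ hr0)
  · have hr0 := lt_of_le_of_lt hr hs
    have hPr := h.PP_pos hr0
    have hur := h.upos r hr0
    have hmr := h.mpos r hr0
    have k2 := h.m_mono hr hs
    have k3 : u r ^ (-np d) ≤ u s ^ (-np d) := y_anti hu (h.u_anti hr hs)
    have k4 : 0 < u r ^ (-np d) := by positivity
    have k6 := h.u_anti hr hs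
    have k1 := gg_tangent hd hur (h.u_le hr0) (hμ2.trans k6) hyμ
      (show μ - u r ≤ μ - u s by linarith)
    rw [← hτ] at k1
    have k5 : (d:ℝ) * ((d:ℝ) - 1) * m r * (u r ^ (-np d)) ^ 2 ≤
        (d:ℝ) * ((d:ℝ) - 1) * m s * (u s ^ (-np d)) ^ 2 := by
      have : 0 ≤ (d:ℝ) - 1 := by linarith
      gcongr
    have k7 : ((d:ℝ) + 2) * gg d (u r) + (d:ℝ) * ((d:ℝ) - 1) * m r * (u r ^ (-np d)) ^ 2 ≤
        K1 + K2 * (μ - u r) := by
      rw [hK1, hK2]
      have : ((d:ℝ) + 2) * gg d (u r) ≤ ((d:ℝ) + 2) * (gg d μ * (1 + 2 * qq d * τ ^ 2) +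
        gg d μ * (qq d / μ) * (μ - u r)) := by gcongr
      linarith
    have := mul_le_mul_of_nonneg_left k7 hPr.le
    linarith
  simp only [mul_zero, sub_zero, add_zero] at h1
  obtain ⟨W, hW⟩ : ∃ W, W = u s * m s ^ (d + 1) + e s := ⟨_, rfl⟩
  obtain ⟨N, hN⟩ : ∃ N, N = m s ^ (d + 1) := ⟨_, rfl⟩
  have hN0 : 0 < N := by rw [hN]; positivity
  rw [← hW, ← hN] at h1
  have hg := gg_pos hd hu hy
  have hJ : 1 / np d * (m s * N) ≤ JJ d lam u m s := by
    unfold JJ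
    have : 0 < gg d (u s) * PP d lam u s := mul_pos hg hP
    have e1 : m s ^ (d + 2) = m s * N := by rw [hN]; ring
    rw [e1]
    linarith
  obtain ⟨A, hA⟩ : ∃ A, A = μ - W / N := ⟨_, rfl⟩
  have hWN : W = N * (μ - A) := by rw [hA]; field_simp; ring
  have hW0 : 0 < W := by
    rw [hW]
    have := h.e_nonneg hs
    positivity
  rw [← hW]
  rw [← hτ]
  obtain ⟨κ, hκ⟩ : ∃ κ, κ = np d * ((d:ℝ) * ((d:ℝ) - 1) * (u s ^ (-np d)) ^ 2) := ⟨_, rfl⟩
  rw [← hκ]
  have hκ0 : 0 ≤ κ := by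
    rw [hκ]
    have : 0 ≤ (d:ℝ) - 1 := by linarith
    positivity
  have hκ1 : κ ≤ 1 / 2 := by
    have k1 := small_coef hd (show 0 ≤ u s ^ (-np d) by positivity) hy
    have k2 : np d ≤ 3 / 2 := by
      rw [np_eq]
      have := qq_le d hd
      linarith
    rw [hκ]
    have k3 : 0 ≤ (d:ℝ) * ((d:ℝ) - 1) * (u s ^ (-np d)) ^ 2 := by
      have : 0 ≤ (d:ℝ) - 1 := by linarith
      positivity
    nlinarith
  have h2 : 1 / np d * m s ≤ K1 + K2 * A := by
    have k1 : (1 / np d * m s) * N ≤ (K1 + K2 * A) * N := by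
      have : K1 * N + K2 * (μ * N - W) = (K1 + K2 * A) * N := by rw [hWN]; ring
      linarith
    exact le_of_mul_le_mul_right k1 hN0
  have h3 : m s * (1 - κ) ≤ mst d μ * (1 + (2 * qq d * τ ^ 2 + qq d * A / μ)) := by
    have k1 := mul_le_mul_of_nonneg_left h2 hnp.le
    have k2 : np d * (1 / np d * m s) = m s := by field_simp
    rw [k2] at k1
    have k3 : np d * (K1 + K2 * A) = mst d μ * (1 + (2 * qq d * τ ^ 2 + qq d * A / μ)) +
        κ * m s := by
      rw [hK1, hK2, hκ]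
      unfold mst
      ring
    rw [k3] at k1
    linarith
  have hmst : 0 < mst d μ := by unfold mst; positivity
  have h4 : m s ≤ mst d μ * Real.exp (2 * qq d * τ ^ 2 + qq d * A / μ + 2 * κ) := by
    have k1 : 1 + (2 * qq d * τ ^ 2 + qq d * A / μ) ≤
        Real.exp (2 * qq d * τ ^ 2 + qq d * A / μ) := by
      have := Real.add_one_le_exp (2 * qq d * τ ^ 2 + qq d * A / μ)
      linarith
    have k2 : 1 ≤ Real.exp (2 * κ) * (1 - κ) := by
      have k3 := Real.add_one_le_exp (2 * κ)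
      nlinarith
    have k4 : m s * (1 - κ) ≤ mst d μ * Real.exp (2 * qq d * τ ^ 2 + qq d * A / μ) :=
      h3.trans (by gcongr)
    calc m s = m s * 1 := (mul_one _).symm
      _ ≤ m s * (Real.exp (2 * κ) * (1 - κ)) := by gcongr
      _ = (m s * (1 - κ)) * Real.exp (2 * κ) := by ring
      _ ≤ (mst d μ * Real.exp (2 * qq d * τ ^ 2 + qq d * A / μ)) * Real.exp (2 * κ) := by gcongr
      _ = _ := by rw [mul_assoc, ← Real.exp_add]
  have h5 : N ≤ mst d μ ^ (d + 1) * Real.exp (2 * τ ^ 2 + A / μ + 2 * (d + 1) * κ) := by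
    rw [hN]
    calc m s ^ (d + 1) ≤ (mst d μ * Real.exp (2 * qq d * τ ^ 2 + qq d * A / μ + 2 * κ)) ^ (d + 1) := by
          gcongr
      _ = _ := by
          rw [mul_pow, ← Real.exp_nat_mul]
          congr 2
          push_cast
          have := qq_mul d
          linear_combination (2 * τ ^ 2 + A / μ) * this
  have h6 : μ - A ≤ μ * Real.exp (-(A / μ)) := by
    have k1 := Real.add_one_le_exp (-(A / μ))
    have k2 : μ * (-(A / μ) + 1) ≤ μ * Real.exp (-(A / μ)) := by gcongr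
    have k3 : μ * (-(A / μ) + 1) = μ - A := by field_simp; ring
    linarith
  have h7 : 0 < μ - A := by
    rw [hWN] at hW0
    exact (mul_pos_iff_of_pos_left hN0).1 hW0
  rw [hWN]
  calc N * (μ - A) ≤ (mst d μ ^ (d + 1) * Real.exp (2 * τ ^ 2 + A / μ + 2 * (d + 1) * κ)) *
        (μ * Real.exp (-(A / μ))) := by gcongr
    _ = mst d μ ^ (d + 1) * μ * (Real.exp (2 * τ ^ 2 + A / μ + 2 * (d + 1) * κ) *
        Real.exp (-(A / μ))) := by ring
    _ = _ := by rw [← Real.exp_add]; congr 2; ring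

/-- Lower bound for the energy. -/
lemma Sol.En_ge (h : Sol d lam μ En u m e) {s : ℝ} (hs : s < 0) :
    u s * m s ^ (d + 1) ≤ En := by
  have h1 := mono_right (F := fun r => e r + m s ^ (d + 1) * u r)
    (F' := fun r => m r ^ (d + 2) + m s ^ (d + 1) * (-(m r))) (L := En) hs
    (fun r _ hr2 => (h.de r hr2).add ((h.du r hr2).const_mul _))
    (fun r hr hr2 => by
      have k1 := h.m_mono hr hr2
      have k2 := h.mpos s hs
      have k3 := h.mpos r hr2
      have k4 : m s ^ (d + 1) ≤ m r ^ (d + 1) := by gcongr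
      have k5 : m r ^ (d + 2) = m r ^ (d + 1) * m r := by ring
      have k6 : m s ^ (d + 1) * m r ≤ m r ^ (d + 1) * m r := by gcongr
      linarith)
    (by
      have := h.re.add (h.ru.const_mul (m s ^ (d + 1)))
      simpa using this)
  have h2 := h.e_nonneg hs
  linarith

/-- The density in the outer region. -/
lemma Sol.PP_outer (h : Sol d lam μ En u m e) {s0 s : ℝ} (hs : s0 ≤ s) (hs0 : s < 0) :
    PP d lam u s ≤ PP d lam u s0 * (u s / u s0) ^ (d + 1) *
      Real.exp (((d:ℝ) + 2) * (u s0 - u s) / m s0 - u s0 ^ np d + u s ^ np d) := by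
  have hs00 := lt_of_le_of_lt hs hs0
  have hu0 := h.upos s0 hs00
  have hu := h.upos s hs0
  have hm0 := h.mpos s0 hs00
  have hl := h.hlam
  -- `s - s0 ≤ (u0 - u)/m0`
  have h1 : m s0 * (s - s0) ≤ u s0 - u s := by
    have hm : AntitoneOn (fun r => u r + m s0 * r) (Icc s0 s) := by
      have hdd : ∀ r ∈ Icc s0 s, HasDerivAt (fun r => u r + m s0 * r) (-(m r) + m s0 * 1) r :=
        fun r hr => (h.du r (lt_of_le_of_lt hr.2 hs0)).add ((hasDerivAt_id r).const_mul (m s0))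
      apply antitoneOn_of_deriv_nonpos (convex_Icc s0 s)
        (fun r hr => (hdd r hr).continuousAt.continuousWithinAt)
      · intro r hr
        rw [interior_Icc] at hr
        exact (hdd r ⟨hr.1.le, hr.2.le⟩).differentiableAt.differentiableWithinAt
      · intro r hr
        rw [interior_Icc] at hr
        rw [(hdd r ⟨hr.1.le, hr.2.le⟩).deriv]
        have := h.m_mono hr.1.le (lt_trans hr.2 hs0)
        linarith
    have := hm (left_mem_Icc.2 hs) (right_mem_Icc.2 hs) hs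
    dsimp only at this
    linarith
  have h2 : s - s0 ≤ (u s0 - u s) / m s0 := by
    rw [le_div_iff₀ hm0]
    linarith
  have e1 : PP d lam u s = PP d lam u s0 * (u s / u s0) ^ (d + 1) *
      Real.exp (((d:ℝ) + 2) * (s - s0) - u s0 ^ np d + u s ^ np d) := by
    unfold PP
    rw [div_pow]
    have e2 : Real.exp (((d:ℝ) + 2) * (s - s0) - u s0 ^ np d + u s ^ np d) =
        Real.exp (((d:ℝ) + 2) * s) * Real.exp (u s ^ np d) /
          (Real.exp (((d:ℝ) + 2) * s0) * Real.exp (u s0 ^ np d)) := by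
      rw [← Real.exp_add, ← Real.exp_add, ← Real.exp_sub]
      congr 1
      ring
    rw [e2]
    have k1 := Real.exp_pos (((d:ℝ) + 2) * s0)
    have k2 := Real.exp_pos (u s0 ^ np d)
    field_simp
  rw [e1]
  have hP := h.PP_pos hs00
  gcongr
  rw [mul_div_assoc]
  gcongr

end

end Pool.Agent.R217.NL
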