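import Pool.Agent.R217.NL.Ode3

set_option autoImplicit false

open Filter Topology Set

namespace Pool.Agent.R217.NL

/-- Constant for the second cut. -/
noncomputable def K1 (d : ℕ) : ℝ := 2 * ((d:ℝ) + 1) * (np d + d + 3)

/-- `μ` is large. -/
structure Good (d : ℕ) (μ : ℝ) : Prop where
  h1 : 1 < μ
  h2 : K1 d * Real.log μ ≤ μ ^ np d / 2
  h3 : 4 * ((d:ℝ) * (d + 3)) ≤ μ ^ np d
  h4 : np d * (d + 2) * Real.log μ ^ 2 ≤ μ ^ np d
  h5 : 2 * ((d:ℝ) + 3) ≤ μ ^ np d

lemma log_small (c r : ℝ) (hr : 0 < r) : Tendsto (fun μ : ℝ => c * Real.log μ / μ ^ r) atTop (𝓝 0) := by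
  have h := (isLittleO_log_rpow_atTop hr).tendsto_div_nhds_zero
  have := h.const_mul c
  simpa [mul_div_assoc] using this

lemma log_sq_small (c r : ℝ) (hr : 0 < r) :
    Tendsto (fun μ : ℝ => c * Real.log μ ^ 2 / μ ^ r) atTop (𝓝 0) := by
  have h := (log_small 1 (r / 2) (by positivity)).pow 2
  have h2 := h.const_mul c
  simp only [ne_eq, OfNat.ofNat_ne_zero, not_false_eq_true, zero_pow, mul_zero] at h2
  refine h2.congr' ?_
  filter_upwards [eventually_gt_atTop 0] with μ hμ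
  have e : (μ ^ (r / 2)) ^ 2 = μ ^ r := by
    rw [← Real.rpow_natCast, ← Real.rpow_mul hμ.le]; congr 1; push_cast; ring
  rw [one_mul, div_pow, e]
  ring

lemma good_eventually (d : ℕ) : ∀ᶠ μ : ℝ in atTop, Good d μ := by
  have hnp := np_pos d
  have hX : Tendsto (fun μ : ℝ => μ ^ np d) atTop atTop := tendsto_rpow_atTop hnp
  have e2 : ∀ᶠ μ : ℝ in atTop, K1 d * Real.log μ / μ ^ np d < 1 / 2 :=
    (log_small (K1 d) (np d) hnp).eventually (gt_mem_nhds (by norm_num))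
  have e4 : ∀ᶠ μ : ℝ in atTop, np d * (d + 2) * Real.log μ ^ 2 / μ ^ np d < 1 :=
    (log_sq_small (np d * (d + 2)) (np d) hnp).eventually (gt_mem_nhds (by norm_num))
  filter_upwards [eventually_gt_atTop 1, e2, e4, hX.eventually_ge_atTop (4 * ((d:ℝ) * (d + 3))),
    hX.eventually_ge_atTop (2 * ((d:ℝ) + 3))] with μ h1 h2 h4 h3 h5
  have hμ : 0 < μ := by linarith
  have hXp : 0 < μ ^ np d := by positivity
  refine ⟨h1, ?_, h3, ?_, h5⟩
  · rw [div_lt_iff₀ hXp] at h2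
    linarith
  · rw [div_lt_one hXp] at h4
    exact h4.le

section

variable {d : ℕ} {lam μ En : ℝ} {u m e : ℝ → ℝ}

lemma t_mul {μ : ℝ} (hμ : 0 < μ) : μ * μ ^ qq d = μ ^ np d := by
  rw [np_eq, Real.rpow_add hμ, Real.rpow_one]

lemma t_pow {μ : ℝ} (hμ : 0 < μ) : (μ ^ qq d) ^ (d + 1) = μ := by
  rw [← Real.rpow_natCast, ← Real.rpow_mul hμ.le]
  push_cast
  rw [qq_mul, Real.rpow_one]

lemma mst_eq {μ : ℝ} (hμ : 0 < μ) :
    mst d μ = ((d:ℝ) + 2) / μ ^ qq d * (1 - d / μ ^ np d) := by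
  have hnp := np_pos d
  unfold mst gg
  rw [Real.rpow_neg hμ.le, Real.rpow_neg hμ.le]
  field_simp

lemma K1_big : (d:ℝ) + 2 < K1 d := by
  have := np_pos d
  unfold K1
  have h1 : 0 ≤ (d:ℝ) := Nat.cast_nonneg d
  nlinarith

/-- The inverse power at a point above `μ/2`. -/
lemma inv_pow_le (hd : 1 ≤ d) {x : ℝ} (hμ : 0 < μ) (hx : μ / 2 ≤ x) :
    x ^ (-np d) ≤ 4 / μ ^ np d := by
  have hnp := np_pos d
  have h1 : x ^ (-np d) ≤ (μ / 2) ^ (-np d) := y_anti (by positivity) hx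
  refine h1.trans ?_
  rw [Real.rpow_neg (by positivity), Real.div_rpow hμ.le (by norm_num), inv_div]
  gcongr
  have : (2:ℝ) ^ np d ≤ 2 ^ (2:ℝ) := by
    apply Real.rpow_le_rpow_of_exponent_le (by norm_num)
    rw [np_eq]
    have := qq_le d hd
    linarith
  refine this.trans ?_
  norm_num

/-- Lower bound for `m` at the first cut. -/
lemma Sol.m0_ge (h : Sol d lam μ En u m e) (hd : 1 ≤ d) (hG : Good d μ) {s : ℝ} (hs : s < 0)
    (hu : u s = μ - (d + 2) * Real.log μ / μ ^ qq d) :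
    μ / 2 ≤ u s ∧ (d:ℝ) * (d + 3) * u s ^ (-np d) ≤ 1 ∧
      ((d:ℝ) + 2) / μ ^ qq d * (1 - (d + 3) / μ ^ np d) ≤ m s := by
  have hd' : (1:ℝ) ≤ d := by exact_mod_cast hd
  have hμ := h.μpos
  have hnp := np_pos d
  have hq := qq_pos d
  have hL : 0 < Real.log μ := Real.log_pos hG.h1
  obtain ⟨t, ht⟩ : ∃ t, t = μ ^ qq d := ⟨_, rfl⟩
  obtain ⟨X, hX⟩ : ∃ X, X = μ ^ np d := ⟨_, rfl⟩
  have ht0 : 0 < t := by rw [ht]; positivity
  have hX0 : 0 < X := by rw [hX]; positivity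
  have htX : μ * t = X := by rw [ht, hX, t_mul hμ]
  have g2 := hG.h2
  have g3 := hG.h3
  have g4 := hG.h4
  have g5 := hG.h5
  rw [← hX] at g2 g3 g4 g5
  rw [← ht] at hu ⊢
  rw [← hX]
  obtain ⟨τ, hτ⟩ : ∃ τ, τ = ((d:ℝ) + 2) * Real.log μ / X := ⟨_, rfl⟩
  have hτ0 : 0 ≤ τ := by rw [hτ]; positivity
  have hτ2 : τ ≤ 1 / 2 := by
    rw [hτ, div_le_iff₀ hX0]
    have := K1_big (d := d)
    nlinarith
  have hua : u s = μ * (1 - τ) := by
    rw [hu, hτ, ← htX]
    field_simp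
  have hu2 : μ / 2 ≤ u s := by
    rw [hua]
    nlinarith
  have hu0 := h.upos s hs
  have hy : (d:ℝ) * (d + 3) * u s ^ (-np d) ≤ 1 := by
    have h1 := inv_pow_le hd hμ hu2
    rw [← hX] at h1
    calc (d:ℝ) * (d + 3) * u s ^ (-np d) ≤ (d:ℝ) * (d + 3) * (4 / X) := by gcongr
      _ = 4 * ((d:ℝ) * (d + 3)) / X := by ring
      _ ≤ 1 := by rw [div_le_one hX0]; exact g3
  refine ⟨hu2, hy, ?_⟩
  -- the exponent
  have hH : np d * Real.log μ - 1 ≤ (μ ^ np d - u s ^ np d) / (d + 2) := by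
    rw [← hX, hua, Real.mul_rpow hμ.le (by linarith), ← hX]
    -- `(1-τ)^np ≤ 1 - np τ (1-τ)`
    have k1 : (1 - τ) ^ np d ≤ 1 - np d * τ * (1 - τ) := by
      have hτ1 : 0 < 1 - τ := by linarith
      have k2 := one_add_mul_self_le_rpow_one_add (s := τ / (1 - τ)) (p := np d)
        (by have : 0 ≤ τ / (1 - τ) := by positivity
            linarith) (by rw [np_eq]; linarith)
      have k3 : 1 + τ / (1 - τ) = (1 - τ)⁻¹ := by field_simp; ring
      rw [k3, Real.inv_rpow hτ1.le] at k2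
      have k4 : 0 < (1 - τ) ^ np d := by positivity
      have k5 : (1 - τ) ^ np d * (1 + np d * (τ / (1 - τ))) ≤ 1 := by
        calc (1 - τ) ^ np d * (1 + np d * (τ / (1 - τ))) ≤ (1 - τ) ^ np d * ((1 - τ) ^ np d)⁻¹ := by
              gcongr
          _ = 1 := mul_inv_cancel₀ k4.ne'
      have k6 : (1 - τ) ^ 2 ≤ (1 - τ) ^ np d := by
        rw [← Real.rpow_natCast (1 - τ) 2]
        apply Real.rpow_le_rpow_of_exponent_ge hτ1 (by linarith)
        rw [np_eq]
        have := qq_le d hd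
        push_cast
        linarith
      have k7 : (1 - τ) ^ 2 * (np d * (τ / (1 - τ))) ≤ (1 - τ) ^ np d * (np d * (τ / (1 - τ))) := by
        gcongr
      have k8 : (1 - τ) ^ 2 * (np d * (τ / (1 - τ))) = np d * τ * (1 - τ) := by field_simp
      linarith
    rw [le_div_iff₀ (by positivity)]
    have k2 : X * (1 - τ) ^ np d ≤ X * (1 - np d * τ * (1 - τ)) := by gcongr
    have k3 : X * τ = ((d:ℝ) + 2) * Real.log μ := by rw [hτ]; field_simp
    have k4 : np d * Real.log μ * τ ≤ 1 := by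
      have : np d * Real.log μ * τ = np d * (d + 2) * Real.log μ ^ 2 / X := by rw [hτ]; ring
      rw [this, div_le_one hX0]
      exact g4
    have k5 : X * (1 - np d * τ * (1 - τ)) = X - np d * (X * τ) * (1 - τ) := by ring
    rw [k3] at k5
    have k6 : np d * (((d:ℝ) + 2) * Real.log μ) * (1 - τ) =
      (d + 2) * (np d * Real.log μ) - (d + 2) * (np d * Real.log μ * τ) := by ring
    have k7 : ((d:ℝ) + 2) * (np d * Real.log μ * τ) ≤ (d + 2) * 1 := by gcongr
    linarith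
  have hE : Real.exp (-((μ ^ np d - u s ^ np d) / (d + 2))) ≤ 3 / X := by
    calc Real.exp (-((μ ^ np d - u s ^ np d) / (d + 2))) ≤ Real.exp (1 - np d * Real.log μ) := by
          apply Real.exp_le_exp.2
          linarith
      _ = Real.exp 1 / X := by
          rw [Real.exp_sub, hX, Real.rpow_def_of_pos hμ, mul_comm (np d)]
      _ ≤ 3 / X := by
          gcongr
          have := Real.exp_one_lt_d9
          linarith
  have h1 := h.m_lower hd hs hy
  rw [mst_eq hμ, ← ht, ← hX] at h1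
  refine le_trans ?_ h1
  have k1 : 0 ≤ (1:ℝ) - d / X := by
    rw [sub_nonneg, div_le_one hX0]
    linarith
  rw [mul_assoc]
  gcongr
  have k2 : (1 - (d:ℝ) / X) * (1 - 3 / X) ≤
      (1 - (d:ℝ) / X) * (1 - Real.exp (-((X - u s ^ np d) / (d + 2)))) := by
    rw [← hX] at hE
    gcongr
  have k3 : 1 - ((d:ℝ) + 3) / X ≤ (1 - (d:ℝ) / X) * (1 - 3 / X) := by
    have : (1 - (d:ℝ) / X) * (1 - 3 / X) = 1 - ((d:ℝ) + 3) / X + (d * 3) / X ^ 2 := by
      field_simp; ring
    rw [this]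
    have : 0 ≤ ((d:ℝ) * 3) / X ^ 2 := by positivity
    linarith
  exact k3.trans k2

/-- Constant. -/
noncomputable def CP (d : ℕ) : ℝ := 2 * ((d:ℝ) + 2) * (4 * ((d:ℝ) + 1)) ^ (d + 1)

/-- Constant. -/
noncomputable def C3 (d : ℕ) : ℝ := CP d * Real.exp (2 * ((d:ℝ) + 3)) * 2 ^ (d + 1)

/-- Constant. -/
noncomputable def cc (d : ℕ) : ℝ := (1 - (1 / 2 : ℝ) ^ qq d) / 2

/-- Constant. -/
noncomputable def C4 (d : ℕ) : ℝ := C3 d * (((d + 2).factorial : ℝ) / cc d ^ (d + 2))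

lemma cc_pos (d : ℕ) : 0 < cc d := by
  unfold cc
  have : (1 / 2 : ℝ) ^ qq d < 1 := Real.rpow_lt_one (by norm_num) (by norm_num) (qq_pos d)
  linarith

lemma C3_pos (d : ℕ) : 0 < C3 d := by unfold C3 CP; positivity

lemma C4_pos (d : ℕ) : 0 < C4 d := by
  have := C3_pos d
  have := cc_pos d
  unfold C4; positivity

/-- The density in the outer region. -/
lemma Sol.uP_le (h : Sol d lam μ En u m e) (hd : 1 ≤ d) (hG : Good d μ) {s0 s : ℝ}
    (hu0 : u s0 = μ - (d + 2) * Real.log μ / μ ^ qq d) (hs : s0 ≤ s) (hs0 : s < 0) :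
    u s * PP d lam u s ≤ C3 d * (μ ^ (d + 2))⁻¹ * μ ^ np d *
      (u s ^ (d + 2) * Real.exp (-(u s * (μ ^ qq d - u s ^ qq d)))) := by
  have hd' : (1:ℝ) ≤ d := by exact_mod_cast hd
  have hs00 := lt_of_le_of_lt hs hs0
  obtain ⟨h1, h2, h3⟩ := h.m0_ge hd hG hs00 hu0
  have hμ := h.μpos
  have hnp := np_pos d
  have hq := qq_pos d
  have hL : 0 < Real.log μ := Real.log_pos hG.h1
  have hP0 := h.PP_pos hs00
  obtain ⟨t, ht⟩ : ∃ t, t = μ ^ qq d := ⟨_, rfl⟩
  obtain ⟨X, hX⟩ : ∃ X, X = μ ^ np d := ⟨_, rfl⟩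
  have ht0 : 0 < t := by rw [ht]; positivity
  have hX0 : 0 < X := by rw [hX]; positivity
  have htX : μ * t = X := by rw [ht, hX, t_mul hμ]
  have htp : t ^ (d + 1) = μ := by rw [ht, t_pow hμ]
  have g5 := hG.h5
  rw [← hX] at g5 h3 ⊢
  rw [← ht] at h3 hu0 ⊢
  have hus0 := h.upos s0 hs00
  have hus := h.upos s hs0
  have hm0 := h.mpos s0 hs00
  have hcr := h.crude hd hs00 h2
  -- `m0 ≤ 4(d+1)/t`
  have hm0u : m s0 ≤ 4 * ((d:ℝ) + 1) / t := by
    have k1 := gg_le (d := d) hus0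
    have k2 : u s0 ^ (-qq d) ≤ 2 / t := by
      have k3 : u s0 ^ (-qq d) ≤ (μ / 2) ^ (-qq d) :=
        Real.rpow_le_rpow_of_nonpos (by positivity) h1 (by linarith)
      refine k3.trans ?_
      rw [Real.rpow_neg (by positivity), Real.div_rpow hμ.le (by norm_num), inv_div, ← ht]
      gcongr
      have : (2:ℝ) ^ qq d ≤ 2 ^ (1:ℝ) := by
        apply Real.rpow_le_rpow_of_exponent_le (by norm_num)
        have := qq_le d hd
        linarith
      simpa using this
    have k3 : gg d (u s0) ≤ 1 / np d * (2 / t) := k1.trans (by gcongr)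
    calc m s0 ≤ 2 * (d + 2) * gg d (u s0) := hcr.1
      _ ≤ 2 * (d + 2) * (1 / np d * (2 / t)) := by gcongr
      _ = 4 * ((d:ℝ) + 1) / t := by unfold np; field_simp; ring
  have hPP0 : PP d lam u s0 ≤ CP d / μ := by
    calc PP d lam u s0 ≤ 2 * (d + 2) * m s0 ^ (d + 1) := hcr.2
      _ ≤ 2 * (d + 2) * (4 * ((d:ℝ) + 1) / t) ^ (d + 1) := by gcongr
      _ = CP d / μ := by
          rw [div_pow, htp]
          unfold CP
          ring
  -- `(d+2)/m0 ≤ t + 2(d+3)/μ`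
  have hinv : ((d:ℝ) + 2) / m s0 ≤ t + 2 * (d + 3) / μ := by
    have k1 : ((d:ℝ) + 3) / X ≤ 1 / 2 := by
      rw [div_le_iff₀ hX0]; linarith
    have k2 : 0 < 1 - ((d:ℝ) + 3) / X := by linarith
    have k3 : 0 < ((d:ℝ) + 2) / t * (1 - (d + 3) / X) := by positivity
    calc ((d:ℝ) + 2) / m s0 ≤ ((d:ℝ) + 2) / (((d:ℝ) + 2) / t * (1 - (d + 3) / X)) := by
          gcongr
      _ = t / (1 - (d + 3) / X) := by field_simp
      _ ≤ t * (1 + 2 * ((d + 3) / X)) := by
          rw [div_le_iff₀ k2]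
          have k4 : 0 ≤ ((d:ℝ) + 3) / X := by positivity
          have k5 : 1 ≤ (1 + 2 * (((d:ℝ) + 3) / X)) * (1 - (d + 3) / X) := by nlinarith
          calc t = t * 1 := (mul_one t).symm
            _ ≤ t * ((1 + 2 * (((d:ℝ) + 3) / X)) * (1 - (d + 3) / X)) := by gcongr
            _ = _ := by ring
      _ = t + 2 * (d + 3) / μ := by rw [← htX]; field_simp
  have hle := h.u_anti hs hs0
  -- the exponent
  have hexp : ((d:ℝ) + 2) * (u s0 - u s) / m s0 - u s0 ^ np d + u s ^ np d ≤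
      2 * ((d:ℝ) + 3) + np d * Real.log μ - u s * (t - u s ^ qq d) := by
    have k1 : ((d:ℝ) + 2) * (u s0 - u s) / m s0 ≤ t * (u s0 - u s) + 2 * ((d:ℝ) + 3) := by
      have k2 : ((d:ℝ) + 2) * (u s0 - u s) / m s0 = (((d:ℝ) + 2) / m s0) * (u s0 - u s) := by ring
      rw [k2]
      have k3 : (((d:ℝ) + 2) / m s0) * (u s0 - u s) ≤ (t + 2 * (d + 3) / μ) * (u s0 - u s) := by
        apply mul_le_mul_of_nonneg_right hinv (by linarith)
      have k4 : 2 * ((d:ℝ) + 3) / μ * (u s0 - u s) ≤ 2 * ((d:ℝ) + 3) := by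
        have k5 : (u s0 - u s) / μ ≤ 1 := by
          rw [div_le_one hμ]
          have := h.u_le hs00
          linarith
        calc 2 * ((d:ℝ) + 3) / μ * (u s0 - u s) = 2 * ((d:ℝ) + 3) * ((u s0 - u s) / μ) := by ring
          _ ≤ 2 * ((d:ℝ) + 3) * 1 := by gcongr
          _ = _ := mul_one _
      linarith
    have k2 : u s0 ^ np d = u s0 * u s0 ^ qq d := by rw [np_eq, Real.rpow_add hus0, Real.rpow_one]
    have k3 : u s ^ np d = u s * u s ^ qq d := by rw [np_eq, Real.rpow_add hus, Real.rpow_one]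
    -- `t - u0^q ≤ q t a0/u0`
    have k4 : u s0 * (t - u s0 ^ qq d) ≤ np d * Real.log μ := by
      have k5 : (μ / u s0) ^ qq d ≤ 1 + qq d * ((μ - u s0) / u s0) := by
        have e1 : μ / u s0 = 1 + (μ - u s0) / u s0 := by field_simp; ring
        rw [e1]
        apply rpow_one_add_le_one_add_mul_self _ hq.le (by have := qq_le d hd; linarith)
        have : 0 ≤ (μ - u s0) / u s0 := div_nonneg (by have := h.u_le hs00; linarith) hus0.le
        linarith
      have k6 : 0 < u s0 ^ qq d := by positivity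
      rw [Real.div_rpow hμ.le hus0.le, ← ht, div_le_iff₀ k6] at k5
      have k7 : u s0 ^ qq d ≤ t := by
        rw [ht]
        exact Real.rpow_le_rpow hus0.le (h.u_le hs00) hq.le
      have k8 : 0 ≤ qq d * ((μ - u s0) / u s0) := by
        apply mul_nonneg hq.le
        exact div_nonneg (by have := h.u_le hs00; linarith) hus0.le
      have k9 : t - u s0 ^ qq d ≤ qq d * ((μ - u s0) / u s0) * t := by
        have : qq d * ((μ - u s0) / u s0) * u s0 ^ qq d ≤ qq d * ((μ - u s0) / u s0) * t := by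
          gcongr
        linarith
      calc u s0 * (t - u s0 ^ qq d) ≤ u s0 * (qq d * ((μ - u s0) / u s0) * t) := by gcongr
        _ = qq d * t * (μ - u s0) := by field_simp
        _ = qq d * (d + 2) * Real.log μ := by rw [hu0]; field_simp; ring
        _ = _ := by
            congr 1
            unfold qq np; field_simp
    rw [k2, k3]
    linarith
  have h5 := h.PP_outer hs hs0
  have hEX : Real.exp (2 * ((d:ℝ) + 3) + np d * Real.log μ - u s * (t - u s ^ qq d)) =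
      Real.exp (2 * ((d:ℝ) + 3)) * X * Real.exp (-(u s * (t - u s ^ qq d))) := by
    rw [sub_eq_add_neg, Real.exp_add, Real.exp_add, hX, Real.rpow_def_of_pos hμ,
      mul_comm (np d)]
  have h6 : PP d lam u s ≤ CP d / μ * (u s / (μ / 2)) ^ (d + 1) *
      (Real.exp (2 * ((d:ℝ) + 3)) * X * Real.exp (-(u s * (t - u s ^ qq d)))) := by
    rw [← hEX]
    have hCP : 0 < CP d := by unfold CP; positivity
    refine h5.trans ?_
    gcongr
  calc u s * PP d lam u s ≤ u s * (CP d / μ * (u s / (μ / 2)) ^ (d + 1) *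
      (Real.exp (2 * ((d:ℝ) + 3)) * X * Real.exp (-(u s * (t - u s ^ qq d))))) := by gcongr
    _ = _ := by
        unfold C3
        have e1 : μ ^ (d + 2) = μ * μ ^ (d + 1) := by ring
        have e2 : u s ^ (d + 2) = u s * u s ^ (d + 1) := by ring
        rw [div_pow, div_pow, e1, e2]
        field_simp

end

end Pool.Agent.R217.NL
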