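import Pool.Agent.R217.NL.Ode4

set_option autoImplicit false

open Filter Topology Set

namespace Pool.Agent.R217.NL

section

variable {d : ℕ} {lam μ En : ℝ} {u m e : ℝ → ℝ}

/-- The bound for the density in terms of `x = u`. -/
lemma B_le (hd : 1 ≤ d) (hG : Good d μ) {x : ℝ} (hx : 0 < x)
    (hx1 : x ≤ μ - K1 d * Real.log μ / μ ^ qq d) :
    C3 d * (μ ^ (d + 2))⁻¹ * μ ^ np d *
      (x ^ (d + 2) * Real.exp (-(x * (μ ^ qq d - x ^ qq d)))) ≤
      C4 d * (μ ^ (d + 2))⁻¹ * Real.exp (-(cc d * μ ^ qq d * x)) + C3 d * (μ ^ (d + 3))⁻¹ := by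
  have hd' : (1:ℝ) ≤ d := by exact_mod_cast hd
  have hμ : 0 < μ := by have := hG.h1; linarith
  have hnp := np_pos d
  have hq := qq_pos d
  have hq1 := qq_le d hd
  have hL : 0 < Real.log μ := Real.log_pos hG.h1
  have hC3 := C3_pos d
  have hC4 := C4_pos d
  have hcc := cc_pos d
  obtain ⟨t, ht⟩ : ∃ t, t = μ ^ qq d := ⟨_, rfl⟩
  obtain ⟨X, hX⟩ : ∃ X, X = μ ^ np d := ⟨_, rfl⟩
  have ht0 : 0 < t := by rw [ht]; positivity
  have hX0 : 0 < X := by rw [hX]; positivity
  have htX : μ * t = X := by rw [ht, hX, t_mul hμ]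
  have htp : t ^ (d + 1) = μ := by rw [ht, t_pow hμ]
  have hK1 : 0 < K1 d := by have := K1_big (d := d); linarith
  rw [← ht] at hx1 ⊢
  rw [← hX]
  have hxμ : x ≤ μ := by
    have : 0 < K1 d * Real.log μ / t := by positivity
    linarith
  rcases le_or_gt x (μ / 2) with h2 | h2
  · -- small values
    have k1 : x ^ qq d ≤ t * (1 - 2 * cc d) := by
      have k2 : x ^ qq d ≤ (μ * (1 / 2)) ^ qq d :=
        Real.rpow_le_rpow hx.le (by linarith) hq.le
      rw [Real.mul_rpow hμ.le (by norm_num), ← ht] at k2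
      refine k2.trans (le_of_eq ?_)
      unfold cc
      ring
    have k3 : Real.exp (-(x * (t - x ^ qq d))) ≤ Real.exp (-(2 * (cc d * t * x))) := by
      apply Real.exp_le_exp.2
      have : x * x ^ qq d ≤ x * (t * (1 - 2 * cc d)) := by gcongr
      linarith
    have k4 : x ^ (d + 2) * Real.exp (-(2 * (cc d * t * x))) ≤
        ((d + 2).factorial : ℝ) / (cc d * t) ^ (d + 2) * Real.exp (-(cc d * t * x)) := by
      have k5 := Real.pow_div_factorial_le_exp (x := cc d * t * x) (by positivity) (d + 2)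
      have k6 : x ^ (d + 2) = ((d + 2).factorial : ℝ) / (cc d * t) ^ (d + 2) *
          ((cc d * t * x) ^ (d + 2) / ((d + 2).factorial : ℝ)) := by
        have : (0:ℝ) < (d + 2).factorial := by exact_mod_cast (d + 2).factorial_pos
        rw [mul_pow (cc d * t) x]
        field_simp
      have k7 : Real.exp (-(2 * (cc d * t * x))) = Real.exp (-(cc d * t * x)) *
          Real.exp (-(cc d * t * x)) := by rw [← Real.exp_add]; congr 1; ring
      have k8 : Real.exp (cc d * t * x) * Real.exp (-(cc d * t * x)) = 1 := by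
        rw [← Real.exp_add]; simp
      rw [k7]
      calc x ^ (d + 2) * (Real.exp (-(cc d * t * x)) * Real.exp (-(cc d * t * x)))
          = ((d + 2).factorial : ℝ) / (cc d * t) ^ (d + 2) *
          ((cc d * t * x) ^ (d + 2) / ((d + 2).factorial : ℝ)) *
            (Real.exp (-(cc d * t * x)) * Real.exp (-(cc d * t * x))) := by rw [← k6]
        _ ≤ ((d + 2).factorial : ℝ) / (cc d * t) ^ (d + 2) *
          Real.exp (cc d * t * x) *
            (Real.exp (-(cc d * t * x)) * Real.exp (-(cc d * t * x))) := by gcongr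
        _ = ((d + 2).factorial : ℝ) / (cc d * t) ^ (d + 2) * (Real.exp (cc d * t * x) *
            Real.exp (-(cc d * t * x))) * Real.exp (-(cc d * t * x)) := by ring
        _ = _ := by rw [k8, mul_one]
    have k5 : C3 d * (μ ^ (d + 2))⁻¹ * X *
        (x ^ (d + 2) * Real.exp (-(x * (t - x ^ qq d)))) ≤
        C4 d * (μ ^ (d + 2))⁻¹ * Real.exp (-(cc d * t * x)) := by
      calc C3 d * (μ ^ (d + 2))⁻¹ * X *
            (x ^ (d + 2) * Real.exp (-(x * (t - x ^ qq d))))
          ≤ C3 d * (μ ^ (d + 2))⁻¹ * X *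
            (x ^ (d + 2) * Real.exp (-(2 * (cc d * t * x)))) := by gcongr
        _ ≤ C3 d * (μ ^ (d + 2))⁻¹ * X * (((d + 2).factorial : ℝ) / (cc d * t) ^ (d + 2) *
            Real.exp (-(cc d * t * x))) := by gcongr
        _ = _ := by
            have e1 : (cc d * t) ^ (d + 2) = cc d ^ (d + 2) * X := by
              rw [mul_pow, ← htX]
              have : t ^ (d + 2) = t ^ (d + 1) * t := by ring
              rw [this, htp]
            rw [e1]
            unfold C4
            field_simp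
    have k6 : 0 < C3 d * (μ ^ (d + 3))⁻¹ := by positivity
    linarith
  · -- large values
    have k1 : x ^ qq d ≤ t * (1 - qq d * (K1 d * Real.log μ / X)) := by
      have e1 : x ≤ μ * (1 + -(K1 d * Real.log μ / X)) := by
        have : μ * (1 + -(K1 d * Real.log μ / X)) = μ - K1 d * Real.log μ / t := by
          rw [← htX]; field_simp; ring
        rw [this]; exact hx1
      have e0 : (0:ℝ) ≤ 1 + -(K1 d * Real.log μ / X) := by
        by_contra hc
        push Not at hc
        have : μ * (1 + -(K1 d * Real.log μ / X)) < 0 := mul_neg_of_pos_of_neg hμ hc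
        linarith
      have k2 : x ^ qq d ≤ (μ * (1 + -(K1 d * Real.log μ / X))) ^ qq d :=
        Real.rpow_le_rpow hx.le e1 hq.le
      rw [Real.mul_rpow hμ.le e0, ← ht] at k2
      refine k2.trans ?_
      have k3 := rpow_one_add_le_one_add_mul_self (s := -(K1 d * Real.log μ / X)) (p := qq d)
        (by linarith) hq.le (by linarith)
      calc t * (1 + -(K1 d * Real.log μ / X)) ^ qq d ≤
            t * (1 + qq d * -(K1 d * Real.log μ / X)) := by gcongr
        _ = _ := by ring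
    have k2 : (np d + d + 3) * Real.log μ ≤ x * (t - x ^ qq d) := by
      have k3 : t * (qq d * (K1 d * Real.log μ / X)) ≤ t - x ^ qq d := by linarith
      have k4 : (μ / 2) * (t * (qq d * (K1 d * Real.log μ / X))) = (np d + d + 3) * Real.log μ := by
        rw [← htX]
        have := qq_mul d
        unfold K1
        field_simp
        linear_combination this
      rw [← k4]
      have k5 : 0 ≤ t * (qq d * (K1 d * Real.log μ / X)) := by positivity
      gcongr
    have k3 : Real.exp (-(x * (t - x ^ qq d))) ≤ X⁻¹ * (μ ^ (d + 3))⁻¹ := by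
      calc Real.exp (-(x * (t - x ^ qq d))) ≤ Real.exp (-((np d + d + 3) * Real.log μ)) := by
            apply Real.exp_le_exp.2; linarith
        _ = X⁻¹ * (μ ^ (d + 3))⁻¹ := by
            rw [← mul_inv, Real.exp_neg]
            congr 1
            rw [hX, Real.rpow_def_of_pos hμ, ← Real.rpow_natCast, Real.rpow_def_of_pos hμ,
              ← Real.exp_add]
            congr 1
            push_cast
            ring
    have k4 : x ^ (d + 2) ≤ μ ^ (d + 2) := by gcongr
    have k5 : C3 d * (μ ^ (d + 2))⁻¹ * X *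
        (x ^ (d + 2) * Real.exp (-(x * (t - x ^ qq d)))) ≤ C3 d * (μ ^ (d + 3))⁻¹ := by
      calc C3 d * (μ ^ (d + 2))⁻¹ * X *
            (x ^ (d + 2) * Real.exp (-(x * (t - x ^ qq d))))
          ≤ C3 d * (μ ^ (d + 2))⁻¹ * X * (μ ^ (d + 2) * (X⁻¹ * (μ ^ (d + 3))⁻¹)) := by gcongr
        _ = _ := by field_simp
    have k6 : 0 < C4 d * (μ ^ (d + 2))⁻¹ * Real.exp (-(cc d * t * x)) := by positivity
    linarith

/-- The energy bound. -/
theorem Sol.En_le (h : Sol d lam μ En u m e) (hd : 1 ≤ d) (hG : Good d μ) :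
    En ≤ ((d:ℝ) + 2) ^ (d + 1) * (1 - d / μ ^ np d) ^ (d + 1) *
      Real.exp (2 * (K1 d * Real.log μ / μ ^ np d) ^ 2 +
        2 * (d + 1) * (np d * ((d:ℝ) * ((d:ℝ) - 1) * (4 / μ ^ np d) ^ 2))) +
      μ ^ qq d * (C4 d / cc d + C3 d) * (μ ^ (d + 2))⁻¹ := by
  have hd' : (1:ℝ) ≤ d := by exact_mod_cast hd
  have hμ := h.μpos
  have hnp := np_pos d
  have hq := qq_pos d
  have hL : 0 < Real.log μ := Real.log_pos hG.h1
  have hC3 := C3_pos d
  have hC4 := C4_pos d
  have hcc := cc_pos d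
  obtain ⟨t, ht⟩ : ∃ t, t = μ ^ qq d := ⟨_, rfl⟩
  obtain ⟨X, hX⟩ : ∃ X, X = μ ^ np d := ⟨_, rfl⟩
  have ht0 : 0 < t := by rw [ht]; positivity
  have ht1 : 1 ≤ t := by rw [ht]; exact Real.one_le_rpow hG.h1.le hq.le
  have hX0 : 0 < X := by rw [hX]; positivity
  have htX : μ * t = X := by rw [ht, hX, t_mul hμ]
  have htp : t ^ (d + 1) = μ := by rw [ht, t_pow hμ]
  have hK := K1_big (d := d)
  have hK0 : 0 < K1 d := by linarith
  have g2 := hG.h2
  rw [← hX] at g2
  have hX1 : K1 d * Real.log μ / t ≤ μ / 2 := by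
    rw [div_le_iff₀ ht0]
    nlinarith
  have hX2 : ((d:ℝ) + 2) * Real.log μ / t < K1 d * Real.log μ / t := by gcongr
  have hX3 : 0 < ((d:ℝ) + 2) * Real.log μ / t := by positivity
  -- the two cuts
  obtain ⟨s0, hs0, hu0⟩ := h.exists_val (x := μ - ((d:ℝ) + 2) * Real.log μ / t)
    (by linarith) (by linarith)
  obtain ⟨s1, hs1, hu1⟩ := h.exists_val (x := μ - K1 d * Real.log μ / t)
    (by linarith) (by linarith)
  have h01 : s0 ≤ s1 := by
    by_contra hc
    push Not at hc
    have := h.u_anti hc.le hs0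
    rw [hu0, hu1] at this
    linarith
  obtain ⟨k1, k2, k3⟩ := h.m0_ge hd hG hs0 (by rw [hu0, ht])
  rw [← ht, ← hX] at k3
  have hm0 := h.mpos s0 hs0
  -- `1/m0 ≤ t`
  have hm0t : 1 / m s0 ≤ t := by
    have g5 := hG.h5
    rw [← hX] at g5
    have k4 : ((d:ℝ) + 3) / X ≤ 1 / 2 := by rw [div_le_iff₀ hX0]; linarith
    have k5 : 1 / t ≤ m s0 := by
      refine le_trans ?_ k3
      calc 1 / t ≤ ((d:ℝ) + 2) / t * (1 / 2) := by
            rw [div_mul_eq_mul_div]
            gcongr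
            linarith
        _ ≤ _ := by gcongr; linarith
    rw [div_le_iff₀ hm0]
    rw [div_le_iff₀ ht0] at k5
    linarith
  -- outer region
  obtain ⟨B1, hB1⟩ : ∃ B1, B1 = C4 d * (μ ^ (d + 2))⁻¹ := ⟨_, rfl⟩
  obtain ⟨B2, hB2⟩ : ∃ B2, B2 = C3 d * (μ ^ (d + 3))⁻¹ := ⟨_, rfl⟩
  have hB10 : 0 < B1 := by rw [hB1]; positivity
  have hB20 : 0 < B2 := by rw [hB2]; positivity
  have hWout : ∀ s, s1 ≤ s → s < 0 → u s * m s ^ (d + 1) + e s ≤
      (u s1 * m s1 ^ (d + 1) + e s1) + 1 / m s0 * (B1 / (cc d * t) + B2 * μ) := by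
    intro s hs1s hs
    obtain ⟨F, hF⟩ : ∃ F : ℝ → ℝ, ∀ r, F r = (u r * m r ^ (d + 1) + e r) +
      1 / m s0 * (-(B1 / (cc d * t)) * Real.exp (-(cc d * t * u r)) + B2 * u r) := ⟨_, fun r => rfl⟩
    have hFd : ∀ r ∈ Icc s1 s, HasDerivAt F (u r * PP d lam u r +
        1 / m s0 * (-(B1 / (cc d * t)) * (Real.exp (-(cc d * t * u r)) * (-(cc d * t * -(m r)))) +
          B2 * -(m r))) r := by
      intro r hr
      have hr0 := lt_of_le_of_lt hr.2 hs
      have e0 : F = fun r => (u r * m r ^ (d + 1) + e r) +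
        1 / m s0 * (-(B1 / (cc d * t)) * Real.exp (-(cc d * t * u r)) + B2 * u r) := by
        funext r; exact hF r
      rw [e0]
      exact (h.dW hr0).add ((((((h.du r hr0).const_mul (cc d * t)).neg).exp.const_mul _).add
        ((h.du r hr0).const_mul B2)).const_mul _)
    have hanti : AntitoneOn F (Icc s1 s) := by
      apply antitoneOn_of_deriv_nonpos (convex_Icc s1 s)
        (fun r hr => (hFd r hr).continuousAt.continuousWithinAt)
      · intro r hr
        rw [interior_Icc] at hr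
        exact (hFd r ⟨hr.1.le, hr.2.le⟩).differentiableAt.differentiableWithinAt
      · intro r hr
        rw [interior_Icc] at hr
        rw [(hFd r ⟨hr.1.le, hr.2.le⟩).deriv]
        have hr0 := lt_trans hr.2 hs
        have j1 := h.uP_le hd hG (s0 := s0) (by rw [hu0, ht]) (h01.trans hr.1.le) hr0
        have j2 := B_le hd hG (h.upos r hr0) (by
          have := h.u_anti hr.1.le hr0
          rw [hu1, ht] at this
          exact this)
        rw [← hB1, ← hB2, ← ht] at j2
        rw [← ht] at j1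
        have j3 := j1.trans j2
        have j4 := h.m_mono (h01.trans hr.1.le) hr0
        have j5 : 1 ≤ m r / m s0 := by rw [one_le_div hm0]; exact j4
        obtain ⟨EE, hEE⟩ : ∃ EE, EE = Real.exp (-(cc d * t * u r)) := ⟨_, rfl⟩
        have hEE0 : 0 < EE := by rw [hEE]; exact Real.exp_pos _
        rw [← hEE] at j3 ⊢
        have j6 : 1 / m s0 * (-(B1 / (cc d * t)) * (EE * (-(cc d * t * -(m r)))) + B2 * -(m r)) =
            -((B1 * EE + B2) * (m r / m s0)) := by
          field_simp; ring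
        rw [j6]
        have j7 : (B1 * EE + B2) * 1 ≤ (B1 * EE + B2) * (m r / m s0) := by gcongr
        linarith
    have h4 := hanti (left_mem_Icc.2 hs1s) (right_mem_Icc.2 hs1s) hs1s
    rw [hF, hF] at h4
    have hus := h.upos s hs
    have hus1 := h.upos s1 hs1
    have j1 : Real.exp (-(cc d * t * u s)) ≤ 1 := by
      rw [Real.exp_le_one_iff]
      have : 0 ≤ cc d * t * u s := by positivity
      linarith
    have j2 : 1 / m s0 * (-(B1 / (cc d * t)) * Real.exp (-(cc d * t * u s1)) + B2 * u s1) ≤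
        1 / m s0 * (B2 * μ) := by
      have : 0 ≤ B1 / (cc d * t) * Real.exp (-(cc d * t * u s1)) := by positivity
      have := h.u_le hs1
      have : B2 * u s1 ≤ B2 * μ := by gcongr
      gcongr
      linarith
    have j3 : -(1 / m s0 * (B1 / (cc d * t))) ≤
        1 / m s0 * (-(B1 / (cc d * t)) * Real.exp (-(cc d * t * u s)) + B2 * u s) := by
      have j4 : B1 / (cc d * t) * Real.exp (-(cc d * t * u s)) ≤ B1 / (cc d * t) * 1 := by gcongr
      have j5 : 0 ≤ B2 * u s := by positivity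
      rw [← mul_neg]
      gcongr
      linarith
    linarith
  have hEn : En ≤ (u s1 * m s1 ^ (d + 1) + e s1) + 1 / m s0 * (B1 / (cc d * t) + B2 * μ) := by
    refine le_of_tendsto h.re ?_
    filter_upwards [Ico_mem_nhdsLT hs1] with s hs
    have j1 := hWout s hs.1 hs.2
    have j2 := h.upos s hs.2
    have j3 := h.mpos s hs.2
    have : 0 ≤ u s * m s ^ (d + 1) := by positivity
    linarith
  refine hEn.trans ?_
  rw [← ht, ← hX]
  apply add_le_add
  · -- inner
    have hu12 : μ / 2 ≤ u s1 := by rw [hu1]; linarith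
    have j0 := inv_pow_le hd hμ hu12
    have hy1 : (d:ℝ) * (d + 3) * u s1 ^ (-np d) ≤ 1 := by
      have g3 := hG.h3
      rw [← hX] at g3 j0
      calc (d:ℝ) * (d + 3) * u s1 ^ (-np d) ≤ (d:ℝ) * (d + 3) * (4 / X) := by gcongr
        _ = 4 * ((d:ℝ) * (d + 3)) / X := by ring
        _ ≤ 1 := by rw [div_le_one hX0]; exact g3
    have j1 := h.W_le hd hs1 hy1 hu12
    refine j1.trans ?_
    have e1 : mst d μ ^ (d + 1) * μ = ((d:ℝ) + 2) ^ (d + 1) * (1 - d / X) ^ (d + 1) := by
      rw [mst_eq hμ, ← ht, ← hX, mul_pow, div_pow, htp]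
      field_simp
    rw [e1]
    have e2 : (μ - u s1) / μ = K1 d * Real.log μ / X := by
      rw [hu1, ← htX]; field_simp; ring
    rw [e2]
    have k4 : 0 ≤ (1:ℝ) - d / X := by
      have g3 := hG.h3
      rw [← hX] at g3
      rw [sub_nonneg, div_le_one hX0]
      nlinarith
    have k5 : 0 ≤ (d:ℝ) - 1 := by linarith
    have k6 : 0 < u s1 ^ (-np d) := by
      have := h.upos s1 hs1
      positivity
    rw [← hX] at j0
    gcongr
  · -- outer
    have e1 : B2 * μ = C3 d * (μ ^ (d + 2))⁻¹ := by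
      rw [hB2]
      have : μ ^ (d + 3) = μ ^ (d + 2) * μ := by ring
      rw [this]
      field_simp
    rw [e1, hB1]
    have j1 : C4 d * (μ ^ (d + 2))⁻¹ / (cc d * t) ≤ C4 d / cc d * (μ ^ (d + 2))⁻¹ := by
      calc C4 d * (μ ^ (d + 2))⁻¹ / (cc d * t) ≤ C4 d * (μ ^ (d + 2))⁻¹ / (cc d * 1) := by gcongr
        _ = _ := by ring
    calc 1 / m s0 * (C4 d * (μ ^ (d + 2))⁻¹ / (cc d * t) + C3 d * (μ ^ (d + 2))⁻¹)
        ≤ t * (C4 d / cc d * (μ ^ (d + 2))⁻¹ + C3 d * (μ ^ (d + 2))⁻¹) := by gcongr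
      _ = _ := by ring

/-- The lower bound of the energy. -/
theorem Sol.En_lower (h : Sol d lam μ En u m e) (hd : 1 ≤ d) (hG : Good d μ) :
    ((d:ℝ) + 2) ^ (d + 1) * ((1 - (d + 2) * Real.log μ / μ ^ np d) *
      (1 - (d + 3) / μ ^ np d) ^ (d + 1)) ≤ En := by
  have hd' : (1:ℝ) ≤ d := by exact_mod_cast hd
  have hμ := h.μpos
  have hnp := np_pos d
  have hq := qq_pos d
  have hL : 0 < Real.log μ := Real.log_pos hG.h1
  obtain ⟨t, ht⟩ : ∃ t, t = μ ^ qq d := ⟨_, rfl⟩
  obtain ⟨X, hX⟩ : ∃ X, X = μ ^ np d := ⟨_, rfl⟩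
  have ht0 : 0 < t := by rw [ht]; positivity
  have hX0 : 0 < X := by rw [hX]; positivity
  have htX : μ * t = X := by rw [ht, hX, t_mul hμ]
  have htp : t ^ (d + 1) = μ := by rw [ht, t_pow hμ]
  have hK := K1_big (d := d)
  have g2 := hG.h2
  have g5 := hG.h5
  rw [← hX] at g2 g5
  have hX1 : K1 d * Real.log μ / t ≤ μ / 2 := by
    rw [div_le_iff₀ ht0]
    nlinarith
  have hX2 : ((d:ℝ) + 2) * Real.log μ / t < K1 d * Real.log μ / t := by gcongr
  have hX3 : 0 < ((d:ℝ) + 2) * Real.log μ / t := by positivity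
  obtain ⟨s0, hs0, hu0⟩ := h.exists_val (x := μ - ((d:ℝ) + 2) * Real.log μ / t)
    (by linarith) (by linarith)
  obtain ⟨k1, k2, k3⟩ := h.m0_ge hd hG hs0 (by rw [hu0, ht])
  rw [← ht, ← hX] at k3
  have hE := h.En_ge hs0
  refine le_trans ?_ hE
  have e1 : u s0 = μ * (1 - (d + 2) * Real.log μ / X) := by
    rw [hu0, ← htX]; field_simp
  have k4 : ((d:ℝ) + 3) / X ≤ 1 / 2 := by rw [div_le_iff₀ hX0]; linarith
  have k5 : 0 < 1 - ((d:ℝ) + 3) / X := by linarith
  have k6 : (((d:ℝ) + 2) / t * (1 - (d + 3) / X)) ^ (d + 1) ≤ m s0 ^ (d + 1) := by gcongr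
  have k7 : 0 < 1 - ((d:ℝ) + 2) * Real.log μ / X := by
    have := h.upos s0 hs0
    rw [e1] at this
    exact (mul_pos_iff_of_pos_left hμ).1 this
  rw [← hX, e1]
  calc ((d:ℝ) + 2) ^ (d + 1) * ((1 - (d + 2) * Real.log μ / X) * (1 - (d + 3) / X) ^ (d + 1))
      = μ * (1 - (d + 2) * Real.log μ / X) * (((d:ℝ) + 2) / t * (1 - (d + 3) / X)) ^ (d + 1) := by
        rw [mul_pow, div_pow, htp]; field_simp
    _ ≤ _ := by gcongr

end

end Pool.Agent.R217.NL
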