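import Pool.Agent.R217.NL.Ode5

set_option autoImplicit false

open Filter Topology Set

namespace Pool.Agent.R217.NL

/-- For large `μ` the energy is below the threshold. -/
theorem eventually_lt (d : ℕ) (hd : 1 ≤ d) : ∀ᶠ μ : ℝ in atTop, ∀ (lam En : ℝ) (u m e : ℝ → ℝ),
    Sol d lam μ En u m e → En < ((d:ℝ) + 2) ^ (d + 1) := by
  have hd' : (1:ℝ) ≤ d := by exact_mod_cast hd
  have hnp := np_pos d
  obtain ⟨c1, hc1⟩ : ∃ c1, c1 = 2 * K1 d ^ 2 := ⟨_, rfl⟩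
  obtain ⟨c2, hc2⟩ : ∃ c2, c2 = 2 * ((d:ℝ) + 1) * (np d * ((d:ℝ) * ((d:ℝ) - 1) * 16)) := ⟨_, rfl⟩
  obtain ⟨C5, hC5⟩ : ∃ C5, C5 = C4 d / cc d + C3 d := ⟨_, rfl⟩
  have hC50 : 0 < C5 := by
    rw [hC5]
    have := C3_pos d
    have := C4_pos d
    have := cc_pos d
    positivity
  have hX : Tendsto (fun μ : ℝ => μ ^ np d) atTop atTop := tendsto_rpow_atTop hnp
  have e1 : ∀ᶠ μ : ℝ in atTop, c1 * Real.log μ ^ 2 / μ ^ np d < 1 / 2 :=
    (log_sq_small c1 (np d) hnp).eventually (gt_mem_nhds (by norm_num))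
  have e2 : ∀ᶠ μ : ℝ in atTop, c2 / μ ^ np d < 1 / 2 :=
    (hX.const_div_atTop c2).eventually (gt_mem_nhds (by norm_num))
  have e3 : ∀ᶠ μ : ℝ in atTop, C5 / μ < 1 / 2 :=
    ((tendsto_id (α := ℝ)).const_div_atTop C5).eventually (gt_mem_nhds (by norm_num))
  filter_upwards [good_eventually d, e1, e2, e3, hX.eventually_ge_atTop ((d:ℝ) * (d + 1))] with
    μ hG h1 h2 h3 h4 lam En u m e h
  have hμ := h.μpos
  have hμ1 := hG.h1
  have hE := h.En_le hd hG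
  have g3 := hG.h3
  obtain ⟨t, ht⟩ : ∃ t, t = μ ^ qq d := ⟨_, rfl⟩
  obtain ⟨X, hX⟩ : ∃ X, X = μ ^ np d := ⟨_, rfl⟩
  have ht0 : 0 < t := by rw [ht]; positivity
  have hX0 : 0 < X := by rw [hX]; positivity
  have htX : μ * t = X := by rw [ht, hX, t_mul hμ]
  have htμ : t ≤ μ := by
    rw [ht]
    calc μ ^ qq d ≤ μ ^ (1:ℝ) := by
          apply Real.rpow_le_rpow_of_exponent_le hμ1.le
          have := qq_le d hd
          linarith
      _ = μ := Real.rpow_one μ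
  rw [← hC5] at hE
  rw [← ht, ← hX] at hE
  rw [← hX] at h1 h2 h4 g3
  -- the exponential factor
  have k1 : 2 * (K1 d * Real.log μ / X) ^ 2 +
        2 * ((d:ℝ) + 1) * (np d * ((d:ℝ) * ((d:ℝ) - 1) * (4 / X) ^ 2)) ≤ 1 / X := by
    have : 2 * (K1 d * Real.log μ / X) ^ 2 +
        2 * ((d:ℝ) + 1) * (np d * ((d:ℝ) * ((d:ℝ) - 1) * (4 / X) ^ 2)) =
        (c1 * Real.log μ ^ 2 / X + c2 / X) / X := by
      rw [hc1, hc2]; field_simp; ring
    rw [this]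
    gcongr
    linarith
  obtain ⟨z, hz⟩ : ∃ z, z = (d:ℝ) * (d + 1) / X - 1 / X := ⟨_, rfl⟩
  have hz1 : 1 / X ≤ z := by
    rw [hz, ← sub_div]
    gcongr
    nlinarith
  have hz0 : 0 < z := lt_of_lt_of_le (by positivity) hz1
  have hz2 : z ≤ 1 := by
    have : (d:ℝ) * (d + 1) / X ≤ 1 := by rw [div_le_one hX0]; exact h4
    have : 0 < 1 / X := by positivity
    rw [hz]; linarith
  have k0 : 0 ≤ (1:ℝ) - d / X := by
    rw [sub_nonneg, div_le_one hX0]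
    nlinarith
  have k2 : (1 - (d:ℝ) / X) ^ (d + 1) * Real.exp (2 * (K1 d * Real.log μ / X) ^ 2 +
        2 * ((d:ℝ) + 1) * (np d * ((d:ℝ) * ((d:ℝ) - 1) * (4 / X) ^ 2))) ≤ 1 - z / 2 := by
    calc (1 - (d:ℝ) / X) ^ (d + 1) * Real.exp (2 * (K1 d * Real.log μ / X) ^ 2 +
          2 * ((d:ℝ) + 1) * (np d * ((d:ℝ) * ((d:ℝ) - 1) * (4 / X) ^ 2)))
        ≤ (Real.exp (-(d / X))) ^ (d + 1) * Real.exp (1 / X) := by
          gcongr
          have := Real.add_one_le_exp (-((d:ℝ) / X))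
          linarith
      _ = Real.exp (-z) := by
          rw [← Real.exp_nat_mul, ← Real.exp_add, hz]
          congr 1
          push_cast
          ring
      _ ≤ 1 - z / 2 := by
          have j1 := Real.add_one_le_exp z
          rw [Real.exp_neg, inv_le_comm₀ (Real.exp_pos z) (by linarith)]
          refine le_trans ?_ j1
          rw [inv_le_comm₀ (by linarith) (by linarith)]
          rw [← one_div, div_le_iff₀ (by linarith)]
          nlinarith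
  -- the outer term
  have k3 : t * C5 * (μ ^ (d + 2))⁻¹ < 1 / (2 * X) := by
    rw [lt_div_iff₀ (by positivity)]
    have j3 : μ ^ 3 ≤ μ ^ (d + 2) := pow_le_pow_right₀ hμ1.le (by omega)
    have j4 : t ^ 2 ≤ μ := by
      have ht1 : 1 ≤ t := by rw [ht]; exact Real.one_le_rpow hμ1.le (qq_pos d).le
      calc t ^ 2 ≤ t ^ (d + 1) := pow_le_pow_right₀ ht1 (by omega)
        _ = μ := by rw [ht, t_pow hμ]
    calc t * C5 * (μ ^ (d + 2))⁻¹ * (2 * X) ≤ t * C5 * (μ ^ 3)⁻¹ * (2 * X) := by gcongr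
      _ = 2 * (t ^ 2 * C5 / μ ^ 2) := by rw [← htX]; field_simp
      _ ≤ 2 * (μ * C5 / μ ^ 2) := by gcongr
      _ = 2 * (C5 / μ) := by field_simp
      _ < 1 := by linarith
  have k4 : 1 / (2 * X) ≤ z / 2 := by
    have : 1 / (2 * X) = (1 / X) / 2 := by field_simp
    rw [this]; linarith
  obtain ⟨A, hA⟩ : ∃ A, A = ((d:ℝ) + 2) ^ (d + 1) := ⟨_, rfl⟩
  have hA1 : 1 ≤ A := by rw [hA]; exact one_le_pow₀ (by linarith)
  rw [← hA] at hE ⊢
  rw [mul_assoc A] at hE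
  have k5 := mul_le_mul_of_nonneg_left k2 (by linarith : 0 ≤ A)
  have k6 : z / 2 ≤ A * (z / 2) := le_mul_of_one_le_left (by linarith) hA1
  have k7 : A * (1 - z / 2) = A - A * (z / 2) := by ring
  linarith

/-- For large `μ` the energy is close to the threshold. -/
theorem eventually_gt (d : ℕ) (hd : 1 ≤ d) {ε : ℝ} (hε : 0 < ε) :
    ∀ᶠ μ : ℝ in atTop, ∀ (lam En : ℝ) (u m e : ℝ → ℝ),
    Sol d lam μ En u m e → ((d:ℝ) + 2) ^ (d + 1) - ε < En := by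
  have hnp := np_pos d
  have hX : Tendsto (fun μ : ℝ => μ ^ np d) atTop atTop := tendsto_rpow_atTop hnp
  have e1 : Tendsto (fun μ : ℝ => ((d:ℝ) + 2) * Real.log μ / μ ^ np d) atTop (𝓝 0) :=
    log_small ((d:ℝ) + 2) (np d) hnp
  have e2 : Tendsto (fun μ : ℝ => ((d:ℝ) + 3) / μ ^ np d) atTop (𝓝 0) :=
    hX.const_div_atTop _
  have e3 : Tendsto (fun μ : ℝ => ((d:ℝ) + 2) ^ (d + 1) * ((1 - (d + 2) * Real.log μ / μ ^ np d) *
      (1 - (d + 3) / μ ^ np d) ^ (d + 1))) atTop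
      (𝓝 (((d:ℝ) + 2) ^ (d + 1) * ((1 - 0) * (1 - 0) ^ (d + 1)))) :=
    ((e1.const_sub 1).mul ((e2.const_sub 1).pow (d + 1))).const_mul _
  have e4 : ((d:ℝ) + 2) ^ (d + 1) - ε <
      ((d:ℝ) + 2) ^ (d + 1) * ((1 - 0) * (1 - 0) ^ (d + 1)) := by
    simp; linarith
  filter_upwards [good_eventually d, e3.eventually (lt_mem_nhds e4)] with μ hG h1 lam En u m e h
  exact lt_of_lt_of_le h1 (h.En_lower hd hG)

end Pool.Agent.R217.NL
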