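import Pool.Agent.R217.NL.Defs
import Pool.Agent.R217.NL.Ode6

set_option autoImplicit false

open Filter Topology Set MeasureTheory
open scoped ENNReal InnerProductSpace

namespace Pool.Agent.R217.NL

variable {d : ℕ}

/-- The measure of the unit sphere. -/
noncomputable def sph (d : ℕ) : ℝ := (volume : Measure (E d)).toSphere.real univ

lemma sph_eq : sph d = ((d:ℝ) + 2) * volume.real (Metric.ball (0 : E d) 1) := by
  unfold sph
  rw [Measure.toSphere_real_apply_univ, finrank_euclideanSpace_fin]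
  push_cast
  ring

lemma sph_pos : 0 < sph d := by
  rw [sph_eq]
  have : 0 < volume.real (Metric.ball (0 : E d) 1) := by
    apply ENNReal.toReal_pos (Metric.measure_ball_pos volume (0 : E d) one_pos).ne'
      measure_ball_lt_top.ne
  positivity

lemma polar (h : ℝ → ℝ) : ∫ x in BB d, h ‖x‖ = sph d * ∫ r in Ioo (0:ℝ) 1, r ^ (d + 1) * h r := by
  have h1 : ∫ x in BB d, h ‖x‖ = ∫ x : E d, (Iio (1:ℝ)).indicator h ‖x‖ := by
    rw [BB, ← integral_indicator measurableSet_ball]
    congr 1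
    ext x
    simp [indicator, mem_ball_zero_iff]
  rw [h1, integral_fun_norm_addHaar, finrank_euclideanSpace_fin]
  have h2 : d + 2 - 1 = d + 1 := by omega
  rw [h2, sph_eq]
  have h3 : ∫ y in Ioi (0:ℝ), y ^ (d + 1) • (Iio (1:ℝ)).indicator h y =
      ∫ r in Ioo (0:ℝ) 1, r ^ (d + 1) * h r := by
    have : ∀ y : ℝ, y ^ (d + 1) • (Iio (1:ℝ)).indicator h y =
        (Iio (1:ℝ)).indicator (fun r => r ^ (d + 1) * h r) y := by
      intro y
      by_cases hy : y < 1 <;> simp [indicator, hy]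
    simp_rw [this]
    rw [setIntegral_indicator measurableSet_Iio]
    rfl
  rw [h3]
  simp only [nsmul_eq_mul, smul_eq_mul]
  push_cast
  ring

lemma hasFDerivAt_norm' {x : E d} (hx : x ≠ 0) :
    HasFDerivAt (fun y : E d => ‖y‖) (‖x‖⁻¹ • innerSL ℝ x) x := by
  have hx' : 0 < ‖x‖ := norm_pos_iff.2 hx
  have h := (hasStrictFDerivAt_norm_sq x).hasFDerivAt.sqrt (by positivity)
  have e : (fun y : E d => √(‖y‖ ^ 2)) = fun y => ‖y‖ := by
    funext y; exact Real.sqrt_sq (norm_nonneg y)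
  rw [e, Real.sqrt_sq hx'.le] at h
  refine h.congr_fderiv ?_
  ext y
  simp
  field_simp

/-- Gradient of a radial function. -/
lemma grad_radial {Θ : ℝ → ℝ} {θ : ℝ} {x : E d} (hx : x ≠ 0) (h : HasDerivAt Θ θ ‖x‖) :
    HasGradientAt (fun y : E d => Θ ‖y‖) ((θ / ‖x‖) • x) x := by
  rw [hasGradientAt_iff_hasFDerivAt]
  have h1 := h.comp_hasFDerivAt x (hasFDerivAt_norm' hx)
  refine h1.congr_fderiv ?_
  ext y
  simp [InnerProductSpace.toDual_apply_apply, inner_smul_left, div_eq_mul_inv]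
  ring

/-- A radial test function with prescribed derivative. -/
lemma exists_test {ψ : ℝ → ℝ} (hψ : ContDiff ℝ (⊤ : ℕ∞) ψ) (hc : HasCompactSupport ψ)
    (hs : tsupport ψ ⊆ Ioo 0 1) :
    ∃ Θ : ℝ → ℝ, (∀ r, HasDerivAt Θ (ψ r) r) ∧ IsTest d (fun x => Θ ‖x‖) ∧
      (∀ x : E d, gradient (fun x : E d => Θ ‖x‖) x = (ψ ‖x‖ / ‖x‖) • x) ∧
      ∃ b ∈ Ioo (0:ℝ) 1, ∀ r, b ≤ r → Θ r = 0 ∧ ψ r = 0 := by
  -- the support
  obtain ⟨a, b, ha, hab, hb, hK⟩ : ∃ a b : ℝ, 0 < a ∧ a < b ∧ b < 1 ∧ tsupport ψ ⊆ Ioo a b := by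
    rcases (tsupport ψ).eq_empty_or_nonempty with he | hne
    · exact ⟨1/4, 1/2, by norm_num, by norm_num, by norm_num, by rw [he]; exact empty_subset _⟩
    · obtain ⟨p, hp, hp2⟩ := hc.isCompact.exists_isMinOn hne continuousOn_id
      obtain ⟨q, hq, hq2⟩ := hc.isCompact.exists_isMaxOn hne continuousOn_id
      have hp3 := hs hp
      have hq3 := hs hq
      have hpq : p ≤ q := hp2 hq
      refine ⟨p / 2, (q + 1) / 2, by linarith [hp3.1], by linarith [hp3.1, hq3.2],
        by linarith [hq3.2], ?_⟩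
      intro x hx
      have h1 : p ≤ x := hp2 hx
      have h2 : x ≤ q := hq2 hx
      exact ⟨by linarith [hp3.1], by linarith [hq3.2]⟩
  have hz : ∀ r, r ∉ Ioo a b → ψ r = 0 := fun r hr => image_eq_zero_of_notMem_tsupport
    (fun h => hr (hK h))
  obtain ⟨c, hcc⟩ : ∃ c, c = ∫ t in (0:ℝ)..1, ψ t := ⟨_, rfl⟩
  obtain ⟨Θ, hΘ⟩ : ∃ Θ : ℝ → ℝ, ∀ r, Θ r = (∫ t in (0:ℝ)..r, ψ t) - c := ⟨_, fun r => rfl⟩
  have hΘd : ∀ r, HasDerivAt Θ (ψ r) r := by
    intro r
    have e : Θ = fun r => (∫ t in (0:ℝ)..r, ψ t) - c := funext hΘ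
    rw [e]
    exact (hψ.continuous.integral_hasStrictDerivAt 0 r).hasDerivAt.sub_const c
  have hΘ0 : ∀ r, r ≤ a → Θ r = -c := by
    intro r hr
    rw [hΘ]
    have : ∫ t in (0:ℝ)..r, ψ t = ∫ t in (0:ℝ)..r, (0:ℝ) := by
      apply intervalIntegral.integral_congr
      intro t ht
      apply hz
      intro h
      have : t ≤ max 0 r := ht.2
      have h2 : max 0 r ≤ a := max_le ha.le hr
      linarith [h.1]
    rw [this]; simp
  have hΘ1 : ∀ r, b ≤ r → Θ r = 0 := by
    intro r hr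
    rw [hΘ, hcc]
    have h1 : ∫ t in (1:ℝ)..r, ψ t = ∫ t in (1:ℝ)..r, (0:ℝ) := by
      apply intervalIntegral.integral_congr
      intro t ht
      apply hz
      intro h
      have : min 1 r ≤ t := ht.1
      have h2 : b ≤ min 1 r := le_min hb.le hr
      linarith [h.2]
    rw [← intervalIntegral.integral_add_adjacent_intervals
      (hψ.continuous.intervalIntegrable 0 1) (hψ.continuous.intervalIntegrable 1 r), h1]
    simp
  have hΘs : ContDiff ℝ (⊤ : ℕ∞) Θ := by
    rw [contDiff_infty_iff_deriv]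
    refine ⟨fun r => (hΘd r).differentiableAt, ?_⟩
    have : deriv Θ = ψ := funext fun r => (hΘd r).deriv
    rw [this]
    exact hψ
  have hnear : ∀ x : E d, ‖x‖ < a → (fun y : E d => Θ ‖y‖) =ᶠ[𝓝 x] fun _ => -c := by
    intro x hx
    filter_upwards [(isOpen_lt continuous_norm continuous_const).mem_nhds hx] with y hy
    exact hΘ0 _ (le_of_lt hy)
  refine ⟨Θ, hΘd, ⟨?_, ?_, ?_⟩, ?_, b, ⟨by linarith, hb⟩, fun r hr => ⟨hΘ1 r hr, hz r (fun h => ?_)⟩⟩
  · rw [contDiff_iff_contDiffAt]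
    intro x
    by_cases hx : x = 0
    · subst hx
      exact (contDiffAt_const (c := -c)).congr_of_eventuallyEq (hnear 0 (by simpa using ha))
    · exact hΘs.contDiffAt.comp x (contDiffAt_norm ℝ hx)
  · apply HasCompactSupport.intro (isCompact_closedBall (0 : E d) b)
    intro x hx
    apply hΘ1
    rw [mem_closedBall_zero_iff] at hx
    push Not at hx
    exact hx.le
  · have : tsupport (fun x : E d => Θ ‖x‖) ⊆ Metric.closedBall 0 b := by
      apply closure_minimal _ Metric.isClosed_closedBall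
      intro x hx
      rw [mem_closedBall_zero_iff]
      by_contra hc
      push Not at hc
      exact hx (hΘ1 _ hc.le)
    intro x hx
    have := this hx
    rw [mem_closedBall_zero_iff] at this
    rw [BB, mem_ball_zero_iff]
    linarith
  · intro x
    by_cases hx : x = 0
    · subst hx
      have h1 := (hasGradientAt_const (0 : E d) (-c)).congr_of_eventuallyEq
        (hnear 0 (by simpa using ha))
      rw [h1.gradient]; simp
    · exact (grad_radial hx (hΘd _)).gradient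
  · linarith [h.2]

end Pool.Agent.R217.NL
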