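import Pool.Agent.R217.NL.Red1

set_option autoImplicit false

open Filter Topology Set MeasureTheory
open scoped ENNReal InnerProductSpace

namespace Pool.Agent.R217.NL

variable {d : ℕ} {u : E d → ℝ} {G : E d → E d} {w : ℝ → ℝ} {lam : ℝ}

/-- The profile of a radial Sobolev function. -/
structure Prof (d : ℕ) (u : E d → ℝ) (G : E d → E d) (w : ℝ → ℝ) : Prop where
  meas : Measurable w
  grad : ∀ᵐ x ∂(volume.restrict (BB d)), G x = (w ‖x‖ / ‖x‖) • x
  int : ∀ r ∈ Ioo (0:ℝ) 1, IntervalIntegrable w volume r 1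
  val : ∀ x ∈ BB d, x ≠ 0 → u x = -∫ t in ‖x‖..1, w t
  en : IntegrableOn (fun r => r ^ (d + 1) * |w r| ^ (d + 2)) (Ioo 0 1)

/-- A unit vector. -/
noncomputable def e0 (d : ℕ) : E d := EuclideanSpace.single 0 1

lemma norm_e0 : ‖e0 d‖ = 1 := by unfold e0; simp

/-- The profile of `u`. -/
noncomputable def UU (d : ℕ) (u : E d → ℝ) (r : ℝ) : ℝ := u (r • e0 d)

lemma norm_smul_e0 (r : ℝ) : ‖r • e0 d‖ = |r| := by rw [norm_smul, norm_e0, mul_one]; rfl

lemma mem_e0 {r : ℝ} (hr : r ∈ Ioo (-1:ℝ) 1) : r • e0 d ∈ BB d := by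
  rw [BB, mem_ball_zero_iff, norm_smul_e0, abs_lt]; exact hr

lemma UU_cont (hu : ContinuousOn u (BB d)) : ContinuousOn (UU d u) (Ioo (-1) 1) := by
  apply hu.comp (by fun_prop)
  intro r hr
  exact mem_e0 hr

lemma UU_eq (h : IsSol d lam u G) {x : E d} (hx : x ∈ BB d) : u x = UU d u ‖x‖ := by
  have h1 : ‖x‖ < 1 := by rwa [BB, mem_ball_zero_iff] at hx
  have h2 := norm_nonneg x
  apply h.radial x hx _ (mem_e0 ⟨by linarith, h1⟩)
  rw [norm_smul_e0, abs_of_nonneg h2]

lemma UU_val (hP : Prof d u G w) {r : ℝ} (hr : r ∈ Ioo (0:ℝ) 1) : UU d u r = -∫ t in r..1, w t := by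
  unfold UU
  rw [hP.val _ (mem_e0 ⟨by linarith [hr.1], hr.2⟩), norm_smul_e0, abs_of_pos hr.1]
  intro h
  have := norm_smul_e0 (d := d) r
  rw [h, norm_zero, abs_of_pos hr.1] at this
  linarith [hr.1]

lemma UU_pos (h : IsSol d lam u G) {r : ℝ} (hr : r ∈ Ioo (-1:ℝ) 1) : 0 < UU d u r :=
  h.pos _ (mem_e0 hr)

/-- The radial density. -/
noncomputable def kk (d : ℕ) (u : E d → ℝ) (r : ℝ) : ℝ := r ^ (d + 1) * rhs d (UU d u r)

/-- Its primitive. -/
noncomputable def FF (d : ℕ) (u : E d → ℝ) (r : ℝ) : ℝ := ∫ t in (0:ℝ)..r, kk d u t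

lemma rhs_cont : Continuous (rhs d) := by
  unfold rhs
  refine (continuous_id.pow _).mul (Real.continuous_exp.comp ?_)
  exact Real.continuous_rpow_const (by positivity)

lemma rhs_pos {t : ℝ} (ht : 0 < t) : 0 < rhs d t := by unfold rhs; positivity

lemma kk_cont (hu : ContinuousOn u (BB d)) : ContinuousOn (kk d u) (Ioo (-1) 1) :=
  (continuous_pow _).continuousOn.mul (rhs_cont.comp_continuousOn (UU_cont hu))

lemma kk_pos (h : IsSol d lam u G) {r : ℝ} (hr : r ∈ Ioo (0:ℝ) 1) : 0 < kk d u r :=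
  mul_pos (pow_pos hr.1 _) (rhs_pos (UU_pos h ⟨by linarith [hr.1], hr.2⟩))

lemma kk_int (hu : ContinuousOn u (BB d)) {r : ℝ} (hr : r ∈ Ioo (-1:ℝ) 1) :
    IntervalIntegrable (kk d u) volume 0 r := by
  apply ContinuousOn.intervalIntegrable
  apply (kk_cont hu).mono
  intro t ht
  rcases le_total 0 r with h0 | h0
  · rw [uIcc_of_le h0] at ht
    exact ⟨by linarith [ht.1], by linarith [ht.2, hr.2]⟩
  · rw [uIcc_of_ge h0] at ht
    exact ⟨by linarith [ht.1, hr.1], by linarith [ht.2]⟩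

lemma FF_deriv (hu : ContinuousOn u (BB d)) {r : ℝ} (hr : r ∈ Ioo (-1:ℝ) 1) :
    HasDerivAt (FF d u) (kk d u r) r :=
  intervalIntegral.integral_hasDerivAt_right (kk_int hu hr)
    ((kk_cont hu).stronglyMeasurableAtFilter isOpen_Ioo r hr)
    ((kk_cont hu).continuousAt (isOpen_Ioo.mem_nhds hr))

lemma FF_cont (hu : ContinuousOn u (BB d)) : ContinuousOn (FF d u) (Ioo (-1) 1) :=
  fun _ hr => (FF_deriv hu hr).continuousAt.continuousWithinAt

lemma FF_zero : FF d u 0 = 0 := by unfold FF; simp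

lemma FF_pos (h : IsSol d lam u G) {r : ℝ} (hr : r ∈ Ioo (0:ℝ) 1) : 0 < FF d u r := by
  apply intervalIntegral.intervalIntegral_pos_of_pos_on (kk_int h.cont ⟨by linarith [hr.1], hr.2⟩)
    _ hr.1
  intro t ht
  exact kk_pos h ⟨ht.1, lt_trans ht.2 hr.2⟩

/-- Integration by parts. -/
lemma ibp (hu : ContinuousOn u (BB d)) {ψ Θ : ℝ → ℝ} (hψ : Continuous ψ)
    (hΘ : ∀ r, HasDerivAt Θ (ψ r) r) {b : ℝ} (hb : b ∈ Ioo (0:ℝ) 1)
    (hz : ∀ r, b ≤ r → Θ r = 0 ∧ ψ r = 0) :
    ∫ r in Ioo (0:ℝ) 1, kk d u r * Θ r = -∫ r in Ioo (0:ℝ) 1, FF d u r * ψ r := by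
  have hΘc : Continuous Θ := continuous_iff_continuousAt.2 fun r => (hΘ r).continuousAt
  have hsub : ∀ t ∈ uIcc 0 b, t ∈ Ioo (-1:ℝ) 1 := by
    intro t ht
    rw [uIcc_of_le hb.1.le] at ht
    exact ⟨by linarith [ht.1], by linarith [ht.2, hb.2]⟩
  have e1 : ∀ f : ℝ → ℝ, (∀ r, b ≤ r → f r = 0) →
      ∫ r in Ioo (0:ℝ) 1, f r = ∫ r in (0:ℝ)..b, f r := by
    intro f hf
    rw [intervalIntegral.integral_of_le hb.1.le]
    symm
    have h1 : ∫ r in Ioc 0 b, f r = ∫ r in Ioo 0 1, f r := by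
      symm
      apply setIntegral_eq_of_subset_of_forall_sdiff_eq_zero measurableSet_Ioo
      · intro t ht
        exact ⟨ht.1, lt_of_le_of_lt ht.2 hb.2⟩
      · intro t ht
        apply hf
        by_contra hc
        push Not at hc
        exact ht.2 ⟨ht.1.1, hc.le⟩
    exact h1
  rw [e1 _ (fun r hr => by rw [(hz r hr).1, mul_zero]),
    e1 _ (fun r hr => by rw [(hz r hr).2, mul_zero])]
  have i1 : IntervalIntegrable (fun r => kk d u r * Θ r) volume 0 b := by
    apply ContinuousOn.intervalIntegrable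
    exact ((kk_cont hu).mono hsub).mul hΘc.continuousOn
  have i2 : IntervalIntegrable (fun r => FF d u r * ψ r) volume 0 b := by
    apply ContinuousOn.intervalIntegrable
    exact ((FF_cont hu).mono hsub).mul hψ.continuousOn
  have h2 := intervalIntegral.integral_eq_sub_of_hasDerivAt
    (fun t ht => (FF_deriv hu (hsub t ht)).mul (hΘ t)) (i1.add i2)
  rw [intervalIntegral.integral_add i1 i2] at h2
  simp only [Pi.mul_apply] at h2
  rw [FF_zero, (hz b le_rfl).1] at h2
  linarith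

lemma grad_pair (hP : Prof d u G w) {ψ : ℝ → ℝ} :
    ∫ x in BB d, ‖G x‖ ^ d * ⟪G x, (ψ ‖x‖ / ‖x‖) • x⟫_ℝ =
      ∫ x in BB d, |w ‖x‖| ^ d * (w ‖x‖ * ψ ‖x‖) := by
  apply integral_congr_ae
  have h0 : ∀ᵐ x : E d ∂(volume.restrict (BB d)), x ≠ 0 := by
    apply ae_restrict_of_ae
    exact compl_mem_ae_iff.2 (measure_singleton 0)
  filter_upwards [hP.grad, h0] with x hx hx0
  have hn : 0 < ‖x‖ := norm_pos_iff.2 hx0
  rw [hx, norm_smul, inner_smul_left, inner_smul_right, real_inner_self_eq_norm_sq]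
  have e1 : ‖w ‖x‖ / ‖x‖‖ * ‖x‖ = |w ‖x‖| := by
    rw [Real.norm_eq_abs, abs_div, abs_of_pos hn]; field_simp
  rw [e1]
  have e2 : w ‖x‖ / ‖x‖ * (ψ ‖x‖ / ‖x‖ * ‖x‖ ^ 2) = w ‖x‖ * ψ ‖x‖ := by field_simp
  rw [starRingEnd_apply, star_trivial, e2]

/-- The weak radial identity. -/
lemma weak_radial (h : IsSol d lam u G) (hP : Prof d u G w) {ψ : ℝ → ℝ}
    (hψ : ContDiff ℝ (⊤ : ℕ∞) ψ) (hc : HasCompactSupport ψ) (hs : tsupport ψ ⊆ Ioo 0 1) :
    ∫ r in Ioo (0:ℝ) 1, r ^ (d + 1) * (|w r| ^ d * (w r * ψ r)) =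
      -(lam * ∫ r in Ioo (0:ℝ) 1, FF d u r * ψ r) := by
  obtain ⟨Θ, hΘ, hT, hg, b, hb, hz⟩ := exists_test (d := d) hψ hc hs
  have h1 := h.weak _ hT
  simp_rw [hg] at h1
  rw [grad_pair hP] at h1
  have h2 : ∫ x in BB d, rhs d (u x) * Θ ‖x‖ = ∫ x in BB d, rhs d (UU d u ‖x‖) * Θ ‖x‖ := by
    apply setIntegral_congr_fun measurableSet_ball
    intro x hx
    simp only [UU_eq h hx]
  rw [h2, polar (fun r => |w r| ^ d * (w r * ψ r)), polar (fun r => rhs d (UU d u r) * Θ r)] at h1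
  have h3 : ∫ r in Ioo (0:ℝ) 1, r ^ (d + 1) * (rhs d (UU d u r) * Θ r) =
      -∫ r in Ioo (0:ℝ) 1, FF d u r * ψ r := by
    rw [← ibp h.cont hψ.continuous hΘ hb hz]
    congr 1
    ext r
    unfold kk
    ring
  rw [h3] at h1
  have hsp := sph_pos (d := d)
  have h4 : sph d * (∫ r in Ioo (0:ℝ) 1, r ^ (d + 1) * (|w r| ^ d * (w r * ψ r))) =
      sph d * (-(lam * ∫ r in Ioo (0:ℝ) 1, FF d u r * ψ r)) := by
    rw [h1]; ring
  exact mul_left_cancel₀ hsp.ne' h4

lemma w_int (hP : Prof d u G w) :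
    IntegrableOn (fun r => r ^ (d + 1) * (|w r| ^ d * w r)) (Ioo 0 1) := by
  have h1 : IntegrableOn (fun r : ℝ => 1 + r ^ (d + 1) * |w r| ^ (d + 2)) (Ioo 0 1) := by
    apply Integrable.add _ hP.en
    exact integrableOn_const (by simp)
  refine Integrable.mono' h1 ?_ ?_
  · have := hP.meas
    exact Measurable.aestronglyMeasurable (by fun_prop)
  · filter_upwards [ae_restrict_mem measurableSet_Ioo] with r hr
    rw [norm_mul, norm_mul, norm_pow, norm_pow, Real.norm_eq_abs, Real.norm_eq_abs,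
      Real.norm_eq_abs, abs_abs, abs_of_pos hr.1]
    have e : |w r| ^ d * |w r| = |w r| ^ (d + 1) := by ring
    rw [e]
    have h2 : r ^ (d + 1) ≤ 1 := pow_le_one₀ hr.1.le hr.2.le
    have h3 : 0 < r ^ (d + 1) := pow_pos hr.1 _
    have h4 := abs_nonneg (w r)
    rcases le_total (|w r|) 1 with h5 | h5
    · have h6 : |w r| ^ (d + 1) ≤ 1 := pow_le_one₀ h4 h5
      have h7 : 0 ≤ r ^ (d + 1) * |w r| ^ (d + 2) := by positivity
      have h8 : 0 ≤ |w r| ^ (d + 1) := by positivity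
      nlinarith
    · have h6 : |w r| ^ (d + 1) ≤ |w r| ^ (d + 2) := pow_le_pow_right₀ h5 (by omega)
      nlinarith

/-- The radial equation in integrated form. -/
lemma ae_ident (h : IsSol d lam u G) (hP : Prof d u G w) :
    ∀ᵐ r : ℝ, r ∈ Ioo (0:ℝ) 1 → r ^ (d + 1) * (|w r| ^ d * w r) + lam * FF d u r = 0 := by
  have hF : ContinuousOn (FF d u) (Ioo 0 1) := (FF_cont h.cont).mono (fun r hr =>
    ⟨by linarith [hr.1], hr.2⟩)
  apply isOpen_Ioo.ae_eq_zero_of_integral_contDiff_smul_eq_zero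
  · apply LocallyIntegrableOn.add (w_int hP).locallyIntegrableOn
    exact (continuousOn_const.mul hF).locallyIntegrableOn measurableSet_Ioo
  · intro ψ hψ hc hs
    have hz : ∀ r, r ∉ Ioo (0:ℝ) 1 → ψ r = 0 := fun r hr => image_eq_zero_of_notMem_tsupport
      (fun h => hr (hs h))
    have h1 := weak_radial h hP hψ hc hs
    rw [← setIntegral_eq_integral_of_forall_compl_eq_zero (s := Ioo (0:ℝ) 1)
      (fun r hr => by rw [hz r hr, zero_smul])]
    obtain ⟨C, hC⟩ := hc.exists_bound_of_continuous hψ.continuous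
    have i1 : IntegrableOn (fun r => r ^ (d + 1) * (|w r| ^ d * (w r * ψ r))) (Ioo 0 1) := by
      have := (w_int hP).mul_bdd (c := C) hψ.continuous.aestronglyMeasurable
        (ae_of_all _ hC)
      refine this.congr (ae_of_all _ fun r => ?_)
      simp only []
      ring
    have i2 : IntegrableOn (fun r => lam * (FF d u r * ψ r)) (Ioo 0 1) := by
      apply Integrable.const_mul
      have h5 : Integrable (fun r => FF d u r * ψ r) := by
        have hc2 : Continuous (fun r => FF d u r * ψ r) := by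
          rw [continuous_iff_continuousAt]
          intro r
          by_cases hr : r ∈ tsupport ψ
          · exact ((FF_deriv h.cont ⟨by linarith [(hs hr).1], (hs hr).2⟩).continuousAt).mul
              hψ.continuous.continuousAt
          · have : (fun r => FF d u r * ψ r) =ᶠ[𝓝 r] fun _ => 0 := by
              filter_upwards [(isClosed_tsupport ψ).isOpen_compl.mem_nhds hr] with t ht
              rw [image_eq_zero_of_notMem_tsupport ht, mul_zero]
            exact (continuousAt_const).congr this.symm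
        exact hc2.integrable_of_hasCompactSupport hc.mul_left
      exact h5.integrableOn
    have e : ∀ r, ψ r • (r ^ (d + 1) * (|w r| ^ d * w r) + lam * FF d u r) =
        r ^ (d + 1) * (|w r| ^ d * (w r * ψ r)) + lam * (FF d u r * ψ r) := by
      intro r; simp only [smul_eq_mul]; ring
    simp_rw [e]
    rw [integral_add i1 i2, h1, integral_const_mul]
    ring

/-- The rescaled flux. -/
noncomputable def MM (d : ℕ) (lam : ℝ) (u : E d → ℝ) (r : ℝ) : ℝ := (lam * FF d u r) ^ qq d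

lemma MM_pow (h : IsSol d lam u G) {r : ℝ} (hr : r ∈ Ioo (0:ℝ) 1) :
    MM d lam u r ^ (d + 1) = lam * FF d u r := by
  have h1 : 0 < lam * FF d u r := mul_pos h.lam_pos (FF_pos h hr)
  exact t_pow h1

lemma MM_pos (h : IsSol d lam u G) {r : ℝ} (hr : r ∈ Ioo (0:ℝ) 1) : 0 < MM d lam u r := by
  have h1 : 0 < lam * FF d u r := mul_pos h.lam_pos (FF_pos h hr)
  unfold MM
  positivity

lemma MM_cont (h : IsSol d lam u G) : ContinuousOn (MM d lam u) (Ioo (-1) 1) := by
  apply ContinuousOn.rpow_const ((FF_cont h.cont).const_smul lam)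
  intro r _
  exact Or.inr (qq_pos d).le

/-- `w = -M/r`. -/
lemma w_eq (h : IsSol d lam u G) (hP : Prof d u G w) :
    ∀ᵐ r : ℝ, r ∈ Ioo (0:ℝ) 1 → w r = -(MM d lam u r / r) := by
  filter_upwards [ae_ident h hP] with r hr hr1
  have h1 := hr hr1
  have hM := MM_pos h hr1
  have hr0 := hr1.1
  rw [← MM_pow h hr1] at h1
  have hw : w r < 0 := by
    by_contra hc
    push Not at hc
    have : 0 ≤ r ^ (d + 1) * (|w r| ^ d * w r) := by positivity
    have : 0 < MM d lam u r ^ (d + 1) := by positivity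
    linarith
  have h2 : (r * |w r|) ^ (d + 1) = MM d lam u r ^ (d + 1) := by
    rw [mul_pow, pow_succ |w r|]
    have : w r = -|w r| := by rw [abs_of_neg hw]; ring
    have e : r ^ (d + 1) * (|w r| ^ d * w r) = -(r ^ (d + 1) * (|w r| ^ d * |w r|)) := by
      conv_lhs => rw [this]
      simp
    linarith
  have h3 : r * |w r| = MM d lam u r := by
    have := abs_nonneg (w r)
    exact (pow_left_inj₀ (by positivity) hM.le (by omega)).1 h2
  rw [← h3, abs_of_neg hw]
  field_simp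

lemma MM_int (h : IsSol d lam u G) (hP : Prof d u G w) {r : ℝ} (hr : r ∈ Ioo (0:ℝ) 1) :
    IntervalIntegrable (fun t => MM d lam u t / t) volume r 1 := by
  refine (hP.int r hr).neg.congr_ae ?_
  rw [uIoc_of_le hr.2.le]
  have h1 : ∀ᵐ t : ℝ, t ≠ 1 := compl_mem_ae_iff.2 (measure_singleton 1)
  rw [EventuallyEq, ae_restrict_iff' measurableSet_Ioc]
  filter_upwards [w_eq h hP, h1] with t ht ht1 ht2
  have : w t = -(MM d lam u t / t) := ht ⟨lt_trans hr.1 ht2.1, lt_of_le_of_ne ht2.2 ht1⟩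
  simp only [Pi.neg_apply]
  rw [this]; ring

lemma UU_val2 (h : IsSol d lam u G) (hP : Prof d u G w) {r : ℝ} (hr : r ∈ Ioo (0:ℝ) 1) :
    UU d u r = ∫ t in r..1, MM d lam u t / t := by
  rw [UU_val hP hr, ← intervalIntegral.integral_neg]
  apply intervalIntegral.integral_congr_ae
  have h1 : ∀ᵐ t : ℝ, t ≠ 1 := compl_mem_ae_iff.2 (measure_singleton 1)
  filter_upwards [w_eq h hP, h1] with t ht ht1 ht2
  rw [uIoc_of_le hr.2.le] at ht2
  rw [ht ⟨lt_trans hr.1 ht2.1, lt_of_le_of_ne ht2.2 ht1⟩]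
  ring

lemma UU_deriv (h : IsSol d lam u G) (hP : Prof d u G w) {r : ℝ} (hr : r ∈ Ioo (0:ℝ) 1) :
    HasDerivAt (UU d u) (-(MM d lam u r / r)) r := by
  have hc : ContinuousOn (fun t => MM d lam u t / t) (Ioo 0 1) := by
    apply ((MM_cont h).mono (fun r hr => ⟨by linarith [hr.1], hr.2⟩)).div continuousOn_id
    intro x hx
    exact hx.1.ne'
  have h1 := intervalIntegral.integral_hasDerivAt_left (MM_int h hP hr)
    (hc.stronglyMeasurableAtFilter isOpen_Ioo r hr) (hc.continuousAt (isOpen_Ioo.mem_nhds hr))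
  refine h1.congr_of_eventuallyEq ?_
  filter_upwards [isOpen_Ioo.mem_nhds hr] with t ht
  exact UU_val2 h hP ht

/-- The energy density. -/
noncomputable def ee (d : ℕ) (lam : ℝ) (u : E d → ℝ) (t : ℝ) : ℝ := MM d lam u t ^ (d + 2) / t

lemma ee_cont (h : IsSol d lam u G) : ContinuousOn (ee d lam u) (Ioo 0 1) := by
  unfold ee
  apply (((MM_cont h).mono (fun r hr => ⟨by linarith [hr.1], hr.2⟩)).pow _).div continuousOn_id
  intro x hx
  exact hx.1.ne'

lemma ee_ae (h : IsSol d lam u G) (hP : Prof d u G w) :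
    ∀ᵐ r : ℝ, r ∈ Ioo (0:ℝ) 1 → r ^ (d + 1) * |w r| ^ (d + 2) = ee d lam u r := by
  filter_upwards [w_eq h hP] with r hr hr1
  have hM := MM_pos h hr1
  have hr0 := hr1.1
  rw [hr hr1, abs_neg, abs_of_pos (by positivity)]
  unfold ee
  rw [div_pow]
  field_simp
  ring

lemma ee_int (h : IsSol d lam u G) (hP : Prof d u G w) :
    IntervalIntegrable (ee d lam u) volume 0 1 := by
  rw [intervalIntegrable_iff_integrableOn_Ioo_of_le zero_le_one]
  refine hP.en.congr ?_
  rw [EventuallyEq, ae_restrict_iff' measurableSet_Ioo]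
  exact ee_ae h hP

lemma energy_eq (h : IsSol d lam u G) (hP : Prof d u G w) :
    energy d G = sph d * ∫ t in (0:ℝ)..1, ee d lam u t := by
  have h1 : energy d G = ∫ x in BB d, |w ‖x‖| ^ (d + 2) := by
    unfold energy
    apply integral_congr_ae
    have h0 : ∀ᵐ x : E d ∂(volume.restrict (BB d)), x ≠ 0 := by
      apply ae_restrict_of_ae
      exact compl_mem_ae_iff.2 (measure_singleton 0)
    filter_upwards [hP.grad, h0] with x hx hx0
    have hn : 0 < ‖x‖ := norm_pos_iff.2 hx0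
    rw [hx, norm_smul, Real.norm_eq_abs, abs_div, abs_of_pos hn]
    congr 1
    field_simp
  rw [h1, polar (fun r => |w r| ^ (d + 2)), intervalIntegral.integral_of_le zero_le_one,
    ← integral_Ioc_eq_integral_Ioo]
  congr 1
  apply integral_congr_ae
  have h2 : ∀ᵐ t : ℝ, t ≠ 1 := compl_mem_ae_iff.2 (measure_singleton 1)
  rw [EventuallyEq, ae_restrict_iff' measurableSet_Ioc]
  filter_upwards [ee_ae h hP, h2] with t ht ht1 ht2
  exact ht ⟨ht2.1, lt_of_le_of_ne ht2.2 ht1⟩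

lemma exp_lt_one' {s : ℝ} (hs : s < 0) : Real.exp s < 1 := by
  rw [← Real.exp_zero]; exact Real.exp_lt_exp.2 hs

lemma exp_mem {s : ℝ} (hs : s < 0) : Real.exp s ∈ Ioo (0:ℝ) 1 :=
  ⟨Real.exp_pos s, exp_lt_one' hs⟩

lemma exp_tend : Tendsto Real.exp (𝓝[<] 0) (𝓝[Icc (1/2) 1] 1) := by
  rw [tendsto_nhdsWithin_iff]
  constructor
  · have := (Real.continuous_exp.tendsto 0).mono_left (nhdsWithin_le_nhds (s := Iio 0))
    simpa using this
  · have h1 : ∀ᶠ s : ℝ in 𝓝 0, 1 / 2 < Real.exp s := by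
      have := Real.continuous_exp.tendsto 0
      rw [Real.exp_zero] at this
      exact this.eventually (lt_mem_nhds (by norm_num))
    filter_upwards [nhdsWithin_le_nhds h1, self_mem_nhdsWithin] with s hs hs2
    exact ⟨hs.le, (exp_lt_one' hs2).le⟩

/-- The radial solution in logarithmic variable. -/
theorem to_Sol (h : IsSol d lam u G) (hP : Prof d u G w) :
    Sol d lam (u 0) (∫ t in (0:ℝ)..1, ee d lam u t) (fun s => UU d u (Real.exp s))
      (fun s => MM d lam u (Real.exp s)) (fun s => ∫ t in (0:ℝ)..Real.exp s, ee d lam u t) := by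
  have hI1 : ∀ r ∈ Ioo (0:ℝ) 1, r ∈ Ioo (-1:ℝ) 1 := fun r hr => ⟨by linarith [hr.1], hr.2⟩
  refine ⟨h.lam_pos, fun s hs => UU_pos h (hI1 _ (exp_mem hs)), fun s hs => MM_pos h (exp_mem hs),
    ?_, ?_, ?_, ?_, ?_, ?_, ?_, ?_⟩
  · intro s hs
    have h1 := (UU_deriv h hP (exp_mem hs)).comp s (Real.hasDerivAt_exp s)
    refine h1.congr_deriv ?_
    have := Real.exp_pos s
    field_simp
  · intro s hs
    have h1 := ((FF_deriv h.cont (hI1 _ (exp_mem hs))).comp s (Real.hasDerivAt_exp s)).const_mul lam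
    have e : (fun s => MM d lam u (Real.exp s) ^ (d + 1)) =ᶠ[𝓝 s]
        fun s => lam * (FF d u ∘ Real.exp) s := by
      filter_upwards [gt_mem_nhds hs] with t ht
      exact MM_pow h (exp_mem ht)
    refine (h1.congr_of_eventuallyEq e).congr_deriv ?_
    unfold PP kk rhs np
    have e2 : Real.exp (((d:ℝ) + 2) * s) = Real.exp s ^ (d + 1) * Real.exp s := by
      rw [← Real.exp_nat_mul, ← Real.exp_add]
      congr 1
      push_cast
      ring
    rw [e2]
    ring
  · intro s hs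
    have h1 : HasDerivAt (fun r => ∫ t in (0:ℝ)..r, ee d lam u t) (ee d lam u (Real.exp s))
        (Real.exp s) := by
      apply intervalIntegral.integral_hasDerivAt_right
      · apply (ee_int h hP).mono_set
        rw [uIcc_of_le (Real.exp_pos s).le, uIcc_of_le zero_le_one]
        exact Icc_subset_Icc_right (exp_mem hs).2.le
      · exact (ee_cont h).stronglyMeasurableAtFilter isOpen_Ioo _ (exp_mem hs)
      · exact (ee_cont h).continuousAt (isOpen_Ioo.mem_nhds (exp_mem hs))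
    have h2 := h1.comp s (Real.hasDerivAt_exp s)
    refine h2.congr_deriv ?_
    unfold ee
    have := Real.exp_pos s
    field_simp
  · have h1 : Tendsto (UU d u) (𝓝 0) (𝓝 (UU d u 0)) :=
      ((UU_cont h.cont).continuousAt (isOpen_Ioo.mem_nhds ⟨by norm_num, by norm_num⟩))
    have h2 : UU d u 0 = u 0 := by unfold UU; simp
    rw [h2] at h1
    exact h1.comp Real.tendsto_exp_atBot
  · have h1 : Tendsto (MM d lam u) (𝓝 0) (𝓝 (MM d lam u 0)) :=
      ((MM_cont h).continuousAt (isOpen_Ioo.mem_nhds ⟨by norm_num, by norm_num⟩))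
    have h2 : MM d lam u 0 = 0 := by
      unfold MM
      rw [FF_zero, mul_zero, Real.zero_rpow (qq_pos d).ne']
    rw [h2] at h1
    exact h1.comp Real.tendsto_exp_atBot
  · have h1 := intervalIntegral.continuousOn_primitive_interval' (ee_int h hP)
      (left_mem_uIcc (a := (0:ℝ)) (b := 1))
    have h2 : Tendsto (fun r => ∫ t in (0:ℝ)..r, ee d lam u t) (𝓝[uIcc 0 1] 0) (𝓝 0) := by
      have := h1 0 left_mem_uIcc
      unfold ContinuousWithinAt at this
      simpa using this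
    refine h2.comp ?_
    rw [tendsto_nhdsWithin_iff]
    refine ⟨Real.tendsto_exp_atBot, ?_⟩
    filter_upwards [eventually_le_atBot 0] with s hs
    rw [uIcc_of_le zero_le_one]
    exact ⟨(Real.exp_pos s).le, Real.exp_le_one_iff.2 hs⟩
  · have hhalf : (1/2:ℝ) ∈ Ioo (0:ℝ) 1 := ⟨by norm_num, by norm_num⟩
    have h1 := intervalIntegral.continuousOn_primitive_interval' (MM_int h hP hhalf)
      (right_mem_uIcc (a := (1/2:ℝ)) (b := 1))
    have h2 : Tendsto (fun r => ∫ t in (1:ℝ)..r, MM d lam u t / t) (𝓝[uIcc (1/2) 1] 1) (𝓝 0) := by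
      have := h1 1 right_mem_uIcc
      unfold ContinuousWithinAt at this
      simpa using this
    rw [uIcc_of_le (by norm_num)] at h2
    have h3 := (h2.comp exp_tend).neg
    rw [neg_zero] at h3
    refine h3.congr' ?_
    filter_upwards [self_mem_nhdsWithin] with s hs
    simp only [Function.comp_apply]
    rw [UU_val2 h hP (exp_mem hs), intervalIntegral.integral_symm]
    ring
  · have h1 := intervalIntegral.continuousOn_primitive_interval' (ee_int h hP)
      (left_mem_uIcc (a := (0:ℝ)) (b := 1))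
    have h2 : Tendsto (fun r => ∫ t in (0:ℝ)..r, ee d lam u t) (𝓝[uIcc 0 1] 1)
        (𝓝 (∫ t in (0:ℝ)..1, ee d lam u t)) := h1 1 right_mem_uIcc
    refine h2.comp (exp_tend.mono_right (nhdsWithin_mono _ ?_))
    rw [uIcc_of_le zero_le_one]
    exact Icc_subset_Icc_left (by norm_num)

end Pool.Agent.R217.NL
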