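import Pool.Agent.R217.NL.Red2

set_option autoImplicit false

open Filter Topology Set MeasureTheory
open scoped ENNReal InnerProductSpace

namespace Pool.Agent.R217.NL

variable {d : ℕ}

/-- The surface measure. -/
noncomputable abbrev sg (d : ℕ) : Measure (Metric.sphere (0 : E d) 1) :=
  (volume : Measure (E d)).toSphere

/-- Polar coordinates for the lower integral. -/
lemma lpolar {g : E d → ℝ≥0∞} (hg : Measurable g) :
    ∫⁻ x in BB d, g x = ∫⁻ r in Ioo (0:ℝ) 1, ENNReal.ofReal (r ^ (d + 1)) *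
      ∫⁻ ω, g (r • (ω : E d)) ∂(sg d) := by
  have hmp := (volume : Measure (E d)).measurePreserving_homeomorphUnitSphereProd
  obtain ⟨h, hh⟩ : ∃ h : E d → ℝ≥0∞, h = (BB d).indicator g := ⟨_, rfl⟩
  have hhm : Measurable h := by rw [hh]; exact hg.indicator measurableSet_ball
  have h0 : ∫⁻ x in BB d, g x = ∫⁻ x, h x := by
    rw [hh]; exact (lintegral_indicator measurableSet_ball g).symm
  have h1 : ∫⁻ x, h x = ∫⁻ x : ({0}ᶜ : Set (E d)), h x ∂(volume.comap Subtype.val) := by
    rw [lintegral_subtype_comap (measurableSet_singleton _).compl, restrict_compl_singleton]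
  obtain ⟨H, hH⟩ : ∃ H : Metric.sphere (0 : E d) 1 × Ioi (0:ℝ) → ℝ≥0∞,
      ∀ p, H p = h (p.2.1 • (p.1 : E d)) := ⟨_, fun p => rfl⟩
  have hHm : Measurable H := by
    have e : H = fun p => h (p.2.1 • (p.1 : E d)) := funext hH
    rw [e]
    exact hhm.comp (by fun_prop)
  have h2 : ∫⁻ x : ({0}ᶜ : Set (E d)), h x ∂(volume.comap Subtype.val) =
      ∫⁻ p, H p ∂((sg d).prod (Measure.volumeIoiPow (Module.finrank ℝ (E d) - 1))) := by
    rw [← hmp.lintegral_comp hHm]
    apply lintegral_congr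
    intro x
    rw [hH]
    have hx : ‖(x : E d)‖ ≠ 0 := norm_ne_zero_iff.2 x.2
    congr 1
    simp [hx]
  have h3 : Measure.volumeIoiPow (Module.finrank ℝ (E d) - 1) = Measure.volumeIoiPow (d + 1) := by
    rw [finrank_euclideanSpace_fin]; rfl
  rw [h0, h1, h2, h3, lintegral_prod_symm' _ hHm, Measure.volumeIoiPow,
    lintegral_withDensity_eq_lintegral_mul _ (by fun_prop) hHm.lintegral_prod_left']
  have h4 : ∀ r : Ioi (0:ℝ), ((fun r : Ioi (0:ℝ) => ENNReal.ofReal (r.1 ^ (d + 1))) * fun y =>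
      ∫⁻ x, H (x, y) ∂(sg d)) r = (fun s : ℝ => ENNReal.ofReal (s ^ (d + 1)) *
        ∫⁻ x, h (s • (x : E d)) ∂(sg d)) r := by
    intro r
    simp only [Pi.mul_apply]
    simp_rw [hH]
  rw [lintegral_congr h4]
  rw [lintegral_subtype_comap measurableSet_Ioi (fun s : ℝ => ENNReal.ofReal (s ^ (d + 1)) *
        ∫⁻ x, h (s • (x : E d)) ∂(sg d))]
  have h5 : ∀ s ∈ Ioi (0:ℝ), ENNReal.ofReal (s ^ (d + 1)) * ∫⁻ x, h (s • (x : E d)) ∂(sg d) =
      (Iio (1:ℝ)).indicator (fun s => ENNReal.ofReal (s ^ (d + 1)) *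
        ∫⁻ x, g (s • (x : E d)) ∂(sg d)) s := by
    intro s hs
    have hs0 : (0:ℝ) < s := hs
    have hn : ∀ x : Metric.sphere (0 : E d) 1, ‖s • (x : E d)‖ = s := by
      intro x
      rw [norm_smul, norm_eq_of_mem_sphere x, mul_one, Real.norm_eq_abs, abs_of_pos hs0]
    by_cases h1 : s < 1
    · rw [indicator_of_mem (by exact h1)]
      congr 1
      apply lintegral_congr
      intro x
      rw [hh, indicator_of_mem]
      rw [BB, mem_ball_zero_iff, hn]; exact h1
    · rw [indicator_of_notMem (by exact h1)]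
      have : ∀ x : Metric.sphere (0 : E d) 1, h (s • (x : E d)) = 0 := by
        intro x
        rw [hh, indicator_of_notMem]
        rw [BB, mem_ball_zero_iff, hn]; exact h1
      simp_rw [this]
      simp
  rw [setLIntegral_congr_fun measurableSet_Ioi h5, setLIntegral_indicator measurableSet_Iio]
  congr 2
  ext s
  simp [and_comm]

/-- Radial functions. -/
lemma lpolar_radial {g : ℝ → ℝ≥0∞} (hg : Measurable g) :
    ∫⁻ x in BB d, g ‖x‖ = (sg d) univ * ∫⁻ r in Ioo (0:ℝ) 1, ENNReal.ofReal (r ^ (d + 1)) * g r := by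
  rw [lpolar (g := fun x => g ‖x‖) (hg.comp measurable_norm),
    ← lintegral_const_mul _ (by fun_prop)]
  apply setLIntegral_congr_fun measurableSet_Ioo
  intro r hr
  have : ∀ ω : Metric.sphere (0 : E d) 1, g ‖r • (ω : E d)‖ = g r := by
    intro x
    rw [norm_smul, norm_eq_of_mem_sphere x, mul_one, Real.norm_eq_abs, abs_of_pos hr.1]
  simp_rw [this]
  rw [lintegral_const]
  ring

/-- Spherical means. -/
noncomputable def pm (d : ℕ) (φ : E d → ℝ) (r : ℝ) : ℝ := (sph d)⁻¹ * ∫ ω, φ (r • (ω : E d)) ∂(sg d)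

/-- Spherical means of the radial part of a vector field. -/
noncomputable def qm (d : ℕ) (G : E d → E d) (r : ℝ) : ℝ :=
  (sph d)⁻¹ * ∫ ω, ⟪G (r • (ω : E d)), (ω : E d)⟫_ℝ ∂(sg d)

lemma test_bound {φ : E d → ℝ} (h : IsTest d φ) : ∃ C, ∀ x, ‖fderiv ℝ φ x‖ ≤ C := by
  have hc : Continuous (fderiv ℝ φ) := h.1.continuous_fderiv (by simp)
  exact (h.2.1.fderiv (𝕜 := ℝ)).exists_bound_of_continuous hc

lemma grad_inner {φ : E d → ℝ} {x v : E d} : ⟪gradient φ x, v⟫_ℝ = fderiv ℝ φ x v := by
  unfold gradient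
  rw [InnerProductSpace.toDual_symm_apply]

lemma pm_deriv {φ : E d → ℝ} (h : IsTest d φ) (r : ℝ) :
    HasDerivAt (pm d φ) (qm d (gradient φ) r) r := by
  obtain ⟨C, hC⟩ := test_bound h
  have hdiff : Differentiable ℝ φ := h.1.differentiable (by simp)
  have hc : Continuous (fderiv ℝ φ) := h.1.continuous_fderiv (by simp)
  have h1 := hasDerivAt_integral_of_dominated_loc_of_deriv_le (μ := sg d) (x₀ := r) (s := univ)
    (F := fun s ω => φ (s • (ω : E d))) (F' := fun s ω => fderiv ℝ φ (s • (ω : E d)) (ω : E d))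
    (bound := fun _ => C) univ_mem ?_ ?_ ?_ ?_ ?_ ?_
  · have h2 := h1.2.const_mul (sph d)⁻¹
    unfold qm
    simp_rw [grad_inner]
    exact h2
  · refine Eventually.of_forall fun s => ?_
    apply Continuous.aestronglyMeasurable
    exact h.1.continuous.comp (by fun_prop)
  · have hcont : Continuous fun ω : Metric.sphere (0 : E d) 1 => φ (r • (ω : E d)) :=
      h.1.continuous.comp (by fun_prop)
    obtain ⟨C', hC'⟩ := h.2.1.exists_bound_of_continuous h.1.continuous
    exact Integrable.mono' (integrable_const C') hcont.aestronglyMeasurable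
      (ae_of_all _ fun ω => hC' _)
  · apply Continuous.aestronglyMeasurable
    have : Continuous fun ω : Metric.sphere (0 : E d) 1 => fderiv ℝ φ (r • (ω : E d)) :=
      hc.comp (by fun_prop)
    exact this.clm_apply continuous_subtype_val
  · refine ae_of_all _ fun ω s _ => ?_
    refine (ContinuousLinearMap.le_opNorm _ _).trans ?_
    rw [norm_eq_of_mem_sphere ω, mul_one]
    exact hC _
  · exact integrable_const C
  · refine ae_of_all _ fun ω s _ => ?_
    have h3 : HasDerivAt (fun s : ℝ => s • (ω : E d)) (ω : E d) s := by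
      simpa using (hasDerivAt_id s).smul_const (ω : E d)
    exact (hdiff _).hasFDerivAt.comp_hasDerivAt s h3

lemma qm_cont {φ : E d → ℝ} (h : IsTest d φ) : Continuous (qm d (gradient φ)) := by
  obtain ⟨C, hC⟩ := test_bound h
  have hc : Continuous (fderiv ℝ φ) := h.1.continuous_fderiv (by simp)
  unfold qm
  simp_rw [grad_inner]
  apply Continuous.mul continuous_const
  apply continuous_of_dominated (bound := fun _ => C)
  · intro s
    apply Continuous.aestronglyMeasurable
    have : Continuous fun ω : Metric.sphere (0 : E d) 1 => fderiv ℝ φ (s • (ω : E d)) :=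
      hc.comp (by fun_prop)
    exact this.clm_apply continuous_subtype_val
  · intro s
    refine ae_of_all _ fun ω => ?_
    refine (ContinuousLinearMap.le_opNorm _ _).trans ?_
    rw [norm_eq_of_mem_sphere ω, mul_one]
    exact hC _
  · exact integrable_const C
  · refine ae_of_all _ fun ω => ?_
    have : Continuous fun s : ℝ => fderiv ℝ φ (s • (ω : E d)) := hc.comp (by fun_prop)
    exact this.clm_apply continuous_const

lemma pm_one {φ : E d → ℝ} (h : IsTest d φ) : pm d φ 1 = 0 := by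
  unfold pm
  have : ∀ ω : Metric.sphere (0 : E d) 1, φ ((1:ℝ) • (ω : E d)) = 0 := by
    intro ω
    apply image_eq_zero_of_notMem_tsupport
    intro hx
    have := h.2.2 hx
    rw [BB, mem_ball_zero_iff, one_smul, norm_eq_of_mem_sphere ω] at this
    linarith
  simp_rw [this]
  simp

lemma pm_val {φ : E d → ℝ} (h : IsTest d φ) (r : ℝ) :
    pm d φ r = -∫ t in r..1, qm d (gradient φ) t := by
  rw [intervalIntegral.integral_eq_sub_of_hasDerivAt (fun t _ => pm_deriv h t)
    ((qm_cont h).intervalIntegrable _ _), pm_one h]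
  ring

/-- Integration by parts for the radialized function. -/
lemma ibp_radial {p q : ℝ → ℝ} (hp : ∀ r, HasDerivAt p (q r) r) (hq : Continuous q) {ψ : E d → ℝ}
    (hψ : ContDiff ℝ (⊤ : ℕ∞) ψ) (hc : HasCompactSupport ψ) (hs : (0 : E d) ∉ tsupport ψ) (v : E d) :
    ∫ x, p ‖x‖ * fderiv ℝ ψ x v = -∫ x, ((q ‖x‖ / ‖x‖) * ⟪x, v⟫_ℝ) * ψ x := by
  have hpc : Continuous p := continuous_iff_continuousAt.2 fun r => (hp r).continuousAt
  have hf : ∀ x : E d, x ≠ 0 → HasFDerivAt (fun x : E d => p ‖x‖)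
      (InnerProductSpace.toDual ℝ (E d) ((q ‖x‖ / ‖x‖) • x)) x := fun x hx =>
    (grad_radial hx (hp _)).hasFDerivAt
  have hne : ∀ x ∈ tsupport ψ, x ≠ 0 := fun x hx h0 => hs (h0 ▸ hx)
  have hψc : Continuous (fun x => fderiv ℝ ψ x v) :=
    (hψ.continuous_fderiv (by simp)).clm_apply continuous_const
  have e1 : ∀ x, fderiv ℝ (fun x : E d => p ‖x‖) x v * ψ x =
      ((q ‖x‖ / ‖x‖) * ⟪x, v⟫_ℝ) * ψ x := by
    intro x
    by_cases hx : x ∈ tsupport ψ
    · rw [(hf x (hne x hx)).fderiv]
      simp [InnerProductSpace.toDual_apply_apply]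
    · rw [image_eq_zero_of_notMem_tsupport hx]; simp
  have hcont : Continuous fun x : E d => ((q ‖x‖ / ‖x‖) * ⟪x, v⟫_ℝ) * ψ x := by
    rw [continuous_iff_continuousAt]
    intro x
    by_cases hx : x ∈ tsupport ψ
    · have hx0 : ‖x‖ ≠ 0 := norm_ne_zero_iff.2 (hne x hx)
      have c1 : ContinuousAt (fun x : E d => q ‖x‖ / ‖x‖) x :=
        ((hq.comp continuous_norm).continuousAt).div continuous_norm.continuousAt hx0
      have c2 : Continuous (fun x : E d => ⟪x, v⟫_ℝ) := by fun_prop
      exact (c1.mul c2.continuousAt).mul hψ.continuous.continuousAt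
    · have : (fun x : E d => ((q ‖x‖ / ‖x‖) * ⟪x, v⟫_ℝ) * ψ x) =ᶠ[𝓝 x] fun _ => 0 := by
        filter_upwards [(isClosed_tsupport ψ).isOpen_compl.mem_nhds hx] with t ht
        rw [image_eq_zero_of_notMem_tsupport ht, mul_zero]
      exact continuousAt_const.congr this.symm
  have h1 := integral_mul_fderiv_eq_neg_fderiv_mul_of_integrable (μ := (volume : Measure (E d)))
    (f := fun x : E d => p ‖x‖) (g := ψ) (v := v) ?_ ?_ ?_ ?_ ?_
  · simp_rw [e1] at h1
    exact h1
  · simp_rw [e1]
    exact hcont.integrable_of_hasCompactSupport hc.mul_left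
  · refine ((hpc.comp continuous_norm).mul hψc).integrable_of_hasCompactSupport ?_
    exact HasCompactSupport.mul_left (hc.fderiv_apply (𝕜 := ℝ) v)
  · exact ((hpc.comp continuous_norm).mul hψ.continuous).integrable_of_hasCompactSupport
      hc.mul_left
  · intro x hx
    exact (hf x (hne x hx)).differentiableAt
  · intro x _
    exact (hψ.differentiable (by simp)) x

end Pool.Agent.R217.NL
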