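import Pool.Agent.R217.NL.Red3

set_option autoImplicit false

open Filter Topology Set MeasureTheory
open scoped ENNReal InnerProductSpace

namespace Pool.Agent.R217.NL

variable {d : ℕ}

/-- Lebesgue measure on the ball. -/
noncomputable abbrev mB (d : ℕ) : Measure (E d) := volume.restrict (BB d)

lemma mB_univ : mB d univ < ⊤ := by
  rw [mB, Measure.restrict_apply_univ, BB]; exact measure_ball_lt_top

instance : IsFiniteMeasure (mB d) := ⟨mB_univ⟩

lemma L1_of_Ln {F : Type*} [NormedAddCommGroup F] {f : ℕ → E d → F}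
    (hf : ∀ j, AEStronglyMeasurable (f j) (mB d))
    (h : Tendsto (fun j => LnB d (f j)) atTop (𝓝 0)) :
    Tendsto (fun j => ∫⁻ x in BB d, ‖f j x‖ₑ) atTop (𝓝 0) := by
  have h1 : ∀ j, ∫⁻ x in BB d, ‖f j x‖ₑ ≤ LnB d (f j) *
      (mB d) univ ^ (1 / (1:ℝ≥0∞).toReal - 1 / ((d + 2 : ℕ) : ℝ≥0∞).toReal) := by
    intro j
    rw [← eLpNorm_one_eq_lintegral_enorm]
    apply eLpNorm_le_eLpNorm_mul_rpow_measure_univ _ (hf j)
    exact_mod_cast Nat.one_le_iff_ne_zero.2 (by omega)
  have h2 : (mB d) univ ^ (1 / (1:ℝ≥0∞).toReal - 1 / ((d + 2 : ℕ) : ℝ≥0∞).toReal) ≠ ⊤ := by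
    apply ENNReal.rpow_ne_top_of_nonneg _ mB_univ.ne
    simp only [ENNReal.toReal_one, div_one, ENNReal.toReal_natCast]
    rw [sub_nonneg, div_le_one (by positivity)]
    push_cast
    have : (0:ℝ) ≤ d := Nat.cast_nonneg d
    linarith
  have h3 := ENNReal.Tendsto.mul_const h (Or.inr h2)
  rw [zero_mul] at h3
  exact tendsto_of_tendsto_of_tendsto_of_le_of_le tendsto_const_nhds h3 (fun _ => zero_le) h1

lemma lim_pair {f : ℕ → E d → ℝ} {g b : E d → ℝ} {C : ℝ} (hf : ∀ j, Integrable (f j) (mB d))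
    (hg : AEStronglyMeasurable g (mB d)) (hb : Measurable b) (hbC : ∀ x, ‖b x‖ ≤ C)
    (h : Tendsto (fun j => ∫⁻ x in BB d, ‖f j x - g x‖ₑ) atTop (𝓝 0)) :
    Tendsto (fun j => ∫ x in BB d, f j x * b x) atTop (𝓝 (∫ x in BB d, g x * b x)) := by
  apply tendsto_integral_of_L1 _ (hg.mul hb.aestronglyMeasurable)
  · exact Eventually.of_forall fun j => (hf j).mul_bdd (c := C) hb.aestronglyMeasurable
      (ae_of_all _ hbC)
  · have h3 := ENNReal.Tendsto.mul_const (b := ENNReal.ofReal C) h (Or.inr ENNReal.ofReal_ne_top)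
    rw [zero_mul] at h3
    refine tendsto_of_tendsto_of_tendsto_of_le_of_le tendsto_const_nhds h3 (fun _ => zero_le) ?_
    intro j
    simp only []
    rw [← lintegral_mul_const' _ _ ENNReal.ofReal_ne_top]
    apply lintegral_mono
    intro x
    simp only []
    rw [Pi.mul_apply, ← sub_mul, enorm_mul]
    gcongr
    rw [← ofReal_norm]
    exact ENNReal.ofReal_le_ofReal (hbC x)

lemma integrable_of_lim {F : Type*} [NormedAddCommGroup F] {f : ℕ → E d → F} {g : E d → F}
    (hf : ∀ j, Integrable (f j) (mB d)) (hg : AEStronglyMeasurable g (mB d))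
    (h : Tendsto (fun j => ∫⁻ x in BB d, ‖f j x - g x‖ₑ) atTop (𝓝 0)) : Integrable g (mB d) := by
  obtain ⟨j, hj⟩ := (h.eventually (gt_mem_nhds one_pos)).exists
  have h1 : Integrable (fun x => f j x - g x) (mB d) :=
    ⟨(hf j).aestronglyMeasurable.sub hg, lt_trans hj ENNReal.one_lt_top⟩
  have h2 := (hf j).sub h1
  refine h2.congr (ae_of_all _ fun x => ?_)
  simp

lemma qm_diff {A G' : E d → E d} (hA : Continuous A) {C : ℝ} (hAb : ∀ x, ‖A x‖ ≤ C)
    (hG : StronglyMeasurable G') (r : ℝ) : ‖qm d A r - qm d G' r‖ₑ ≤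
      ENNReal.ofReal (sph d)⁻¹ * ∫⁻ ω, ‖A (r • (ω : E d)) - G' (r • (ω : E d))‖ₑ ∂(sg d) := by
  have hc : 0 < (sph d)⁻¹ := inv_pos.2 sph_pos
  have hm : Measurable fun ω : Metric.sphere (0 : E d) 1 => r • (ω : E d) := by fun_prop
  have hG1 : StronglyMeasurable fun ω : Metric.sphere (0 : E d) 1 => G' (r • (ω : E d)) :=
    hG.comp_measurable hm
  have hA1 : Continuous fun ω : Metric.sphere (0 : E d) 1 => A (r • (ω : E d)) :=
    hA.comp (by fun_prop)
  by_cases hD : ∫⁻ ω, ‖A (r • (ω : E d)) - G' (r • (ω : E d))‖ₑ ∂(sg d) = ⊤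
  · rw [hD, ENNReal.mul_top (by positivity)]
    exact le_top
  · have i1 : Integrable (fun ω : Metric.sphere (0 : E d) 1 =>
        A (r • (ω : E d)) - G' (r • (ω : E d))) (sg d) :=
      ⟨(hA1.aestronglyMeasurable).sub hG1.aestronglyMeasurable, lt_top_iff_ne_top.2 hD⟩
    have i2 : Integrable (fun ω : Metric.sphere (0 : E d) 1 => A (r • (ω : E d))) (sg d) :=
      Integrable.mono' (integrable_const C) hA1.aestronglyMeasurable (ae_of_all _ fun ω => hAb _)
    have i3 : Integrable (fun ω : Metric.sphere (0 : E d) 1 => G' (r • (ω : E d))) (sg d) := by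
      refine (i2.sub i1).congr (ae_of_all _ fun ω => ?_)
      simp
    have key : ∀ f : Metric.sphere (0 : E d) 1 → E d, Integrable f (sg d) →
        Integrable (fun ω => ⟪f ω, (ω : E d)⟫_ℝ) (sg d) := by
      intro f hf
      refine Integrable.mono' hf.norm (hf.aestronglyMeasurable.inner
        continuous_subtype_val.aestronglyMeasurable) (ae_of_all _ fun ω => ?_)
      refine (norm_inner_le_norm _ _).trans ?_
      rw [norm_eq_of_mem_sphere ω, mul_one]
    unfold qm
    rw [← mul_sub, ← integral_sub (key _ i2) (key _ i3), enorm_mul]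
    simp_rw [← inner_sub_left]
    have e1 : ‖(sph d)⁻¹‖ₑ = ENNReal.ofReal (sph d)⁻¹ := Real.enorm_of_nonneg hc.le
    rw [e1]
    gcongr
    refine (enorm_integral_le_lintegral_enorm _).trans ?_
    apply lintegral_mono
    intro ω
    simp only []
    rw [← ofReal_norm, ← ofReal_norm]
    apply ENNReal.ofReal_le_ofReal
    refine (norm_inner_le_norm _ _).trans ?_
    rw [norm_eq_of_mem_sphere ω, mul_one]

lemma pm_diff {φ : E d → ℝ} (hφ : Continuous φ) (r c : ℝ) : ‖pm d φ r - c‖ₑ ≤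
      ENNReal.ofReal (sph d)⁻¹ * ∫⁻ ω, ‖φ (r • (ω : E d)) - c‖ₑ ∂(sg d) := by
  have hc : 0 < (sph d)⁻¹ := inv_pos.2 sph_pos
  have hs := sph_pos (d := d)
  have h1 : Continuous fun ω : Metric.sphere (0 : E d) 1 => φ (r • (ω : E d)) :=
    hφ.comp (by fun_prop)
  have i1 : Integrable (fun ω : Metric.sphere (0 : E d) 1 => φ (r • (ω : E d))) (sg d) := by
    have : CompactSpace (Metric.sphere (0 : E d) 1) := isCompact_iff_compactSpace.1
      (isCompact_sphere 0 1)
    exact h1.integrable_of_hasCompactSupport (HasCompactSupport.of_compactSpace _)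
  have e : pm d φ r - c = (sph d)⁻¹ * ∫ ω, (φ (r • (ω : E d)) - c) ∂(sg d) := by
    rw [integral_sub i1 (integrable_const c), integral_const, smul_eq_mul]
    unfold pm
    have : (sg d).real univ = sph d := rfl
    rw [this]
    field_simp
  have e1 : ‖(sph d)⁻¹‖ₑ = ENNReal.ofReal (sph d)⁻¹ := Real.enorm_of_nonneg hc.le
  rw [e, enorm_mul, e1]
  gcongr
  exact enorm_integral_le_lintegral_enorm _

end Pool.Agent.R217.NL
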