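import Pool.Agent.R217.NL.Red4

set_option autoImplicit false

open Filter Topology Set MeasureTheory
open scoped ENNReal InnerProductSpace

namespace Pool.Agent.R217.NL

variable {d : ℕ}

/-- The profile extended by zero. -/
noncomputable def Ut (d : ℕ) (u : E d → ℝ) : ℝ → ℝ := (Ioo (-1:ℝ) 1).indicator (UU d u)

lemma Ut_meas {u : E d → ℝ} (hu : ContinuousOn u (BB d)) : Measurable (Ut d u) := by
  classical
  have h := ContinuousOn.measurable_piecewise (UU_cont hu)
    (continuousOn_const (c := (0:ℝ)) (s := (Ioo (-1:ℝ) 1)ᶜ)) measurableSet_Ioo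
  have e : Ut d u = (Ioo (-1:ℝ) 1).piecewise (UU d u) fun _ => 0 := by
    funext r
    by_cases hr : r ∈ Ioo (-1:ℝ) 1
    · rw [Ut, indicator_of_mem hr, piecewise_eq_of_mem _ _ _ hr]
    · rw [Ut, indicator_of_notMem hr, piecewise_eq_of_notMem _ _ _ hr]
  rw [e]
  exact h

/-- The data of a radial Sobolev function. -/
structure Dat (d : ℕ) (u : E d → ℝ) (G : E d → E d) (φ : ℕ → E d → ℝ) : Prop where
  cont : ContinuousOn u (BB d)
  val : ∀ x ∈ BB d, u x = Ut d u ‖x‖
  meas : StronglyMeasurable G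
  test : ∀ j, IsTest d (φ j)
  lu : Tendsto (fun j => ∫⁻ x in BB d, ‖φ j x - Ut d u ‖x‖‖ₑ) atTop (𝓝 0)
  lG : Tendsto (fun j => ∫⁻ x in BB d, ‖gradient (φ j) x - G x‖ₑ) atTop (𝓝 0)

lemma grad_cont {φ : E d → ℝ} (h : IsTest d φ) : Continuous (gradient φ) := by
  have hc : Continuous (fderiv ℝ φ) := h.1.continuous_fderiv (by simp)
  unfold gradient
  exact (InnerProductSpace.toDual ℝ (E d)).symm.continuous.comp hc

lemma grad_bound {φ : E d → ℝ} (h : IsTest d φ) : ∃ C, ∀ x, ‖gradient φ x‖ ≤ C := by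
  obtain ⟨C, hC⟩ := test_bound h
  refine ⟨C, fun x => ?_⟩
  unfold gradient
  rw [LinearIsometryEquiv.norm_map]
  exact hC x

variable {u : E d → ℝ} {G : E d → E d} {φ : ℕ → E d → ℝ}

lemma Dat.b1 (h : Dat d u G φ) : Tendsto (fun j => ∫⁻ r in Ioo (0:ℝ) 1,
    ENNReal.ofReal (r ^ (d + 1)) * ‖pm d (φ j) r - Ut d u r‖ₑ) atTop (𝓝 0) := by
  have hU := Ut_meas h.cont
  have h3 := ENNReal.Tendsto.const_mul (a := ENNReal.ofReal (sph d)⁻¹) h.lu
    (Or.inr ENNReal.ofReal_ne_top)
  rw [mul_zero] at h3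
  refine tendsto_of_tendsto_of_tendsto_of_le_of_le tendsto_const_nhds h3 (fun _ => zero_le) ?_
  intro j
  have hm : Measurable fun x : E d => ‖φ j x - Ut d u ‖x‖‖ₑ :=
    ((h.test j).1.continuous.measurable.sub (hU.comp measurable_norm)).enorm
  simp only []
  rw [lpolar hm, ← lintegral_const_mul' _ _ ENNReal.ofReal_ne_top]
  apply setLIntegral_mono' measurableSet_Ioo
  intro r hr
  have h1 := pm_diff (h.test j).1.continuous r (Ut d u r)
  have h2 : ∀ ω : Metric.sphere (0 : E d) 1, Ut d u ‖r • (ω : E d)‖ = Ut d u r := by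
    intro ω
    rw [norm_smul, norm_eq_of_mem_sphere ω, mul_one, Real.norm_eq_abs, abs_of_pos hr.1]
  simp_rw [h2]
  calc ENNReal.ofReal (r ^ (d + 1)) * ‖pm d (φ j) r - Ut d u r‖ₑ
      ≤ ENNReal.ofReal (r ^ (d + 1)) * (ENNReal.ofReal (sph d)⁻¹ *
        ∫⁻ ω, ‖φ j (r • (ω : E d)) - Ut d u r‖ₑ ∂(sg d)) := by gcongr
    _ = _ := by ring

lemma Dat.b2 (h : Dat d u G φ) : Tendsto (fun j => ∫⁻ r in Ioo (0:ℝ) 1,
    ENNReal.ofReal (r ^ (d + 1)) * ‖qm d (gradient (φ j)) r - qm d G r‖ₑ) atTop (𝓝 0) := by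
  have h3 := ENNReal.Tendsto.const_mul (a := ENNReal.ofReal (sph d)⁻¹) h.lG
    (Or.inr ENNReal.ofReal_ne_top)
  rw [mul_zero] at h3
  refine tendsto_of_tendsto_of_tendsto_of_le_of_le tendsto_const_nhds h3 (fun _ => zero_le) ?_
  intro j
  have hm : Measurable fun x : E d => ‖gradient (φ j) x - G x‖ₑ :=
    ((grad_cont (h.test j)).measurable.sub h.meas.measurable).enorm
  simp only []
  rw [lpolar hm, ← lintegral_const_mul' _ _ ENNReal.ofReal_ne_top]
  apply setLIntegral_mono' measurableSet_Ioo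
  intro r hr
  obtain ⟨C, hC⟩ := grad_bound (h.test j)
  have h1 := qm_diff (grad_cont (h.test j)) hC h.meas r
  calc ENNReal.ofReal (r ^ (d + 1)) * ‖qm d (gradient (φ j)) r - qm d G r‖ₑ
      ≤ ENNReal.ofReal (r ^ (d + 1)) * (ENNReal.ofReal (sph d)⁻¹ *
        ∫⁻ ω, ‖gradient (φ j) (r • (ω : E d)) - G (r • (ω : E d))‖ₑ ∂(sg d)) := by gcongr
    _ = _ := by ring

lemma qm_meas (hG : StronglyMeasurable G) : Measurable (qm d G) := by
  unfold qm
  apply Measurable.const_mul
  apply StronglyMeasurable.measurable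
  have h1 : StronglyMeasurable fun p : ℝ × Metric.sphere (0 : E d) 1 =>
      ⟪G (p.1 • (p.2 : E d)), (p.2 : E d)⟫_ℝ := by
    have h2 : Measurable fun p : ℝ × Metric.sphere (0 : E d) 1 => p.1 • (p.2 : E d) := by fun_prop
    have h3 : Measurable fun p : ℝ × Metric.sphere (0 : E d) 1 => (p.2 : E d) := by fun_prop
    exact (hG.comp_measurable h2).inner h3.stronglyMeasurable
  exact h1.integral_prod_right'

lemma pm_cont {φ : E d → ℝ} (h : IsTest d φ) : Continuous (pm d φ) :=
  continuous_iff_continuousAt.2 fun r => (pm_deriv h r).continuousAt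

lemma Dat.c1 (h : Dat d u G φ) : Tendsto (fun j => ∫⁻ x in BB d,
    ‖pm d (φ j) ‖x‖ - Ut d u ‖x‖‖ₑ) atTop (𝓝 0) := by
  have h3 := ENNReal.Tendsto.const_mul (a := (sg d) univ) h.b1
    (Or.inr (measure_ne_top _ _))
  rw [mul_zero] at h3
  refine h3.congr fun j => ?_
  rw [← lpolar_radial (g := fun r => ‖pm d (φ j) r - Ut d u r‖ₑ)
    ((pm_cont (h.test j)).measurable.sub (Ut_meas h.cont)).enorm]

lemma Dat.c2 (h : Dat d u G φ) : Tendsto (fun j => ∫⁻ x in BB d,
    ‖qm d (gradient (φ j)) ‖x‖ - qm d G ‖x‖‖ₑ) atTop (𝓝 0) := by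
  have h3 := ENNReal.Tendsto.const_mul (a := (sg d) univ) h.b2
    (Or.inr (measure_ne_top _ _))
  rw [mul_zero] at h3
  refine h3.congr fun j => ?_
  rw [← lpolar_radial (g := fun r => ‖qm d (gradient (φ j)) r - qm d G r‖ₑ)
    ((qm_cont (h.test j)).measurable.sub (qm_meas h.meas)).enorm]

lemma bdd_int {f : E d → ℝ} (hf : Continuous f) : Integrable f (mB d) := by
  have h1 : IntegrableOn f (Metric.closedBall 0 1) volume :=
    hf.continuousOn.integrableOn_compact (isCompact_closedBall 0 1)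
  exact h1.mono_set Metric.ball_subset_closedBall

lemma bdd_int' {f : E d → E d} (hf : Continuous f) : Integrable f (mB d) := by
  have h1 : IntegrableOn f (Metric.closedBall 0 1) volume :=
    hf.continuousOn.integrableOn_compact (isCompact_closedBall 0 1)
  exact h1.mono_set Metric.ball_subset_closedBall

lemma Dat.G_int (h : Dat d u G φ) : Integrable G (mB d) :=
  integrable_of_lim (fun j => bdd_int' (grad_cont (h.test j))) h.meas.aestronglyMeasurable h.lG

lemma Dat.w_int (h : Dat d u G φ) : Integrable (fun x : E d => qm d G ‖x‖) (mB d) :=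
  integrable_of_lim (fun j => bdd_int ((qm_cont (h.test j)).comp continuous_norm))
    ((qm_meas h.meas).comp measurable_norm).aestronglyMeasurable h.c2

/-- The weak gradient is radial: tested form. -/
lemma Dat.pair (h : Dat d u G φ) {ψ : E d → ℝ} (hψ : IsTest d ψ) (h0 : (0 : E d) ∉ tsupport ψ)
    (v : E d) : ∫ x in BB d, ⟪G x, v⟫_ℝ * ψ x =
      ∫ x in BB d, qm d G ‖x‖ * (⟪x, v⟫_ℝ / ‖x‖ * ψ x) := by
  have hz : ∀ x, x ∉ BB d → ψ x = 0 := fun x hx => image_eq_zero_of_notMem_tsupport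
    (fun h => hx (hψ.2.2 h))
  have hz' : ∀ x, x ∉ BB d → fderiv ℝ ψ x v = 0 := by
    intro x hx
    have : x ∉ tsupport (fderiv ℝ ψ) := fun h => hx (hψ.2.2 (tsupport_fderiv_subset ℝ h))
    rw [image_eq_zero_of_notMem_tsupport this]; simp
  obtain ⟨C, hC⟩ := hψ.2.1.exists_bound_of_continuous hψ.1.continuous
  obtain ⟨C', hC'⟩ := test_bound hψ
  have hdc : Continuous (fun x => fderiv ℝ ψ x v) :=
    (hψ.1.continuous_fderiv (by simp)).clm_apply continuous_const
  have hUm : AEStronglyMeasurable (fun x : E d => Ut d u ‖x‖) (mB d) :=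
    ((Ut_meas h.cont).comp measurable_norm).aestronglyMeasurable
  have hdb : ∀ x, ‖fderiv ℝ ψ x v‖ ≤ C' * ‖v‖ := fun x =>
    (ContinuousLinearMap.le_opNorm _ _).trans (by gcongr; exact hC' x)
  -- limits
  have l1 := lim_pair (fun j => bdd_int (h.test j).1.continuous) hUm hdc.measurable hdb h.lu
  have l2 := lim_pair (fun j => bdd_int ((pm_cont (h.test j)).comp continuous_norm)) hUm
    hdc.measurable hdb h.c1
  have l3 : Tendsto (fun j => ∫ x in BB d, ⟪gradient (φ j) x, v⟫_ℝ * ψ x) atTop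
      (𝓝 (∫ x in BB d, ⟪G x, v⟫_ℝ * ψ x)) := by
    apply lim_pair (fun j => bdd_int ((grad_cont (h.test j)).inner continuous_const))
      (h.meas.inner stronglyMeasurable_const).aestronglyMeasurable hψ.1.continuous.measurable hC
    have h3 := ENNReal.Tendsto.mul_const (b := ENNReal.ofReal ‖v‖) h.lG
      (Or.inr ENNReal.ofReal_ne_top)
    rw [zero_mul] at h3
    refine tendsto_of_tendsto_of_tendsto_of_le_of_le tendsto_const_nhds h3 (fun _ => zero_le) ?_
    intro j
    simp only []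
    rw [← lintegral_mul_const' _ _ ENNReal.ofReal_ne_top]
    apply lintegral_mono
    intro x
    simp only []
    rw [← inner_sub_left, ← ofReal_norm, ← ofReal_norm, ← ENNReal.ofReal_mul (norm_nonneg _)]
    exact ENNReal.ofReal_le_ofReal (norm_inner_le_norm _ _)
  have l4 : Tendsto (fun j => ∫ x in BB d, qm d (gradient (φ j)) ‖x‖ * (⟪x, v⟫_ℝ / ‖x‖ * ψ x))
      atTop (𝓝 (∫ x in BB d, qm d G ‖x‖ * (⟪x, v⟫_ℝ / ‖x‖ * ψ x))) := by
    apply lim_pair (C := ‖v‖ * C) (fun j => bdd_int ((qm_cont (h.test j)).comp continuous_norm))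
      ((qm_meas h.meas).comp measurable_norm).aestronglyMeasurable ?_ ?_ h.c2
    · have := hψ.1.continuous.measurable
      fun_prop
    · intro x
      rw [norm_mul]
      have hC0 : 0 ≤ C := (norm_nonneg _).trans (hC 0)
      have h1 : ‖⟪x, v⟫_ℝ / ‖x‖‖ ≤ ‖v‖ := by
        by_cases hx : x = 0
        · subst hx; simp
        · have hx' : 0 < ‖x‖ := norm_pos_iff.2 hx
          rw [norm_div, norm_norm, div_le_iff₀ hx', mul_comm]
          exact norm_inner_le_norm _ _
      gcongr
      exact hC x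
  -- identities
  have i1 : ∀ j, ∫ x in BB d, φ j x * fderiv ℝ ψ x v =
      -∫ x in BB d, ⟪gradient (φ j) x, v⟫_ℝ * ψ x := by
    intro j
    rw [setIntegral_eq_integral_of_forall_compl_eq_zero (fun x hx => by rw [hz' x hx, mul_zero]),
      setIntegral_eq_integral_of_forall_compl_eq_zero (fun x hx => by rw [hz x hx, mul_zero])]
    simp_rw [grad_inner]
    have hφc : Continuous (fun x => fderiv ℝ (φ j) x v) :=
      ((h.test j).1.continuous_fderiv (by simp)).clm_apply continuous_const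
    apply integral_mul_fderiv_eq_neg_fderiv_mul_of_integrable
    · exact (hφc.mul hψ.1.continuous).integrable_of_hasCompactSupport hψ.2.1.mul_left
    · exact ((h.test j).1.continuous.mul hdc).integrable_of_hasCompactSupport
        (h.test j).2.1.mul_right
    · exact ((h.test j).1.continuous.mul hψ.1.continuous).integrable_of_hasCompactSupport
        hψ.2.1.mul_left
    · intro x _
      exact ((h.test j).1.differentiable (by simp)) x
    · intro x _
      exact (hψ.1.differentiable (by simp)) x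
  have i2 : ∀ j, ∫ x in BB d, pm d (φ j) ‖x‖ * fderiv ℝ ψ x v =
      -∫ x in BB d, qm d (gradient (φ j)) ‖x‖ * (⟪x, v⟫_ℝ / ‖x‖ * ψ x) := by
    intro j
    rw [setIntegral_eq_integral_of_forall_compl_eq_zero (fun x hx => by rw [hz' x hx, mul_zero]),
      setIntegral_eq_integral_of_forall_compl_eq_zero
        (fun x hx => by rw [hz x hx, mul_zero, mul_zero]),
      ibp_radial (pm_deriv (h.test j)) (qm_cont (h.test j)) hψ.1 hψ.2.1 h0 v]
    congr 1
    apply integral_congr_ae
    refine ae_of_all _ fun x => ?_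
    simp only []
    ring
  have u1 := tendsto_nhds_unique (l3.neg) (l1.congr i1)
  have u2 := tendsto_nhds_unique (l4.neg) (l2.congr i2)
  linarith

/-- The weak gradient is radial. -/
lemma Dat.G_eq (h : Dat d u G φ) :
    ∀ᵐ x ∂(mB d), G x = (qm d G ‖x‖ / ‖x‖) • x := by
  have h1 : ∀ i : Fin (d + 2), ∀ᵐ x : E d, x ∈ BB d \ {0} →
      G x i - (qm d G ‖x‖ / ‖x‖) * x i = 0 := by
    intro i
    have hin : ∀ y : E d, ⟪y, EuclideanSpace.single i (1:ℝ)⟫_ℝ = y i := by
      intro y; simp [EuclideanSpace.inner_single_right]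
    have hi1 : Integrable (fun x => ⟪G x, EuclideanSpace.single i (1:ℝ)⟫_ℝ) (mB d) := by
      refine Integrable.mono' h.G_int.norm
        (h.meas.inner stronglyMeasurable_const).aestronglyMeasurable (ae_of_all _ fun x => ?_)
      refine (norm_inner_le_norm _ _).trans ?_
      simp
    have hm2 : Measurable fun x : E d => qm d G ‖x‖ := (qm_meas h.meas).comp measurable_norm
    have hi2 : Integrable (fun x => qm d G ‖x‖ *
        (⟪x, EuclideanSpace.single i (1:ℝ)⟫_ℝ / ‖x‖)) (mB d) := by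
      refine Integrable.mono' h.w_int.norm ?_ (ae_of_all _ fun x => ?_)
      · apply Measurable.aestronglyMeasurable
        fun_prop
      · rw [norm_mul]
        have : ‖⟪x, EuclideanSpace.single i (1:ℝ)⟫_ℝ / ‖x‖‖ ≤ 1 := by
          by_cases hx : x = 0
          · subst hx; simp
          · have hx' : 0 < ‖x‖ := norm_pos_iff.2 hx
            rw [norm_div, norm_norm, div_le_iff₀ hx', one_mul]
            refine (norm_inner_le_norm _ _).trans ?_
            simp
        exact mul_le_of_le_one_right (norm_nonneg _) this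
    have hopen : IsOpen (BB d \ {0}) := Metric.isOpen_ball.sdiff isClosed_singleton
    have hsub : BB d \ {0} ⊆ BB d := sdiff_subset
    have e : ∀ x : E d, G x i - (qm d G ‖x‖ / ‖x‖) * x i =
        ⟪G x, EuclideanSpace.single i (1:ℝ)⟫_ℝ - qm d G ‖x‖ *
          (⟪x, EuclideanSpace.single i (1:ℝ)⟫_ℝ / ‖x‖) := by
      intro x
      rw [hin, hin]
      ring
    simp_rw [e]
    apply hopen.ae_eq_zero_of_integral_contDiff_smul_eq_zero
    · apply IntegrableOn.locallyIntegrableOn
      exact IntegrableOn.mono_set (hi1.sub hi2) hsub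
    · intro ψ hψ hc hs
      have hT : IsTest d ψ := ⟨hψ, hc, hs.trans hsub⟩
      have h0 : (0 : E d) ∉ tsupport ψ := fun hx => (hs hx).2 rfl
      have h2 := h.pair hT h0 (EuclideanSpace.single i (1:ℝ))
      have hz : ∀ x, x ∉ BB d → ψ x = 0 := fun x hx => image_eq_zero_of_notMem_tsupport
        (fun h => hx (hT.2.2 h))
      rw [← setIntegral_eq_integral_of_forall_compl_eq_zero (s := BB d)
        (fun x hx => by rw [hz x hx, zero_smul])]
      obtain ⟨C, hC⟩ := hc.exists_bound_of_continuous hψ.continuous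
      have j1 : Integrable (fun x => ⟪G x, EuclideanSpace.single i (1:ℝ)⟫_ℝ * ψ x) (mB d) :=
        hi1.mul_bdd (c := C) hψ.continuous.aestronglyMeasurable (ae_of_all _ hC)
      have j2 : Integrable (fun x => qm d G ‖x‖ *
          (⟪x, EuclideanSpace.single i (1:ℝ)⟫_ℝ / ‖x‖ * ψ x)) (mB d) := by
        have := hi2.mul_bdd (c := C) hψ.continuous.aestronglyMeasurable (ae_of_all _ hC)
        refine this.congr (ae_of_all _ fun x => ?_)
        simp only []
        ring
      have e2 : ∀ x, ψ x • (⟪G x, EuclideanSpace.single i (1:ℝ)⟫_ℝ - qm d G ‖x‖ *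
          (⟪x, EuclideanSpace.single i (1:ℝ)⟫_ℝ / ‖x‖)) =
          ⟪G x, EuclideanSpace.single i (1:ℝ)⟫_ℝ * ψ x - qm d G ‖x‖ *
          (⟪x, EuclideanSpace.single i (1:ℝ)⟫_ℝ / ‖x‖ * ψ x) := by
        intro x; simp only [smul_eq_mul]; ring
      simp_rw [e2]
      rw [integral_sub j1 j2, h2]
      ring
  have h2 : ∀ᵐ x : E d, ∀ i : Fin (d + 2), x ∈ BB d \ {0} →
      G x i - (qm d G ‖x‖ / ‖x‖) * x i = 0 := ae_all_iff.2 h1
  have h3 : ∀ᵐ x : E d, x ≠ 0 := compl_mem_ae_iff.2 (measure_singleton 0)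
  rw [mB, ae_restrict_iff' (show MeasurableSet (BB d) from measurableSet_ball)]
  filter_upwards [h2, h3] with x hx hx0 hxB
  ext i
  have := hx i ⟨hxB, hx0⟩
  simp only [PiLp.smul_apply, smul_eq_mul]
  linarith

end Pool.Agent.R217.NL
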